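import Pool.Agent.P.MP_a66f6f_co.Hv.Defs

/-!
A sharper one-sided isoperimetric inequality in the cube: boundary vertices get weight two.
-/

namespace Pool.Agent.P.MP_a66f6f_co.KP2

open Finset Pos
open scoped symmDiff

/-- table of the lower bound for edges plus twice the boundary vertices, grid 1/64, unit 1/1024 -/
def FF (i : ℕ) : ℕ :=
  (7650482055972983776938981249807480353103919369362857532562417083629362652395571273205384028632699510115387280439155411448253200108072834724875174880904291527659349416432478301022619258905978124616310394831765504 >>> (11 * i)) % 2048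

/-- table of the lower bound for boundary edges -/
def GG (i : ℕ) : ℕ :=
  (3948314654252944440503502377939027814985844953916427417371229744102071951664357415104363496527335604831004442176305537075280297711876702745030713776194141249367916413851818619619475016231579370199105974430793728 >>> (11 * i)) % 2048

/-- twice the interpolated value at a half-integer -/
def MM (v : ℕ → ℕ) (N : ℕ) : ℕ := v (N / 2) + v ((N + 1) / 2)

/-- the check at one vertex -/
def okv (t a b : ℕ) : Bool :=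
  Nat.ble (16 * MM FF (a + b) + t * (16 * b) + (16 - t) * (48 * b))
    (t * (FF a + 16 * a) + (16 - t) * (GG a + 48 * a) + 16 * FF b)

theorem chkF : ((List.range 64).all fun i => (List.range i).all fun j =>
    ((List.range 17).any fun t => okv t i j && okv t (i + 1) j && okv t i (j + 1)) &&
    ((List.range 17).any fun t => okv t (i + 1) (j + 1) && okv t (i + 1) j && okv t i (j + 1))) =
    true := by decide +kernel

theorem chkG : ((List.range 65).all fun a => (List.range (a + 1)).all fun b =>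
    Nat.ble (MM GG (a + b) + 16 * b) (GG a + GG b + 16 * a)) = true := by decide +kernel

theorem chkT : ((List.range 65).all fun a =>
    Nat.ble (48 * a) (FF a) || Nat.ble 33 a) = true ∧ ((List.range 65).all fun a =>
    Nat.ble 3072 (FF a + 48 * a) || Nat.ble a 31) = true := by decide +kernel

/-- piecewise linear interpolation -/
noncomputable def pl (v : ℕ → ℕ) (y : ℝ) : ℝ :=
  v ⌊y⌋₊ + (y - ⌊y⌋₊) * (v (⌊y⌋₊ + 1) - v ⌊y⌋₊)

theorem pl_eq (v : ℕ → ℕ) (i : ℕ) {y : ℝ} (h1 : i ≤ y) (h2 : y ≤ i + 1) :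
    pl v y = v i + (y - i) * (v (i + 1) - v i) := by
  rcases h2.eq_or_lt with c | c
  · have : ⌊y⌋₊ = i + 1 := by rw [c]; exact_mod_cast Nat.floor_natCast (R := ℝ) (i + 1)
    rw [pl, this, c]
    push_cast
    ring
  · have : ⌊y⌋₊ = i := (Nat.floor_eq_iff ((Nat.cast_nonneg i).trans h1)).2 ⟨h1, c⟩
    rw [pl, this]

theorem pl_mid (v : ℕ → ℕ) (N : ℕ) {z : ℝ} (h1 : N ≤ z) (h2 : z ≤ N + 1) :
    2 * pl v (z / 2) = MM v N + (z - N) * (MM v (N + 1) - MM v N) := by
  rcases Nat.even_or_odd' N with ⟨k, rfl | rfl⟩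
  · push_cast at h1 h2
    rw [pl_eq v k (by linarith) (by linarith), MM, MM, show 2 * k / 2 = k by omega,
      show (2 * k + 1) / 2 = k by omega, show (2 * k + 1 + 1) / 2 = k + 1 by omega]
    push_cast
    ring
  · push_cast at h1 h2
    rw [pl_eq v k (by linarith) (by linarith), MM, MM, show (2 * k + 1) / 2 = k by omega,
      show (2 * k + 1 + 1) / 2 = k + 1 by omega, show (2 * k + 1 + 1 + 1) / 2 = k + 1 by omega]
    push_cast
    ring

theorem cell {y : ℝ} (h0 : 0 ≤ y) (h1 : y ≤ 64) :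
    min ⌊y⌋₊ 63 < 64 ∧ ((min ⌊y⌋₊ 63 : ℕ) : ℝ) ≤ y ∧ y ≤ (min ⌊y⌋₊ 63 : ℕ) + 1 := by
  refine ⟨by omega, le_trans (Nat.cast_le.2 (min_le_left _ _)) (Nat.floor_le h0), ?_⟩
  rcases le_total ⌊y⌋₊ 63 with c | c
  · rw [min_eq_left c]; exact (Nat.lt_floor_add_one y).le
  · rw [min_eq_right c]; push_cast; linarith

theorem okv_real {t a b : ℕ} (ht : t < 17) (h : okv t a b = true) :
    (16 : ℝ) * MM FF (a + b) + t * (16 * b) + (16 - t) * (48 * b) ≤
      t * (FF a + 16 * a) + (16 - t) * (GG a + 48 * a) + 16 * FF b := by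
  have h1 := Nat.le_of_ble_eq_true h
  have h2 : ((16 - t : ℕ) : ℝ) = 16 - t := by rw [Nat.cast_sub (by omega)]; norm_num
  rw [← h2]
  exact_mod_cast h1

theorem gv {a b : ℕ} (ha : a ≤ 64) (hb : b ≤ a) :
    (MM GG (a + b) : ℝ) + 16 * b ≤ GG a + GG b + 16 * a := by
  have h := List.all_eq_true.1 (List.all_eq_true.1 chkG a (List.mem_range.2 (by omega))) b
    (List.mem_range.2 (by omega))
  exact_mod_cast Nat.le_of_ble_eq_true h

theorem step {x y : ℝ} (h0 : 0 ≤ y) (h1 : y ≤ x) (h2 : x ≤ 64) :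
    2 * pl GG ((x + y) / 2) ≤ pl GG x + pl GG y + 16 * (x - y) ∧
    ∀ U, pl FF x + 16 * (x - y) ≤ U → pl GG x + 48 * (x - y) ≤ U →
      2 * pl FF ((x + y) / 2) ≤ pl FF y + U := by
  obtain ⟨a1, a2, a3⟩ := cell (h0.trans h1) h2
  obtain ⟨b1, b2, b3⟩ := cell h0 (h1.trans h2)
  have c0 : min ⌊y⌋₊ 63 ≤ min ⌊x⌋₊ 63 := min_le_min_right _ (Nat.floor_le_floor h1)
  generalize min ⌊x⌋₊ 63 = i at a1 a2 a3 c0
  generalize min ⌊y⌋₊ 63 = j at b1 b2 b3 c0
  rw [pl_eq GG i a2 a3, pl_eq GG j b2 b3, pl_eq FF i a2 a3, pl_eq FF j b2 b3]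
  rcases c0.eq_or_lt with rfl | c
  · rw [pl_eq GG j (y := (x + y) / 2) (by linarith) (by linarith),
      pl_eq FF j (y := (x + y) / 2) (by linarith) (by linarith)]
    exact ⟨by nlinarith, fun U u1 _ => by nlinarith⟩
  have h := List.all_eq_true.1 (List.all_eq_true.1 chkF i (List.mem_range.2 a1)) j
    (List.mem_range.2 c)
  rw [Bool.and_eq_true, List.any_eq_true, List.any_eq_true] at h
  obtain ⟨⟨t, t1, t2⟩, t', t3, t4⟩ := h
  simp only [Bool.and_eq_true, List.mem_range] at t1 t2 t3 t4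
  have g1 := gv (a := i) (b := j) (by omega) (by omega)
  have g2 := gv (a := i + 1) (b := j) (by omega) (by omega)
  have g3 := gv (a := i) (b := j + 1) (by omega) (by omega)
  have g4 := gv (a := i + 1) (b := j + 1) (by omega) (by omega)
  obtain ⟨s, rfl⟩ : ∃ s, x = i + s := ⟨x - i, by ring⟩
  obtain ⟨u, rfl⟩ : ∃ u, y = j + u := ⟨y - j, by ring⟩
  have s0 : 0 ≤ s := by linarith
  have s1 : 0 ≤ 1 - s := by linarith
  have u0 : 0 ≤ u := by linarith
  have u1 : 0 ≤ 1 - u := by linarith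
  rw [show i + 1 + j = i + j + 1 by omega] at g2
  rw [show i + (j + 1) = i + j + 1 by omega] at g3
  rw [show i + 1 + (j + 1) = i + j + 1 + 1 by omega] at g4
  rcases le_total (s + u) 1 with d | d
  · have f1 := okv_real t1 t2.1.1
    have f2 := okv_real t1 t2.1.2
    have f3 := okv_real t1 t2.2
    rw [show i + 1 + j = i + j + 1 by omega] at f2
    rw [show i + (j + 1) = i + j + 1 by omega] at f3
    rw [pl_mid GG (i + j) (by push_cast; linarith) (by push_cast; linarith),
      pl_mid FF (i + j) (by push_cast; linarith) (by push_cast; linarith)]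
    have w : 0 ≤ 1 - s - u := by linarith
    have p1 : (0 : ℝ) ≤ t := Nat.cast_nonneg _
    have p2 : (0 : ℝ) ≤ 16 - t := by
      have : (t : ℝ) ≤ 16 := by exact_mod_cast (show t ≤ 16 by omega)
      linarith
    push_cast at g2 g3 f2 f3 ⊢
    refine ⟨?_, fun U v1 v2 => ?_⟩
    · linarith [mul_le_mul_of_nonneg_left g1 w, mul_le_mul_of_nonneg_left g2 s0,
        mul_le_mul_of_nonneg_left g3 u0]
    · linarith [mul_le_mul_of_nonneg_left f1 w, mul_le_mul_of_nonneg_left f2 s0,
        mul_le_mul_of_nonneg_left f3 u0, mul_le_mul_of_nonneg_left v1 p1,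
        mul_le_mul_of_nonneg_left v2 p2]
  · have f1 := okv_real t3 t4.1.1
    have f2 := okv_real t3 t4.1.2
    have f3 := okv_real t3 t4.2
    rw [show i + 1 + (j + 1) = i + j + 1 + 1 by omega] at f1
    rw [show i + 1 + j = i + j + 1 by omega] at f2
    rw [show i + (j + 1) = i + j + 1 by omega] at f3
    rw [pl_mid GG (i + j + 1) (by push_cast; linarith) (by push_cast; linarith),
      pl_mid FF (i + j + 1) (by push_cast; linarith) (by push_cast; linarith)]
    have w : 0 ≤ s + u - 1 := by linarith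
    have p1 : (0 : ℝ) ≤ t' := Nat.cast_nonneg _
    have p2 : (0 : ℝ) ≤ 16 - t' := by
      have : (t' : ℝ) ≤ 16 := by exact_mod_cast (show t' ≤ 16 by omega)
      linarith
    push_cast at g2 g3 g4 f1 f2 f3 ⊢
    refine ⟨?_, fun U v1 v2 => ?_⟩
    · linarith [mul_le_mul_of_nonneg_left g4 w, mul_le_mul_of_nonneg_left g2 u1,
        mul_le_mul_of_nonneg_left g3 s1]
    · linarith [mul_le_mul_of_nonneg_left f1 w, mul_le_mul_of_nonneg_left f2 u1,
        mul_le_mul_of_nonneg_left f3 s1, mul_le_mul_of_nonneg_left v1 p1,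
        mul_le_mul_of_nonneg_left v2 p2]

theorem tent {y : ℝ} (h0 : 0 ≤ y) (h1 : y ≤ 64) {z : ℝ} (z0 : z ≤ y) (z1 : z ≤ 64 - y) :
    48 * z ≤ pl FF y := by
  obtain ⟨a1, a2, a3⟩ := cell h0 h1
  generalize min ⌊y⌋₊ 63 = i at a1 a2 a3
  rw [pl_eq FF i a2 a3]
  have s0 : 0 ≤ y - i := by linarith
  have s1 : 0 ≤ 1 - (y - i) := by linarith
  rcases le_or_gt i 31 with c | c
  · have p : ∀ a : ℕ, a ≤ 32 → (48 : ℝ) * a ≤ FF a := fun a ha => by
      have h := List.all_eq_true.1 chkT.1 a (List.mem_range.2 (by omega))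
      rw [Bool.or_eq_true] at h
      rcases h with h | h
      · exact_mod_cast Nat.le_of_ble_eq_true h
      · have := Nat.le_of_ble_eq_true h
        omega
    have p1 := p i (by omega)
    have p2 := p (i + 1) (by omega)
    push_cast at p2
    linarith [mul_le_mul_of_nonneg_left p1 s1, mul_le_mul_of_nonneg_left p2 s0]
  · have p : ∀ a : ℕ, 32 ≤ a → a ≤ 64 → (3072 : ℝ) ≤ FF a + 48 * a := fun a ha hb => by
      have h := List.all_eq_true.1 chkT.2 a (List.mem_range.2 (by omega))
      rw [Bool.or_eq_true] at h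
      rcases h with h | h
      · exact_mod_cast Nat.le_of_ble_eq_true h
      · have := Nat.le_of_ble_eq_true h
        omega
    have p1 := p i (by omega) (by omega)
    have p2 := p (i + 1) (by omega) (by omega)
    push_cast at p2
    linarith [mul_le_mul_of_nonneg_left p1 s1, mul_le_mul_of_nonneg_left p2 s0]

theorem ends : pl FF 0 = 0 ∧ pl GG 0 = 0 ∧ pl FF 64 = 0 ∧ pl GG 64 = 0 := by
  have e : FF 0 = 0 ∧ GG 0 = 0 ∧ FF 64 = 0 ∧ GG 64 = 0 := by decide +kernel
  have a := fun v => pl_eq v 0 (y := 0) (by norm_num) (by norm_num)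
  have b := fun v => pl_eq v 64 (y := 64) (by norm_num) (by norm_num)
  rw [a, a, b, b, e.1, e.2.1, e.2.2.1, e.2.2.2]
  norm_num

/-- the weight of a vertex with `h` neighbours on the other side -/
noncomputable def p2 (h : ℕ) : ℝ := h + 2 * (if h = 0 then 0 else 1)

theorem p2_ge (h : ℕ) : (h : ℝ) ≤ p2 h := by
  unfold p2
  split_ifs <;> linarith

theorem p2_succ (h : ℕ) : p2 h + 1 ≤ p2 (h + 1) ∧ p2 (h + 1) = h + 3 := by
  unfold p2
  rw [if_neg (Nat.succ_ne_zero h)]
  push_cast
  split_ifs <;> constructor <;> linarith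

open Classical in
theorem half {κ : Type*} (S : Finset κ) (a0 a1 : κ → Prop) (h0 h1 : κ → ℕ) (x0 x1 M : ℝ)
    (e0 : x0 = ∑ T ∈ S, if a0 T then 1 else 0) (e1 : x1 = ∑ T ∈ S, if a1 T then 1 else 0)
    (eM : M = S.card) (hM : 0 < M) (c : x1 ≤ x0)
    (i0 : M * pl GG (64 * x0 / M) ≤ 1024 * ∑ T ∈ S, if a0 T then (h0 T : ℝ) else 0)
    (i1 : M * pl GG (64 * x1 / M) ≤ 1024 * ∑ T ∈ S, if a1 T then (h1 T : ℝ) else 0)
    (j0 : M * pl FF (64 * x0 / M) ≤ 1024 * ∑ T ∈ S, if a0 T then p2 (h0 T) else 0)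
    (j1 : M * pl FF (64 * x1 / M) ≤ 1024 * ∑ T ∈ S, if a1 T then p2 (h1 T) else 0) :
    2 * M * pl GG (64 * (x0 + x1) / (2 * M)) ≤ 1024 * ∑ T ∈ S,
      ((if a0 T then ((h0 T + if a1 T then 0 else 1 : ℕ) : ℝ) else 0) +
        if a1 T then ((h1 T + if a0 T then 0 else 1 : ℕ) : ℝ) else 0) ∧
    2 * M * pl FF (64 * (x0 + x1) / (2 * M)) ≤ 1024 * ∑ T ∈ S,
      ((if a0 T then p2 (h0 T + if a1 T then 0 else 1) else 0) +
        if a1 T then p2 (h1 T + if a0 T then 0 else 1) else 0) := by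
  have b1 : 0 ≤ x1 := e1 ▸ sum_nonneg fun T _ => by split_ifs <;> norm_num
  have b0 : x0 ≤ M := by
    rw [e0, eM, card_eq_sum_ones, Nat.cast_sum]
    exact sum_le_sum fun T _ => by split_ifs <;> norm_num
  obtain ⟨H0, t0⟩ : ∃ H, H = ∑ T ∈ S, if a0 T then (h0 T : ℝ) else 0 := ⟨_, rfl⟩
  obtain ⟨H1, t1⟩ : ∃ H, H = ∑ T ∈ S, if a1 T then (h1 T : ℝ) else 0 := ⟨_, rfl⟩
  obtain ⟨P0, r0⟩ : ∃ H, H = ∑ T ∈ S, if a0 T then p2 (h0 T) else 0 := ⟨_, rfl⟩
  obtain ⟨P1, r1⟩ : ∃ H, H = ∑ T ∈ S, if a1 T then p2 (h1 T) else 0 := ⟨_, rfl⟩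
  obtain ⟨W, w⟩ : ∃ W, W = ∑ T ∈ S,
      ((if a0 T then ((h0 T + if a1 T then 0 else 1 : ℕ) : ℝ) else 0) +
        if a1 T then ((h1 T + if a0 T then 0 else 1 : ℕ) : ℝ) else 0) := ⟨_, rfl⟩
  obtain ⟨U, u⟩ : ∃ U, U = ∑ T ∈ S,
      ((if a0 T then p2 (h0 T + if a1 T then 0 else 1) else 0) +
        if a1 T then p2 (h1 T + if a0 T then 0 else 1) else 0) := ⟨_, rfl⟩
  have q0 : H0 + H1 + (x0 - x1) ≤ W := by
    rw [t0, t1, e0, e1, w, ← sum_sub_distrib, ← sum_add_distrib, ← sum_add_distrib]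
    refine sum_le_sum fun T _ => ?_
    by_cases c0 : a0 T <;> by_cases c1 : a1 T <;>
      simp only [c0, c1, if_true, if_false, add_zero] <;> push_cast <;> linarith
  have q1 : P0 + P1 + (x0 - x1) ≤ U := by
    rw [r0, r1, e0, e1, u, ← sum_sub_distrib, ← sum_add_distrib, ← sum_add_distrib]
    refine sum_le_sum fun T _ => ?_
    by_cases c0 : a0 T <;> by_cases c1 : a1 T <;>
      simp only [c0, c1, if_true, if_false, add_zero] <;>
      linarith [(p2_succ (h0 T)).1, (p2_succ (h1 T)).1]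
  have q2 : H0 + P1 + 3 * (x0 - x1) ≤ U := by
    rw [t0, r1, e0, e1, u, ← sum_sub_distrib, mul_sum, ← sum_add_distrib, ← sum_add_distrib]
    refine sum_le_sum fun T _ => ?_
    by_cases c0 : a0 T <;> by_cases c1 : a1 T <;>
      simp only [c0, c1, if_true, if_false, add_zero] <;>
      linarith [(p2_succ (h0 T)).2, (p2_succ (h1 T)).1, p2_ge (h0 T)]
  rw [← t0] at i0
  rw [← t1] at i1
  rw [← r0] at j0
  rw [← r1] at j1
  rw [← w, ← u]
  obtain ⟨x, rfl⟩ : ∃ x, x0 = M * x / 64 := ⟨64 * x0 / M, by field_simp⟩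
  obtain ⟨y, rfl⟩ : ∃ y, x1 = M * y / 64 := ⟨64 * x1 / M, by field_simp⟩
  rw [show 64 * (M * x / 64) / M = x by field_simp] at i0 j0
  rw [show 64 * (M * y / 64) / M = y by field_simp] at i1 j1
  rw [show 64 * (M * x / 64 + M * y / 64) / (2 * M) = (x + y) / 2 by field_simp]
  obtain ⟨s1, s2⟩ := step (x := x) (y := y) (by nlinarith) (by nlinarith) (by nlinarith)
  refine ⟨by linarith [mul_le_mul_of_nonneg_left s1 hM.le], ?_⟩
  have s3 := s2 ((1024 * (U - P1)) / M) (by rw [le_div_iff₀ hM]; linarith)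
    (by rw [le_div_iff₀ hM]; linarith)
  have s4 := mul_le_mul_of_nonneg_left s3 hM.le
  rw [mul_add, mul_div_cancel₀ _ hM.ne'] at s4
  linarith

variable {ι : Type*} [DecidableEq ι]

open Classical in
theorem bell (V : Finset ι) (A : Finset ι → Prop) :
    2 ^ V.card * pl GG (64 * (∑ T ∈ V.powerset, if A T then (1 : ℝ) else 0) / 2 ^ V.card) ≤
      1024 * (∑ T ∈ V.powerset, if A T then (hh V A T : ℝ) else 0) ∧
    2 ^ V.card * pl FF (64 * (∑ T ∈ V.powerset, if A T then (1 : ℝ) else 0) / 2 ^ V.card) ≤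
      1024 * ∑ T ∈ V.powerset, if A T then p2 (hh V A T) else 0 := by
  induction V using Finset.induction_on generalizing A with
  | empty =>
    rw [powerset_empty, sum_singleton, sum_singleton, sum_singleton]
    by_cases c : A ∅ <;> simp [c, p2, hh, ends.1, ends.2.1, ends.2.2.1, ends.2.2.2]
  | insert z W hz ih =>
    have i0 := ih A
    have i1 := ih fun T => A (insert z T)
    have e0 : ∀ T ∈ W.powerset, hh (insert z W) A T =
        hh W A T + if A (insert z T) then 0 else 1 := fun T hT => by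
      have h : z ∉ T := fun h => hz (mem_powerset.1 hT h)
      have : T ∆ {z} = insert z T := by
        ext x
        by_cases d : x = z
        · subst d; simp [mem_symmDiff, h]
        · simp [mem_symmDiff, d]
      rw [hh, hh, filter_insert, this]
      by_cases c : A (insert z T)
      · simp [c]
      · rw [if_pos c, if_neg c, card_insert_of_notMem fun d => hz (mem_filter.1 d).1]
    have e1 : ∀ T ∈ W.powerset, hh (insert z W) A (insert z T) =
        hh W (fun T => A (insert z T)) T + if A T then 0 else 1 := fun T hT => by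
      have h : z ∉ T := fun h => hz (mem_powerset.1 hT h)
      have a1 : insert z T ∆ {z} = T := by
        ext x
        by_cases d : x = z
        · subst d; simp [mem_symmDiff, h]
        · simp [mem_symmDiff, d]
      have a2 : W.filter (fun v => ¬ A (insert z T ∆ {v})) =
          W.filter fun v => ¬ A (insert z (T ∆ {v})) := by
        refine filter_congr fun v hv => ?_
        have a3 : insert z T ∆ {v} = insert z (T ∆ {v}) := by
          have : z ≠ v := fun d => hz (d ▸ hv)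
          ext x
          by_cases d : x = z
          · subst d; simp [mem_symmDiff, this]
          · simp [mem_symmDiff, d]
        rw [a3]
      rw [hh, hh, filter_insert, a1, a2]
      by_cases c : A T
      · simp [c]
      · rw [if_pos c, if_neg c, card_insert_of_notMem fun d => hz (mem_filter.1 d).1]
    have e2 : ∀ φ : ℕ → ℝ, ∑ T ∈ (insert z W).powerset,
        (if A T then φ (hh (insert z W) A T) else 0) =
        ∑ T ∈ W.powerset, ((if A T then φ (hh W A T + if A (insert z T) then 0 else 1) else 0) +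
          if A (insert z T) then φ (hh W (fun T => A (insert z T)) T + if A T then 0 else 1)
          else 0) := fun φ => by
      rw [sum_powerset_insert hz, ← sum_add_distrib]
      exact sum_congr rfl fun T hT => by rw [e0 T hT, e1 T hT]
    have eM : (2 : ℝ) ^ W.card = (W.powerset.card : ℝ) := by simp
    rw [e2 p2, e2 (fun h => (h : ℝ)), sum_powerset_insert hz, card_insert_of_notMem hz, pow_succ']
    rcases le_total (∑ T ∈ W.powerset, if A (insert z T) then (1 : ℝ) else 0)
      (∑ T ∈ W.powerset, if A T then (1 : ℝ) else 0) with c | c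
    · exact half _ _ _ _ _ _ _ _ rfl rfl eM (by positivity) c i0.1 i1.1 i0.2 i1.2
    · have := half _ _ _ _ _ _ _ _ rfl rfl eM (by positivity) c i1.1 i0.1 i1.2 i0.2
      simp only [add_comm (if A (insert z _) then _ else _ : ℝ)] at this
      rwa [add_comm (∑ T ∈ W.powerset, if A (insert z T) then (1 : ℝ) else 0)] at this

open Classical in
/-- boundary edges plus twice the boundary vertices dominate three times the smaller side -/
theorem kp2 (V : Finset ι) (A : Finset ι → Prop) (y : ℝ)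
    (h1 : y ≤ ∑ T ∈ V.powerset, if A T then (1 : ℝ) else 0)
    (h2 : y ≤ 2 ^ V.card - ∑ T ∈ V.powerset, if A T then (1 : ℝ) else 0) :
    (1 + 2) * y ≤ ∑ T ∈ V.powerset,
      if A T then (hh V A T : ℝ) + 2 * (if hh V A T = 0 then 0 else 1) else 0 := by
  have a := (bell V A).2
  have b1 : 0 ≤ ∑ T ∈ V.powerset, if A T then (1 : ℝ) else 0 :=
    sum_nonneg fun T _ => by split_ifs <;> norm_num
  have b0 : (∑ T ∈ V.powerset, if A T then (1 : ℝ) else 0) ≤ 2 ^ V.card := by
    rw [show (2 : ℝ) ^ V.card = (V.powerset.card : ℝ) by simp, card_eq_sum_ones, Nat.cast_sum]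
    exact sum_le_sum fun T _ => by split_ifs <;> norm_num
  generalize (∑ T ∈ V.powerset, if A T then (1 : ℝ) else 0) = x at a b1 b0 h1 h2
  have hM : (0 : ℝ) < 2 ^ V.card := by positivity
  generalize (2 : ℝ) ^ V.card = M at a b0 h2 hM
  have t := tent (y := 64 * x / M) (by positivity) (by rw [div_le_iff₀ hM]; linarith)
    (z := 64 * y / M) (by gcongr) (by
      rw [le_sub_iff_add_le, ← add_div, div_le_iff₀ hM]; linarith)
  have t2 := mul_le_mul_of_nonneg_left t hM.le
  rw [show M * (48 * (64 * y / M)) = 3072 * y by field_simp; ring] at t2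
  simp only [p2] at a
  linarith

end Pool.Agent.P.MP_a66f6f_co.KP2

namespace Pool.Agent.P.MP_a66f6f_co.Hv

theorem kp2 : KP 2 := fun V A y h1 h2 => KP2.kp2 V A y h1 h2

end Pool.Agent.P.MP_a66f6f_co.Hv
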