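import Pool.Agent.P.MP_a66f6f_co.Hv.Iface

/-! Step AG0. -/

namespace Pool.Agent.P.MP_a66f6f_co.Hv

open Finset Ped Pos

namespace AG0c

/-- the card of a subset as a sum of indicators -/
theorem card_eq (K T : Finset ℕ) (hT : T ⊆ K) (P : ℕ → Finset ℕ → Prop) (X : Finset ℕ)
    (h : ∀ c, P c X ↔ c ∈ T) : (T.card : ℝ) = ∑ c ∈ K, ind (P c) X := by
  have e : ∀ c ∈ K, ind (P c) X = if c ∈ T then (1 : ℝ) else 0 := by
    intro c _
    by_cases hc : c ∈ T
    · rw [if_pos hc, ind_pos ((h c).2 hc)]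
    · rw [if_neg hc, ind_neg (fun a => hc ((h c).1 a))]
  rw [sum_congr rfl e, sum_ite_mem, inter_eq_right.2 hT, sum_const, nsmul_eq_mul, mul_one]

end AG0c

theorem p_AG0 :
    S_AG0 := by
  intro C Ω n q r b S V i h hS hV hd hi
  constructor
  · have e : LL q C S V i = av V i (fun X => (q * (S.card + i) : ℝ) -
        ∑ c ∈ C Ω, ind (fun X => c ∈ C (S ∪ X)) X) := by
      refine av_congr fun X c1 c2 => ?_
      have hsub : C (S ∪ X) ⊆ C Ω := h.mono _ _ (union_subset hS (c1.trans hV))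
      rw [el, card_union_of_disjoint (hd.mono_right c1), c2,
        AG0c.card_eq (C Ω) _ hsub (fun c X => c ∈ C (S ∪ X)) X (fun _ => Iff.rfl)]
      push_cast
      rfl
    rw [e, av_sub, av_const hi, av_sum]
    rfl
  · have e : EZ q C S V i = av V i (fun X =>
        (∑ c ∈ C Ω, ind (Rob fun X => c ∈ C (S ∪ X)) X) - (q * S.card : ℝ)) := by
      refine av_congr fun X c1 _ => ?_
      have hsub : C (S ∪ X) ⊆ C Ω := h.mono _ _ (union_subset hS (c1.trans hV))
      rw [ZZ]
      push_cast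
      rw [AG0c.card_eq (C Ω) _ ((filter_subset _ _).trans hsub)
        (fun c => Rob fun X => c ∈ C (S ∪ X)) X (fun c => by rw [mem_filter]; rfl)]
    rw [e, av_sub, av_const hi, av_sum]
    rfl

end Pool.Agent.P.MP_a66f6f_co.Hv
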