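import Pool.Agent.P.MP_a66f6f_co.Hv.Iface

/-! Step AG2. -/

namespace Pool.Agent.P.MP_a66f6f_co.Hv

open Finset Ped Pos

theorem p_AG2 (hDN : S_DN) (hAG0 : S_AG0) :
    S_AG2 := by
  intro C Ω n q r b S V i h hS hV hd hi
  obtain ⟨a1, a2⟩ := hAG0 C Ω n q r b S V (i + 1) h hS hV hd hi
  have a3 := (hAG0 C Ω n q r b S V i h hS hV hd (by omega)).1
  have a4 := sum_le_sum (s := C Ω) fun c _ => hDN V (fun X => c ∈ C (S ∪ X)) i
    (fun X Y e => fun m => h.mono _ _ (union_subset_union_right e) m) hi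
  rw [sum_sub_distrib, ← mul_sum, sum_sub_distrib] at a4
  rw [a1, a2, a3]
  push_cast
  linarith

end Pool.Agent.P.MP_a66f6f_co.Hv
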