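import Pool.Agent.P.MP_a66f6f_co.Hv.Iface

/-! Step AG3. -/

namespace Pool.Agent.P.MP_a66f6f_co.Hv

open Finset Ped Pos

namespace AG3c

theorem pt {C : Finset ℕ → Finset ℕ} {Ω : Finset ℕ} {n q r b : ℕ} (h : Sy C Ω n q r b)
    (X : Finset ℕ) : (ZZ q C ∅ (Ω \ X) : ℝ) ≤
      ∑ c ∈ C Ω, ind (Dead Ω fun Y => c ∈ C (∅ ∪ Y)) X := by
  classical
  have a1 : ∑ c ∈ C Ω, ind (Dead Ω fun Y => c ∈ C (∅ ∪ Y)) X =
      (((C Ω).filter fun c => Dead Ω (fun Y => c ∈ C (∅ ∪ Y)) X).card : ℝ) := by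
    rw [card_filter]
    push_cast
    refine sum_congr rfl fun c _ => ?_
    by_cases d : Dead Ω (fun Y => c ∈ C (∅ ∪ Y)) X
    · rw [ind_pos d, if_pos d]
    · rw [ind_neg d, if_neg d]
  rw [a1, ZZ]
  push_cast
  rw [card_empty, Nat.cast_zero, mul_zero, sub_zero]
  refine Nat.cast_le.2 (card_le_card fun c hc => ?_)
  simp only [mem_filter, empty_union] at hc
  have a2 : c ∉ C X := disjoint_left.1 (h.disj _ _ sdiff_disjoint) hc.1
  simp only [mem_filter, Dead, empty_union]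
  refine ⟨h.mono _ _ sdiff_subset hc.1, a2, fun y hy => ?_⟩
  by_cases d : y ∈ X
  · rwa [insert_eq_of_mem d]
  · refine disjoint_left.1 (h.disj _ _ ?_) (hc.2 y (mem_sdiff.2 ⟨hy, d⟩))
    rw [disjoint_insert_right]
    exact ⟨notMem_erase _ _, sdiff_disjoint.mono_left (erase_subset _ _)⟩

end AG3c

theorem p_AG3 (hS0V : S_S0V) (hAG0 : S_AG0) :
    S_AG3 := by
  intro κ hκ hK C Ω n q r b i h h1 h2
  have e1 := (hAG0 C Ω n q r b ∅ Ω i h (empty_subset _) subset_rfl (disjoint_empty_left _)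
    (by omega)).1
  have e2 := (hAG0 C Ω n q r b ∅ Ω (i + 1) h (empty_subset _) subset_rfl (disjoint_empty_left _)
    (by omega)).1
  have a1 : av Ω i (fun X => (ZZ q C ∅ (Ω \ X) : ℝ)) ≤
      ∑ c ∈ C Ω, pr Ω i (Dead Ω fun Y => c ∈ C (∅ ∪ Y)) := by
    refine (av_le fun X _ _ => AG3c.pt h X).trans (le_of_eq ?_)
    rw [av_sum]
    rfl
  have a2 := sum_le_sum fun c (_ : c ∈ C Ω) => hS0V κ hκ hK Ω (fun Y => c ∈ C (∅ ∪ Y)) i
    (fun X Y e d => h.mono _ _ (union_subset_union_right e) d)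
    (fun X Y d1 d2 d => by
      rw [empty_union] at d1 d2
      exact disjoint_left.1 (h.disj _ _ d) d1 d2) h1 h2
  rw [← mul_sum, ← mul_sum, sum_add_distrib, sum_add_distrib, sum_sub_distrib, ← mul_sum,
    sum_sub_distrib, sum_sub_distrib, ← mul_sum, ← mul_sum, sum_const, nsmul_eq_mul,
    mul_one] at a2
  have a3 : (2 : ℝ) ≤ i := by exact_mod_cast h2
  have a4 : 0 ≤ κ * (i * (i - 1) : ℝ) := mul_nonneg hκ (mul_nonneg (by linarith) (by linarith))
  have a5 := mul_le_mul_of_nonneg_left a1 a4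
  rw [e1, e2, el]
  push_cast
  simp only [card_empty, Nat.cast_zero, zero_add]
  nlinarith [a2, a5]

end Pool.Agent.P.MP_a66f6f_co.Hv
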