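import Pool.Agent.P.MP_a66f6f_co.Hv.Iface

/-! Step AGA. -/

namespace Pool.Agent.P.MP_a66f6f_co.Hv

open Finset Ped Pos

namespace AGAc

end AGAc

theorem p_AGA (hKP1 : S_KP1) (hS1V : S_S1V) (hAG0 : S_AG0) :
    S_AGA := by
  intro C Ω n q r b S V i j h hS hV hd h1 h2 h3
  have a := sum_le_sum (s := C Ω) fun c _ =>
    (hS1V 1 zero_le_one hKP1 V (fun X => c ∈ C (S ∪ X)) (fun X => c ∈ C (∅ ∪ X)) i j
      (fun X Y e m => h.mono _ _ (union_subset_union_right e) m)
      (fun X Y e m => h.mono _ _ (union_subset_union_right e) m)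
      (fun X m => h.mono _ _ (union_subset_union_left (empty_subset S)) m)
      (fun X Y a _ m m' e => disjoint_left.1 (h.disj _ _ (by
        rw [empty_union]
        exact disjoint_union_right.2 ⟨(hd.mono_right a).symm, e⟩)) m m') h1 h2 h3).1
  rw [sum_sub_distrib, sum_add_distrib, ← mul_sum, sum_sub_distrib] at a
  rw [(hAG0 C Ω n q r b S V i h hS hV hd (by omega)).1,
    (hAG0 C Ω n q r b S V (i + 1) h hS hV hd (by omega)).1,
    (hAG0 C Ω n q r b S V j h hS hV hd (by omega)).1,
    (hAG0 C Ω n q r b ∅ V j h (empty_subset _) hV (disjoint_empty_left _) (by omega)).1]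
  simp only [card_empty]
  push_cast
  linarith

end Pool.Agent.P.MP_a66f6f_co.Hv
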