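import Pool.Agent.P.MP_a66f6f_co.Hv.Iface

/-! Step AGB. -/

namespace Pool.Agent.P.MP_a66f6f_co.Hv

open Finset Ped Pos

namespace AGBc

end AGBc

theorem p_AGB (hS1V : S_S1V) (hAG0 : S_AG0) :
    S_AGB := by
  intro κ hκ hK C Ω n q r b S V i h hS hV hd h1 h2
  have a0 := hAG0 C Ω n q r b S V i h hS hV hd (by omega)
  have a1 := (hAG0 C Ω n q r b S V (i + 1) h hS hV hd (by omega)).1
  have a2 := (hAG0 C Ω n q r b ∅ V i h (empty_subset _) hV (disjoint_empty_left _) (by omega)).1
  have a3 := sum_le_sum (s := C Ω) fun c _ =>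
    (hS1V κ hκ hK V (fun X => c ∈ C (S ∪ X)) (fun X => c ∈ C (∅ ∪ X)) i i
      (fun X Y e hX => h.mono _ _ (union_subset_union_right e) hX)
      (fun X Y e hX => h.mono _ _ (union_subset_union_right e) hX)
      (fun X hX => h.mono _ _ (union_subset_union_left (empty_subset _)) hX)
      (fun X Y e _ hX hY d => disjoint_left.1 (h.disj (∅ ∪ X) (S ∪ Y) (by
        rw [empty_union, disjoint_union_right]
        exact ⟨(hd.mono_right e).symm, d⟩)) hX hY) h1 le_rfl (by omega)).2
  simp only [add_sub_cancel_left, sum_add_distrib, ← mul_sum, sum_sub_distrib] at a3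
  rw [a0.2, a0.1, a1, a2]
  simp only [card_empty]
  push_cast
  linarith

end Pool.Agent.P.MP_a66f6f_co.Hv
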