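import Pool.Agent.P.MP_a66f6f_co.Hv.Iface

/-! Step APR. -/

namespace Pool.Agent.P.MP_a66f6f_co.Hv

open Finset Ped Pos

namespace APRc

end APRc

theorem p_APR (hINI : S_INI) (hLIP : S_LIP) :
    S_APR := by
  intro C Ω n q r b S V i H hS hV hd hn hs hi hv
  have hr : (r : ℝ) ≤ n := by
    have := H.hb
    exact_mod_cast (show r ≤ n by omega)
  have hn' : (1 : ℝ) ≤ n := by exact_mod_cast hn
  rcases le_or_gt (2 * n) i with c | c
  · rw [← av_const (V := V) (i := i) (by omega) (4 * n : ℝ)]
    refine av_le fun X c1 c2 => ?_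
    have a1 : (S ∪ X).card = S.card + i := by
      rw [card_union_of_disjoint (hd.mono_right c1), c2]
    have a2 : S.card + V.card ≤ Ω.card := by
      rw [← card_union_of_disjoint hd]
      exact card_le_card (union_subset hS hV)
    have a3 : (q * (S ∪ X).card : ℝ) ≤ (C (S ∪ X)).card + 2 * r := by
      exact_mod_cast H.small _ (union_subset hS (c1.trans hV))
        (fun e => by rw [e] at a1; omega) (by omega)
    rw [el]
    linarith
  · have a1 := hINI C Ω n q r b S V H.toSy hS hV hd hs (by omega)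
    have a2 := (hLIP C Ω n q r b S V n i H hS hV hd hn le_rfl hi (by omega)).1
    have a3 : (2 * S.card : ℝ) ≤ n := by exact_mod_cast hs
    have a4 : (i : ℝ) ≤ 2 * n := by exact_mod_cast c.le
    have a5 : (0 : ℝ) ≤ r := Nat.cast_nonneg _
    have a6 : LL q C S V i - LL q C S V n ≤ 2 * r :=
      le_of_mul_le_mul_left (a := (n : ℝ)) (by nlinarith) (by linarith)
    linarith

end Pool.Agent.P.MP_a66f6f_co.Hv
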