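import Pool.Agent.P.MP_a66f6f_co.Hv.Iface

/-! Step AVD. -/

namespace Pool.Agent.P.MP_a66f6f_co.Hv

open Finset Ped Pos

namespace AVDc

theorem key (V : Finset ℕ) (i : ℕ) (f : Finset ℕ → ℝ) :
    ∑ X ∈ V.powersetCard (i + 1), ∑ x ∈ X, f (X.erase x) =
      ∑ Y ∈ V.powersetCard i, ∑ _y ∈ V \ Y, f Y := by
  rw [sum_sigma', sum_sigma']
  refine sum_bij' (fun p _ => ⟨p.1.erase p.2, p.2⟩) (fun p _ => ⟨insert p.2 p.1, p.2⟩)
    ?_ ?_ ?_ ?_ ?_
  · rintro ⟨X, x⟩ h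
    simp only [mem_sigma, mem_powersetCard, mem_sdiff] at h ⊢
    refine ⟨⟨(erase_subset _ _).trans h.1.1, ?_⟩, h.1.1 h.2, notMem_erase _ _⟩
    rw [card_erase_of_mem h.2, h.1.2]; rfl
  · rintro ⟨Y, y⟩ h
    simp only [mem_sigma, mem_powersetCard, mem_sdiff] at h ⊢
    refine ⟨⟨insert_subset h.2.1 h.1.1, ?_⟩, mem_insert_self _ _⟩
    rw [card_insert_of_notMem h.2.2, h.1.2]
  · rintro ⟨X, x⟩ h
    simp only [mem_sigma] at h
    simp only [insert_erase h.2]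
  · rintro ⟨Y, y⟩ h
    simp only [mem_sigma, mem_sdiff] at h
    simp only [erase_insert h.2.2]
  · rintro ⟨X, x⟩ _
    rfl

end AVDc

theorem p_AVD :
    S_AVD := by
  intro V i f h
  have h1 : (V.card.choose (i + 1) : ℝ) ≠ 0 := Nat.cast_ne_zero.2 (Nat.choose_pos h).ne'
  have h0 : (V.card.choose i : ℝ) ≠ 0 := Nat.cast_ne_zero.2 (Nat.choose_pos (by omega)).ne'
  have hc : (V.card.choose (i + 1) : ℝ) * (i + 1) =
      V.card.choose i * ((V.card - i : ℕ) : ℝ) := by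
    exact_mod_cast Nat.choose_succ_right_eq V.card i
  have hs : ∑ Y ∈ V.powersetCard i, ∑ _y ∈ V \ Y, f Y =
      ((V.card - i : ℕ) : ℝ) * ∑ Y ∈ V.powersetCard i, f Y := by
    rw [mul_sum]
    refine sum_congr rfl fun Y hY => ?_
    rw [mem_powersetCard] at hY
    rw [sum_const, card_sdiff_of_subset hY.1, hY.2, nsmul_eq_mul]
  rw [av, av, AVDc.key, hs, ← mul_div_assoc, div_eq_div_iff h1 h0]
  linear_combination (-(∑ Y ∈ V.powersetCard i, f Y)) * hc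

end Pool.Agent.P.MP_a66f6f_co.Hv
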