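import Pool.Agent.P.MP_a66f6f_co.Hv.Iface

/-! Step AVM. -/

namespace Pool.Agent.P.MP_a66f6f_co.Hv

open Finset Ped Pos

namespace AVMc

end AVMc

theorem p_AVM (hAVD : S_AVD) :
    S_AVM := by
  intro V i j f hf hij
  induction j, hij using Nat.le_induction with
  | base => exact fun _ => le_rfl
  | succ j _ ih =>
    intro hj
    refine (ih (by omega)).trans ?_
    have a1 := hAVD V j f hj
    have a2 : av V (j + 1) (fun X => ∑ x ∈ X, f (X.erase x)) ≤
        av V (j + 1) fun X => ((j : ℝ) + 1) * f X := av_le fun X _ c => by
      have := sum_le_card_nsmul X (fun x => f (X.erase x)) (f X) fun x _ =>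
        hf (erase_subset x X)
      rw [c, nsmul_eq_mul] at this
      push_cast at this
      exact this
    rw [a1, av_mul] at a2
    exact le_of_mul_le_mul_left a2 (by positivity)

end Pool.Agent.P.MP_a66f6f_co.Hv
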