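import Pool.Agent.P.MP_a66f6f_co.Hv.Iface

/-! Step BEST. -/

namespace Pool.Agent.P.MP_a66f6f_co.Hv

open Finset Ped Pos

namespace BESTc

end BESTc

theorem p_BEST :
    S_BEST := by
  intro T u k hk
  induction hk using Nat.decreasingInduction with
  | self => exact ⟨T, subset_rfl, rfl, le_rfl⟩
  | of_succ k _ ih =>
    obtain ⟨B, h1, h2, h3⟩ := ih
    obtain ⟨x, hx, hm⟩ := exists_min_image B u (card_pos.1 (by omega))
    have h4 := card_erase_add_one hx
    have h5 := sum_erase_add B u hx
    have h6 := card_nsmul_le_sum B u (u x) hm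
    rw [nsmul_eq_mul, h2] at h6
    refine ⟨B.erase x, (erase_subset _ _).trans h1, by omega,
      le_of_mul_le_mul_left (a := (k : ℝ) + 1) ?_ (by positivity)⟩
    push_cast at h3 h6
    have h7 := mul_le_mul_of_nonneg_left h3 (Nat.cast_nonneg (α := ℝ) k)
    have h8 := mul_le_mul_of_nonneg_left h6 (Nat.cast_nonneg (α := ℝ) T.card)
    rw [← h5] at h7 h8
    linarith

end Pool.Agent.P.MP_a66f6f_co.Hv
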