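import Pool.Agent.P.MP_a66f6f_co.Hv.Iface

/-! Step BIN. -/

namespace Pool.Agent.P.MP_a66f6f_co.Hv

open Finset Ped Pos

namespace BINc

end BINc

theorem p_BIN (hVAR : S_VAR) (hMIX : S_MIX) (hAVM : S_AVM) :
    S_BIN := by
  intro V P p t a hP h0 h1 ht ha
  have hw : ∀ i, 0 ≤ (V.card.choose i : ℝ) * (p ^ i * (1 - p) ^ (V.card - i)) := fun i =>
    mul_nonneg (Nat.cast_nonneg _) (mul_nonneg (pow_nonneg h0 _) (pow_nonneg (by linarith) _))
  have hs : ∑ i ∈ range (V.card + 1), (V.card.choose i : ℝ) * (p ^ i * (1 - p) ^ (V.card - i))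
      = 1 := by
    have := add_pow p (1 - p) V.card
    rw [add_sub_cancel, one_pow] at this
    exact (sum_congr rfl fun i _ => mul_comm _ _).trans this.symm
  have hv : ∑ i ∈ range (V.card + 1), (V.card.choose i : ℝ) * (p ^ i * (1 - p) ^ (V.card - i)) *
      ((i - p * V.card) ^ 2 / t ^ 2) ≤ V.card / t ^ 2 := by
    simp only [← mul_div_assoc]
    rw [← sum_div, hVAR]
    refine div_le_div_of_nonneg_right ?_ (by positivity)
    exact mul_le_of_le_one_right (Nat.cast_nonneg _) (by nlinarith)
  have hq : ∀ x : ℝ, t ≤ |x| → 1 ≤ x ^ 2 / t ^ 2 := fun x hx => by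
    rw [le_div_iff₀ (by positivity), one_mul, ← sq_abs x]
    exact pow_le_pow_left₀ ht.le hx 2
  have hq0 : ∀ x : ℝ, 0 ≤ x ^ 2 / t ^ 2 := fun x => by positivity
  have ea : pr V a P = ∑ i ∈ range (V.card + 1),
      (V.card.choose i : ℝ) * (p ^ i * (1 - p) ^ (V.card - i)) * pr V a P := by
    rw [← sum_mul, hs, one_mul]
  constructor
  · intro h
    rw [ea, hMIX]
    refine le_trans ?_ (add_le_add le_rfl hv)
    rw [← sum_add_distrib]
    refine sum_le_sum fun i hi => ?_
    rw [← mul_add]
    refine mul_le_mul_of_nonneg_left ?_ (hw i)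
    rcases le_or_gt a i with c | c
    · exact (hAVM V a i _ (ind_mono hP) c (Nat.lt_succ_iff.1 (mem_range.1 hi))).trans
        (le_add_of_nonneg_right (hq0 _))
    · have c' : (i : ℝ) < a := by exact_mod_cast c
      have := hq (i - p * V.card) (le_abs.2 (Or.inr (by linarith)))
      have := pr_le_one ha P
      have := pr_nonneg V i P
      linarith
  · intro h
    rw [ea, hMIX]
    refine le_trans ?_ (add_le_add le_rfl hv)
    rw [← sum_add_distrib]
    refine sum_le_sum fun i hi => ?_
    rw [← mul_add]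
    refine mul_le_mul_of_nonneg_left ?_ (hw i)
    rcases le_or_gt i a with c | c
    · exact (hAVM V i a _ (ind_mono hP) c ha).trans (le_add_of_nonneg_right (hq0 _))
    · have c' : (a : ℝ) < i := by exact_mod_cast c
      have := hq (i - p * V.card) (le_abs.2 (Or.inl (by linarith)))
      have := pr_le_one (Nat.lt_succ_iff.1 (mem_range.1 hi)) P
      have := pr_nonneg V a P
      linarith

end Pool.Agent.P.MP_a66f6f_co.Hv
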