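import Pool.Agent.P.MP_a66f6f_co.Hv.Iface

/-! Step C1N. -/

namespace Pool.Agent.P.MP_a66f6f_co.Hv

open Finset Ped Pos

namespace C1Nc

theorem core (κ γ ε η n r b : ℝ) (h1 : 1 ≤ κ) (h2 : κ ≤ 2) (hε : 0 ≤ ε) (hη : 0 ≤ η)
    (hr : 0 ≤ r) (hb : 0 ≤ b) (hbr : b + r = n) (hγ : r + γ * n ≤ κ * b) (hn : 0 < n)
    (he : η + 4 * ε ≤ γ / 4) :
    ((1 + κ) * (1 + γ / 20) + κ) * (r + ε * n) - κ * (2 * r + (b - η * n)) ≤
      -(7 / 20 * (γ * n)) ∧ γ ≤ 2 := by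
  have hγ0 : 0 ≤ γ := by linarith
  have hkb : κ * b ≤ 2 * n := by nlinarith
  have hγ2 : γ ≤ 2 := by
    by_contra h
    have h' : 2 < γ := not_le.mp h
    nlinarith
  refine ⟨?_, hγ2⟩
  have hrn : r ≤ n := by linarith
  have a1 : γ * r ≤ γ * n := mul_le_mul_of_nonneg_left hrn hγ0
  have a0 : 0 ≤ γ * r := mul_nonneg hγ0 hr
  have a2 : κ * (γ * r) ≤ 2 * (γ * r) := mul_le_mul_of_nonneg_right h2 a0
  have e0 : 0 ≤ ε * n := mul_nonneg hε hn.le
  have t0 : 0 ≤ η * n := mul_nonneg hη hn.le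
  have a3 : κ * (ε * n) ≤ 2 * (ε * n) := mul_le_mul_of_nonneg_right h2 e0
  have a4 : γ * (ε * n) ≤ 2 * (ε * n) := mul_le_mul_of_nonneg_right hγ2 e0
  have a5 : κ * (γ * (ε * n)) ≤ 2 * (γ * (ε * n)) :=
    mul_le_mul_of_nonneg_right h2 (mul_nonneg hγ0 e0)
  have a6 : κ * (η * n) ≤ 2 * (η * n) := mul_le_mul_of_nonneg_right h2 t0
  have a7 : (η + 4 * ε) * n ≤ γ / 4 * n := mul_le_mul_of_nonneg_right he hn.le
  nlinarith

end C1Nc

theorem p_C1N :
    S_C1N := by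
  intro κ γ ε η m i n r b E τ L s h1 h2 hε hη hi hm hr hb hbr hγ hn he hQ hE hτ hL H
  obtain ⟨hc, hγ2⟩ := C1Nc.core κ γ ε η n r b h1 h2 hε hη hr hb hbr hγ hn he
  have hγ0 : 0 ≤ γ := by linarith
  obtain ⟨j, rfl⟩ : ∃ j, m = j + i := ⟨m - i, by ring⟩
  simp only [add_sub_cancel_right] at hQ H
  have hj : i ≤ j := by linarith
  set P := i * (i - 1) with hP
  set Q := j * (j - 1) with hQd
  have hP0 : 0 < P := mul_pos (by linarith) (by linarith)
  have hQ0 : 0 < Q := mul_pos (by linarith) (by linarith)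
  have hk0 : 0 ≤ κ := by linarith
  have hL0 : 0 ≤ r + ε * n := add_nonneg hr (mul_nonneg hε hn.le)
  have hgn : 0 ≤ γ * n := mul_nonneg hγ0 hn.le
  set c := (1 + κ) * Q * i - κ * P * j with hcd
  have hc0 : 0 < c := by
    have e : c = i * j * ((j - 1) + κ * (j - i)) := by rw [hcd, hP, hQd]; ring
    rw [e]
    refine mul_pos (mul_pos (by linarith) (by linarith)) ?_
    have := mul_nonneg hk0 (sub_nonneg.mpr hj)
    linarith
  have hcu : c ≤ 33 / 10 * P * i := by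
    have b1 : 0 ≤ κ * P * j := mul_nonneg (mul_nonneg hk0 hP0.le) (by linarith)
    have b2 : Q ≤ 11 / 10 * P := by nlinarith
    have b3 : (1 + κ) * Q ≤ 3 * Q := mul_le_mul_of_nonneg_right (by linarith) hQ0.le
    have b4 : (1 + κ) * Q * i ≤ 33 / 10 * P * i :=
      mul_le_mul_of_nonneg_right (by linarith) (by linarith)
    linarith
  have hA0 : 0 ≤ (1 + κ) * Q + κ * P :=
    add_nonneg (mul_nonneg (by linarith) hQ0.le) (mul_nonneg hk0 hP0.le)
  have s1 : c * s ≤ ((1 + κ) * Q + κ * P) * L - κ * P * (τ + E) := by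
    rw [hcd]; linarith
  have s2 : ((1 + κ) * Q + κ * P) * L ≤ ((1 + κ) * Q + κ * P) * (r + ε * n) :=
    mul_le_mul_of_nonneg_left hL hA0
  have s3 : (1 + κ) * Q ≤ (1 + κ) * ((1 + γ / 20) * P) :=
    mul_le_mul_of_nonneg_left hQ (by linarith)
  have s4 : ((1 + κ) * Q + κ * P) * (r + ε * n) ≤
      ((1 + κ) * ((1 + γ / 20) * P) + κ * P) * (r + ε * n) :=
    mul_le_mul_of_nonneg_right (by linarith) hL0
  have s5 : κ * P * (2 * r + (b - η * n)) ≤ κ * P * (τ + E) :=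
    mul_le_mul_of_nonneg_left (by linarith) (mul_nonneg hk0 hP0.le)
  have s6 := mul_le_mul_of_nonneg_left hc hP0.le
  have s7 : c * s ≤ P * -(7 / 20 * (γ * n)) := by linarith
  have hs : s ≤ 0 := by
    by_contra h
    have h' : 0 < s := not_le.mp h
    have := mul_pos hc0 h'
    have := mul_nonneg hP0.le hgn
    linarith
  have s8 : 33 / 10 * P * i * s ≤ c * s := mul_le_mul_of_nonpos_right hcu hs
  have s9 : P * (33 / 10 * (i * s)) ≤ P * -(7 / 20 * (γ * n)) := by linarith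
  have s10 := le_of_mul_le_mul_left s9 hP0
  linarith

end Pool.Agent.P.MP_a66f6f_co.Hv
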