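import Pool.Agent.P.MP_a66f6f_co.Hv.Iface

/-! Step CASE1. -/

namespace Pool.Agent.P.MP_a66f6f_co.Hv

open Finset Ped Pos

namespace CASE1c

theorem ZZ_nonneg (q : ℕ) (C : Finset ℕ → Finset ℕ) (X : Finset ℕ) : 0 ≤ ZZ q C ∅ X := by
  simp [ZZ]

theorem num {γ m a i : ℝ} (hγ : 0 ≤ γ) (ha : 2 ≤ a) (hi : a ≤ i) (hm : 2 * i ≤ m)
    (h : (m - a) ^ 2 ≤ (1 + γ / 20) * (a - 1) ^ 2) :
    (m - i) * (m - i - 1) ≤ (1 + γ / 20) * (i * (i - 1)) := by
  have h1 : (m - i) * (m - i - 1) ≤ (m - a) ^ 2 := by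
    rw [sq]
    exact mul_le_mul (by linarith) (by linarith) (by linarith) (by linarith)
  have h2 : (a - 1) ^ 2 ≤ i * (i - 1) := by
    rw [sq]
    exact mul_le_mul (by linarith) (by linarith) (by linarith) (by linarith)
  exact h1.trans (h.trans (mul_le_mul_of_nonneg_left h2 (by linarith)))

end CASE1c

theorem p_CASE1 (hAG3 : S_AG3) (hC1N : S_C1N) (hAVM : S_AVM) (hWZ : S_WZ) :
    S_CASE1 := by
  intro κ k1 k2 hK C Ω n q r b a D γ ε η h hn ha hm hε hη hγ hκ hsq hpr hL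
  have hγ0 : 0 ≤ γ := by linarith
  have hn' : (0 : ℝ) < n := by exact_mod_cast hn
  have hb : (b : ℝ) + r = n := by exact_mod_cast h.hb
  have hm' : 2 * ((a : ℝ) + D) ≤ Ω.card := by exact_mod_cast hm
  have ha' : (2 : ℝ) ≤ a := by exact_mod_cast ha
  have hr0 : (0 : ℝ) ≤ r := Nat.cast_nonneg _
  have hup : Up fun X => ZZ q C ∅ (Ω \ X) < b := fun X Y e hX =>
    (ZZ_mono h.mono q ∅ (sdiff_subset_sdiff subset_rfl e)).trans_lt hX
  have hel : 2 * (r : ℝ) ≤ el q C Ω := by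
    have : ((C Ω).card : ℝ) + 2 * r < q * Ω.card := by exact_mod_cast h.bad
    rw [el]
    linarith
  have key := desc (LL q C ∅ Ω) a D (γ * n / 32) (Ω.card / 2) (by omega) (by positivity)
    (by linarith) fun i h1 h2 => by
      have i1 : (a : ℝ) ≤ i := by exact_mod_cast h1
      have i2 : (i : ℝ) ≤ a + D := by exact_mod_cast h2.le
      have p1 : pr Ω i (fun X => ZZ q C ∅ (Ω \ X) < b) ≤ η :=
        (hAVM Ω i (a + D) _ (ind_mono hup) h2.le (by omega)).trans hpr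
      have p2 := hWZ Ω i (fun X => (ZZ q C ∅ (Ω \ X) : ℝ)) (fun X => ¬ ZZ q C ∅ (Ω \ X) < b)
        b 0 n 0 η (by omega) le_rfl hn'.le (by linarith) hη
        (fun X _ _ hX => by exact_mod_cast not_lt.1 hX)
        (by rw [pr_not (by omega)]; linarith)
        (by
          refine (av_le fun X _ _ => max_le ?_ le_rfl).trans_eq (av_const (by omega) 0)
          have : (0 : ℝ) ≤ ZZ q C ∅ (Ω \ X) := by exact_mod_cast CASE1c.ZZ_nonneg q C _
          linarith)
      exact hC1N κ γ ε η Ω.card i n r b _ _ _ _ k1 k2 hε hη (by linarith) (by linarith) hr0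
        (Nat.cast_nonneg _) hb hκ hn' hγ (CASE1c.num hγ0 ha' i1 (by linarith) hsq)
        (by simpa using p2) hel (hL i h1 h2)
        (hAG3 κ (by linarith) hK C Ω n q r b i h.toSy (by omega) (by omega))
  convert key using 2
  ring

end Pool.Agent.P.MP_a66f6f_co.Hv
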