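import Pool.Agent.P.MP_a66f6f_co.Hv.Iface

/-! Step CASE2. -/

namespace Pool.Agent.P.MP_a66f6f_co.Hv

open Finset Ped Pos

theorem p_CASE2 (hTZ : S_TZ) (hPT3 : S_PT3) (hWZ : S_WZ) (hDEC : S_DEC) :
    S_CASE2 := by
  intro κ k1 k2 hK γ y hγ hy
  obtain ⟨M, hM, v₀, hT⟩ := hTZ y (γ / 56) hy (by positivity)
  refine ⟨γ / (56 * (1 + M)), by positivity, v₀, ?_⟩
  intro C Ω n q r b U w d hC hU hn hv hw h3 hd h2 hc hr hL hp
  have hD : Disjoint U (Ω \ U) := disjoint_sdiff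
  have hb : (b : ℝ) + r = n := by exact_mod_cast hC.hb
  have n1 : (1 : ℝ) ≤ n := by exact_mod_cast hn
  have r0 : (0 : ℝ) ≤ r := Nat.cast_nonneg _
  have b0 : (0 : ℝ) ≤ b := Nat.cast_nonneg _
  have u0 : (0 : ℝ) ≤ U.card := Nat.cast_nonneg _
  have g1 : γ * n ≤ 2 * n := by nlinarith
  have g0 : 0 < γ * n := by positivity
  have hUn : U.card ≤ n := by
    have : (U.card : ℝ) ≤ n := by linarith
    exact_mod_cast this
  have t1 := (hT C Ω n q r b U (Ω \ U) w d hC hU sdiff_subset hD hn hv hw h3 hd h2 fun i a c =>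
    ⟨by have := (hL i a c).2.1; linarith, (hL i a c).2.2⟩).2
  have t2 := hWZ (Ω \ U) (w + 2 * d) (fun X => (ZZ q C U X : ℝ)) _ (b - U.card) (M * n) n
    (γ / 56 * n) _ (by omega) (by positivity) (by positivity) (by linarith) (by positivity)
    (fun X c1 c2 c3 => hPT3 C Ω n q r b U X hC hU (c1.trans sdiff_subset) (hD.mono_right c1) hUn
      (by omega) (by rw [← sup_eq_union, ← sdiff_sdiff_left, card_sdiff_of_subset c1]; omega) c3) hp t1
  have e1 : γ / (56 * (1 + M)) * (n + M * n) = γ / 56 * n := by field_simp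
  have t3 := hDEC κ k1 k2 hK C Ω n q r b U (Ω \ U) (w + 2 * d) d γ (γ / 14) hC.toSy hU
    sdiff_subset hD (by omega) (by omega) (by positivity) (by linarith) hr
    (by rw [EZ]; rw [e1] at t2; linarith)
    fun i a c => ⟨(hL i (by omega) (by omega)).1, (hL i (by omega) (by omega)).2.1⟩
  have v1 : (0 : ℝ) < (Ω \ U).card := by exact_mod_cast (show 0 < (Ω \ U).card by omega)
  have t4 : y * γ * n ≤ d * (γ * n) / (Ω \ U).card := by
    rw [le_div_iff₀ v1]
    nlinarith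
  rw [show w + 2 * d + d = w + 3 * d by ring] at t3
  linarith

end Pool.Agent.P.MP_a66f6f_co.Hv
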