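import Pool.Agent.P.MP_a66f6f_co.Hv.Iface

/-! Step CH. -/

namespace Pool.Agent.P.MP_a66f6f_co.Hv

open Finset Ped Pos

namespace CHc

end CHc

theorem p_CH :
    S_CH := by
  intro v j t hj ht
  induction t with
  | zero => simp
  | succ t ih =>
    refine (ih (by omega)).trans ?_
    rw [pow_succ, mul_assoc]
    refine Nat.mul_le_mul_left _ ?_
    have h1 := Nat.choose_mul_succ_eq (v - (t + 1)) j
    rw [show v - (t + 1) + 1 = v - t by omega] at h1
    refine Nat.le_of_mul_le_mul_right (c := v - t) ?_ (by omega)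
    calc (v - t).choose j * (v - t) ≤ (v - t).choose j * (4 * (v - t - j)) :=
          Nat.mul_le_mul_left _ (by omega)
      _ = 4 * (v - (t + 1)).choose j * (v - t) := by rw [mul_assoc, h1]; ring

end Pool.Agent.P.MP_a66f6f_co.Hv
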