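import Pool.Agent.P.MP_a66f6f_co.Hv.Iface

/-! Step CHAIN. -/

namespace Pool.Agent.P.MP_a66f6f_co.Hv

open Finset Ped Pos

namespace CHAINc

end CHAINc

theorem p_CHAIN (hPIN : S_PIN) :
    S_CHAIN := by
  intro f S V i K U lam η hK hl hη h1 h2 T
  induction T using Finset.induction_on with
  | empty => intro _ _; simp only [card_empty, pow_zero, sdiff_empty]; linarith
  | insert x T hx ih =>
    intro hT hc
    rw [card_insert_of_notMem hx] at hc ⊢
    have hTV : T ⊆ V := (subset_insert _ _).trans hT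
    have hxW : x ∈ V \ T := mem_sdiff.2 ⟨hT (mem_insert_self _ _), hx⟩
    have a1 := ih hTV (by omega)
    have a2 := h1 T hTV (by omega) x hxW
    have hw : 2 * (i + 1) + 1 ≤ (V \ T).card := by rw [card_sdiff_of_subset hTV]; omega
    have a3 := hPIN (V \ T) x i (fun X => f (S ∪ X)) hxW (by omega)
    simp only [union_insert, ← insert_union] at a3
    rw [sdiff_insert, pow_succ]
    have a4 : (2 * (i + 1) + 1 : ℝ) ≤ (V \ T).card := by exact_mod_cast hw
    have a5 : (0 : ℝ) ≤ 2 ^ T.card * (η + lam) := by positivity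
    have a6 : (0 : ℝ) ≤ i := Nat.cast_nonneg _
    refine le_of_mul_le_mul_left ?_ (show (0 : ℝ) < (V \ T).card - (i + 1) by linarith)
    nlinarith [mul_le_mul_of_nonneg_left a1 (show (0 : ℝ) ≤ (V \ T).card by linarith),
      mul_le_mul_of_nonneg_left a2 (show (0 : ℝ) ≤ i + 1 by linarith),
      mul_le_mul_of_nonneg_right a4 a5]

end Pool.Agent.P.MP_a66f6f_co.Hv
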