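import Pool.Agent.P.MP_a66f6f_co.Hv.Iface

/-! Step CPL. -/

namespace Pool.Agent.P.MP_a66f6f_co.Hv

open Finset Ped Pos

theorem p_CPL :
    S_CPL := by
  intro V i f hi
  unfold av
  rw [Nat.choose_symm hi]
  congr 1
  refine sum_bij' (fun X _ => V \ X) (fun X _ => V \ X) ?_ ?_ ?_ ?_ ?_
  · intro X hX
    obtain ⟨h1, h2⟩ := mem_powersetCard.1 hX
    exact mem_powersetCard.2 ⟨sdiff_subset, by rw [card_sdiff_of_subset h1, h2]⟩
  · intro X hX
    obtain ⟨h1, h2⟩ := mem_powersetCard.1 hX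
    refine mem_powersetCard.2 ⟨sdiff_subset, ?_⟩
    rw [card_sdiff_of_subset h1, h2]
    omega
  · intro X hX
    exact Finset.sdiff_sdiff_eq_self (mem_powersetCard.1 hX).1
  · intro X hX
    exact Finset.sdiff_sdiff_eq_self (mem_powersetCard.1 hX).1
  · intro X hX
    rw [Finset.sdiff_sdiff_eq_self (mem_powersetCard.1 hX).1]

end Pool.Agent.P.MP_a66f6f_co.Hv
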