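import Pool.Agent.P.MP_a66f6f_co.Hv.Iface

/-! Step DEC. -/

namespace Pool.Agent.P.MP_a66f6f_co.Hv

open Finset Ped Pos

namespace DECc

end DECc

theorem p_DEC (hAGB : S_AGB) (hAVM : S_AVM) :
    S_DEC := by
  intro κ k1 k2 hK C Ω n q r b S V a d γ ε hS h1 h2 h3 ha hv he hγ hr hb h
  have hn : (0 : ℝ) ≤ n := Nat.cast_nonneg _
  have hv' : (2 : ℝ) * (a + d) ≤ V.card := by exact_mod_cast hv
  have en : 0 ≤ ε * n := mul_nonneg he hn
  have gn : 14 * (ε * n) ≤ γ * n := by nlinarith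
  have := desc (LL q C S V) a d (γ * n / 2) (V.card / 2) ha (by linarith) (by linarith)
    fun i c1 c2 => by
      have a1 : EZ q C S V a ≤ EZ q C S V i :=
        hAVM V a i _ (fun X Y e => Int.cast_le.2 (ZZ_mono hS.mono q S e)) c1 (by omega)
      have a2 := hAGB κ (by linarith) hK C Ω n q r b S V i hS h1 h2 h3 (by omega) (by omega)
      obtain ⟨a3, a4⟩ := h i c1 c2
      have a5 := mul_le_mul_of_nonneg_left (hb.trans a1) (show 0 ≤ κ by linarith)
      have a6 := mul_le_mul_of_nonneg_left a3 (show 0 ≤ 1 + κ by linarith)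
      have a7 := mul_le_mul_of_nonneg_left a4 (show 0 ≤ κ by linarith)
      have a8 := mul_le_mul_of_nonneg_right k2 en
      linarith
  rwa [show (d : ℝ) * (γ * n / 2) / (V.card / 2) = d * (γ * n) / V.card by
    rw [← mul_div_assoc, div_div_div_cancel_right₀ two_ne_zero]] at this

end Pool.Agent.P.MP_a66f6f_co.Hv
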