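import Pool.Agent.P.MP_a66f6f_co.Hv.Iface

/-! Step DER. -/

namespace Pool.Agent.P.MP_a66f6f_co.Hv

open Finset Ped Pos

namespace DERc

theorem c1 (p : ℝ) (x y : ℕ) (f : Finset ℕ → ℝ) : ee p y (dd x f) = dd x (ee p y f) := by
  funext X
  simp only [ee, dd]
  rw [Finset.insert_comm x y]
  ring

theorem c2 (x y : ℕ) (f : Finset ℕ → ℝ) : dd y (dd x f) = dd x (dd y f) := by
  funext X
  simp only [dd]
  rw [Finset.insert_comm x y]
  ring

end DERc

open DERc in
theorem p_DER :
    S_DER := by
  intro p t l
  induction l with
  | nil =>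
    intro f _
    rw [PP, Polynomial.derivative_C]
    simp
  | cons y l ih =>
    intro f hl
    rw [List.nodup_cons] at hl
    have hy : y ∉ l.toFinset := fun h => hl.1 (List.mem_toFinset.1 h)
    have e : ∑ x ∈ l.toFinset, (PP p ((y :: l).erase x) (dd x f)).eval t =
        ∑ x ∈ l.toFinset, ((PP p (l.erase x) (dd x (ee p y f))).eval t +
          p * (1 - p) * t * (PP p (l.erase x) (dd x (dd y f))).eval t) := by
      refine sum_congr rfl fun x hx => ?_
      have hxy : ¬ (y == x) = true := by
        rw [beq_iff_eq]
        rintro rfl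
        exact hy hx
      rw [List.erase_cons_tail hxy, PP, c1, c2]
      simp only [Polynomial.eval_add, Polynomial.eval_mul, Polynomial.eval_C, Polynomial.eval_X]
    rw [List.toFinset_cons, sum_insert hy, List.erase_cons_head, e, sum_add_distrib, ← mul_sum, PP,
      Polynomial.derivative_add, Polynomial.derivative_mul, Polynomial.derivative_mul,
      Polynomial.derivative_C, Polynomial.derivative_X]
    simp only [Polynomial.eval_add, Polynomial.eval_mul, Polynomial.eval_C, Polynomial.eval_X,
      Polynomial.eval_zero, Polynomial.eval_one, ih _ hl.2]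
    ring

end Pool.Agent.P.MP_a66f6f_co.Hv
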