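import Pool.Agent.P.MP_a66f6f_co.Hv.Iface

/-! Step DN. -/

namespace Pool.Agent.P.MP_a66f6f_co.Hv

open Finset Ped Pos

namespace DNc

end DNc

theorem p_DN (hAVD : S_AVD) :
    S_DN := by
  intro V g i hg hi
  have h := hAVD V i (ind g) hi
  have key : av V (i + 1) (fun X => ind g X - ind (Rob g) X) ≤
      av V (i + 1) fun X => (i + 1 : ℝ) * ind g X - ∑ x ∈ X, ind g (X.erase x) := by
    refine av_le fun X _ hX => ?_
    have e : (i + 1 : ℝ) * ind g X - ∑ x ∈ X, ind g (X.erase x) =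
        ∑ x ∈ X, (ind g X - ind g (X.erase x)) := by
      rw [sum_sub_distrib, sum_const, hX, nsmul_eq_mul]
      push_cast
      rfl
    have nn : ∀ x ∈ X, 0 ≤ ind g X - ind g (X.erase x) := fun x _ =>
      sub_nonneg.2 (ind_le (hg _ _ (erase_subset x X)))
    rw [e]
    by_cases c : g X → Rob g X
    · exact (sub_nonpos.2 (ind_le c)).trans (sum_nonneg nn)
    · obtain ⟨c1, c2⟩ := Classical.not_imp.1 c
      obtain ⟨x, hx, c3⟩ : ∃ x ∈ X, ¬ g (X.erase x) := by
        by_contra k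
        exact c2 ⟨c1, fun x hx => by_contra fun d => k ⟨x, hx, d⟩⟩
      refine le_trans ?_ (single_le_sum nn hx)
      rw [ind_neg c2, ind_neg c3]
  rw [av_sub, av_sub, av_mul, h] at key
  unfold pr
  linarith

end Pool.Agent.P.MP_a66f6f_co.Hv
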