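import Pool.Agent.P.MP_a66f6f_co.Hv.Iface

/-! Step EXCS. -/

namespace Pool.Agent.P.MP_a66f6f_co.Hv

open Finset Ped Pos

namespace EXCSc

end EXCSc

theorem p_EXCS :
    S_EXCS := by
  intro p l f g h0 h1
  have key : ∀ t : ℝ, 0 ≤ ex p l (fun X => f X ^ 2) * (t * t) +
      2 * ex p l (fun X => f X * g X) * t + ex p l fun X => g X ^ 2 := fun t => by
    have a1 : ex p l (fun _ => (0 : ℝ)) ≤
        ex p l fun X => (t * t * f X ^ 2 + 2 * t * (f X * g X)) + g X ^ 2 :=
      ex_le h0 h1 l fun X _ => by nlinarith [sq_nonneg (t * f X + g X)]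
    rw [ex_const, ex_add, ex_add, ex_mul, ex_mul] at a1
    linarith
  have h := discrim_le_zero key
  rw [discrim] at h
  nlinarith

end Pool.Agent.P.MP_a66f6f_co.Hv
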