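import Pool.Agent.P.MP_a66f6f_co.Hv.Iface

/-! Step EXM. -/

namespace Pool.Agent.P.MP_a66f6f_co.Hv

open Finset Ped Pos

theorem p_EXM :
    S_EXM := by
  intro p l P hl
  induction l generalizing P with
  | nil => simp [ex, mu, ind]
  | cons x l ih =>
    rw [List.nodup_cons] at hl
    have e : ee p x (ind P) =
        fun X => p * ind (fun Y => P (insert x Y)) X + (1 - p) * ind P X := rfl
    rw [ex, e, ex_add, ex_mul, ex_mul, ih _ hl.2, ih _ hl.2, List.toFinset_cons,
      mu_insert p (by simpa using hl.1), add_comm]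

end Pool.Agent.P.MP_a66f6f_co.Hv
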