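import Pool.Agent.P.MP_a66f6f_co.Hv.Iface

/-! Step FIN. -/

namespace Pool.Agent.P.MP_a66f6f_co.Hv

open Finset Ped Pos

namespace FINc

/-- The formula holds for all residues within distance `r` of `n`. -/
def F (n r : ℕ) : Prop := ∀ b : ℕ, b ≤ n → n - b ≤ r → ∀ m a : ℕ, 2 * n ≤ m →
  IsLeast {N : ℕ | Nonempty (kneser m n →g kneser N (a * n + b))} ((a + 1) * m - 2 * (n - b))

open Classical in
/-- The largest good distance. -/
noncomputable def R (n : ℕ) : ℕ := Nat.findGreatest (F n) n

theorem F_R (n : ℕ) (h : R n ≠ 0) : F n (R n) := by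
  classical
  unfold R at h ⊢
  exact Nat.findGreatest_of_ne_zero rfl h

theorem le_R (n r : ℕ) (hr : r ≤ n) (h : F n r) : r ≤ R n := by
  classical
  unfold R
  exact Nat.le_findGreatest hr h

end FINc

open FINc in
theorem p_FIN (hMAIN : S_MAIN) :
    S_FIN := by
  intro κ h1 h2 hKP
  have hκ : (0 : ℝ) < 1 + κ := by linarith
  have hL : (1 : ℝ) / 2 ≤ κ / (1 + κ) := by
    rw [div_le_div_iff₀ (by norm_num) hκ]; linarith
  have hL1 : κ / (1 + κ) ≤ 1 := by
    rw [div_le_one hκ]; linarith
  refine ⟨fun n => max (1 / 16) (min (κ / (1 + κ)) ((R n : ℝ) / n)), fun n => le_max_left _ _,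
    ?_, ?_⟩
  · rw [tendsto_order]
    constructor
    · intro y hy
      -- choose x with max y 0 < x < L
      obtain ⟨x, hx1, hx2⟩ : ∃ x : ℝ, max y 0 < x ∧ x < κ / (1 + κ) :=
        exists_between (max_lt hy (by linarith))
      have hxy : y < x := lt_of_le_of_lt (le_max_left _ _) hx1
      have hx0 : 0 < x := lt_of_le_of_lt (le_max_right _ _) hx1
      have hγ : 0 < κ - (1 + κ) * x := by
        rw [lt_div_iff₀ hκ] at hx2; linarith
      obtain ⟨n₀, hn₀⟩ := hMAIN κ h1 h2 hKP _ hγ
      obtain ⟨n₁, hn₁⟩ := exists_nat_gt (1 / (x - y))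
      have hxy' : 0 < x - y := by linarith
      filter_upwards [Filter.eventually_ge_atTop n₀, Filter.eventually_ge_atTop n₁,
        Filter.eventually_ge_atTop 1] with n hn0 hn1 hn
      have hnpos : (0 : ℝ) < n := by exact_mod_cast hn
      have hfl : (⌊x * n⌋₊ : ℝ) ≤ x * n := Nat.floor_le (by positivity)
      have hfl2 : x * n < (⌊x * n⌋₊ : ℝ) + 1 := Nat.lt_floor_add_one _
      have hF : F n ⌊x * n⌋₊ := by
        intro b hb hr m a hm
        apply hn₀ n m a b hn0 hm hb
        have hr' : ((n - b : ℕ) : ℝ) ≤ (⌊x * n⌋₊ : ℝ) := by exact_mod_cast hr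
        rw [Nat.cast_sub hb] at hr'
        have h3 : (n : ℝ) - b ≤ x * n := hr'.trans hfl
        have h4 : κ * ((n : ℝ) - b) ≤ κ * (x * n) :=
          mul_le_mul_of_nonneg_left h3 (by linarith)
        nlinarith
      have hle : ⌊x * n⌋₊ ≤ n := by
        have : x * n ≤ n := by nlinarith
        have h5 : (⌊x * n⌋₊ : ℝ) ≤ n := hfl.trans this
        exact_mod_cast h5
      have hR : (⌊x * n⌋₊ : ℝ) ≤ R n := by exact_mod_cast le_R n _ hle hF
      refine lt_max_of_lt_right (lt_min hy ?_)
      rw [lt_div_iff₀ hnpos]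
      have hn1' : (n₁ : ℝ) ≤ n := by exact_mod_cast hn1
      have h6 : 1 < (x - y) * n := by
        rw [div_lt_iff₀ hxy'] at hn₁
        nlinarith
      nlinarith
    · intro y hy
      refine Filter.Eventually.of_forall fun n => ?_
      exact max_lt (by linarith) (lt_of_le_of_lt (min_le_left _ _) hy)
  · intro n m a b hn hm hb h
    beta_reduce at h
    have hnpos : (0 : ℝ) < n := by exact_mod_cast hn
    by_cases h16 : 16 * (n - b) ≤ n
    · exact stahl_pos n m a b hn hm hb h16
    · have h16' : n < 16 * (n - b) := not_le.mp h16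
      have h16r : (n : ℝ) < 16 * ((n : ℝ) - b) := by
        have : (n : ℝ) < ((16 * (n - b) : ℕ) : ℝ) := by exact_mod_cast h16'
        rw [Nat.cast_mul, Nat.cast_sub hb] at this
        simpa using this
      have hRr : (n : ℝ) - b ≤ R n := by
        rcases le_total (1 / 16 : ℝ) (min (κ / (1 + κ)) ((R n : ℝ) / n)) with hc | hc
        · rw [max_eq_right hc] at h
          have h7 : min (κ / (1 + κ)) ((R n : ℝ) / n) * n ≤ (R n : ℝ) / n * n :=
            mul_le_mul_of_nonneg_right (min_le_right _ _) hnpos.le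
          rw [div_mul_cancel₀ _ hnpos.ne'] at h7
          exact h.trans h7
        · rw [max_eq_left hc] at h
          linarith
      have hRn : n - b ≤ R n := by
        have : ((n - b : ℕ) : ℝ) ≤ R n := by rw [Nat.cast_sub hb]; exact hRr
        exact_mod_cast this
      have hR0 : R n ≠ 0 := by omega
      exact F_R n hR0 b hb hRn m a hm

end Pool.Agent.P.MP_a66f6f_co.Hv
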