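import Pool.Agent.P.MP_a66f6f_co.Hv.Iface

/-! Step GD. -/

namespace Pool.Agent.P.MP_a66f6f_co.Hv

open Finset Ped Pos

namespace GDc

theorem anti (hAVM : S_AVM) {V : Finset ℕ} {D : Finset ℕ → Prop} (hD : Down D) {i j : ℕ}
    (h : i ≤ j) (hj : j ≤ V.card) : pr V j D ≤ pr V i D := by
  have a := hAVM V i j (fun X => -1 * ind D X)
    (fun X Y e => by have := ind_le (P := D) (Q := D) (hD X Y e); simp only; linarith) h hj
  rw [av_mul, av_mul] at a
  unfold pr
  linarith

end GDc

theorem p_GD (hKKD : S_KKD) (hCH : S_CH) (hAVM : S_AVM) :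
    S_GD := by
  intro V D a c t hD ht hac hc h4
  have key : ∀ k, a + k ≤ c →
      t * k * pr V c D ≤ V.card * (pr V a D - pr V (a + k) D) := by
    intro k
    induction k with
    | zero => intro _; simp
    | succ k ih =>
      intro hk
      have a1 := ih (by omega)
      have b1 : pr V (a + k + 1) D ≤ pr V a D := GDc.anti hAVM hD (by omega) (by omega)
      have b2 : pr V (a + k + 1) D ≤ pr V (a + k) D := GDc.anti hAVM hD (by omega) (by omega)
      have b3 : pr V c D ≤ pr V (a + k + 1) D := GDc.anti hAVM hD (by omega) (by omega)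
      have b4 := pr_nonneg V (a + k + 1) D
      have c1 : (V.card.choose (a + k + 1) : ℝ) ≤ 4 ^ t * ((V.card - t).choose (a + k + 1) : ℝ) := by
        exact_mod_cast hCH V.card (a + k + 1) t (by omega) ht
      have c2 : pr V (a + k + 1) D * 4 ^ t ≤ 1 :=
        (mul_le_mul_of_nonneg_right b1 (by positivity)).trans h4
      have c3 : (0 : ℝ) ≤ ((V.card - t).choose (a + k + 1) : ℝ) := Nat.cast_nonneg _
      have a2 := hKKD V D (a + k) t hD (by omega) (by
        calc _ ≤ pr V (a + k + 1) D * (4 ^ t * ((V.card - t).choose (a + k + 1) : ℝ)) :=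
              mul_le_mul_of_nonneg_left c1 b4
          _ = pr V (a + k + 1) D * 4 ^ t * ((V.card - t).choose (a + k + 1) : ℝ) := by ring
          _ ≤ 1 * ((V.card - t).choose (a + k + 1) : ℝ) := mul_le_mul_of_nonneg_right c2 c3
          _ = _ := one_mul _)
      have d1 : (0 : ℝ) ≤ t := Nat.cast_nonneg _
      have d2 : (0 : ℝ) ≤ ((a + k : ℕ) : ℝ) := Nat.cast_nonneg _
      have d3 := mul_le_mul_of_nonneg_left b3 d1
      have d4 := mul_nonneg (sub_nonneg.2 b2) (add_nonneg d1 d2)
      rw [← add_assoc]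
      push_cast at a2 d4 ⊢
      nlinarith
  have e := key (c - a) (by omega)
  rw [add_tsub_cancel_of_le hac, Nat.cast_sub hac] at e
  linarith

end Pool.Agent.P.MP_a66f6f_co.Hv
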