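import Pool.Agent.P.MP_a66f6f_co.Hv.Iface

/-! Step GU. -/

namespace Pool.Agent.P.MP_a66f6f_co.Hv

open Finset Ped Pos

namespace GUc

end GUc

theorem p_GU (hGD : S_GD) (hCPL : S_CPL) :
    S_GU := by
  intro V P a c t hP ht hac hc h3 h4
  have e : ∀ i, i ≤ V.card → pr V i P = pr V (V.card - i) fun Y => P (V \ Y) := fun i hi =>
    hCPL V i (ind P) hi
  have hD : Down fun Y => P (V \ Y) := fun X Y h hY => hP _ _ (sdiff_subset_sdiff le_rfl h) hY
  rw [e c hc] at h4 ⊢
  rw [e a (hac.trans hc)]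
  have := hGD V _ (V.card - c) (V.card - a) t hD ht (by omega) (by omega) h4
  rw [Nat.cast_sub hc, Nat.cast_sub (hac.trans hc)] at this
  rwa [show ((V.card : ℝ) - a - (V.card - c)) = c - a by ring] at this

end Pool.Agent.P.MP_a66f6f_co.Hv
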