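import Pool.Agent.P.MP_a66f6f_co.Hv.Iface

/-! Step HOM. -/

namespace Pool.Agent.P.MP_a66f6f_co.Hv

open Finset Ped Pos

namespace HOMc

theorem pull (K W : Finset ℕ) (h : W ⊆ K) :
    (univ.filter fun j : Fin K.card => K.orderEmbOfFin rfl j ∈ W).card = W.card := by
  refine card_bij (fun j _ => K.orderEmbOfFin rfl j) (fun j hj => (mem_filter.1 hj).2)
    (fun i _ j _ e => (K.orderEmbOfFin rfl).injective e) fun w hw => ?_
  have : w ∈ Set.range (K.orderEmbOfFin rfl) := by
    rw [range_orderEmbOfFin]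
    exact h hw
  obtain ⟨j, rfl⟩ := this
  exact ⟨j, mem_filter.2 ⟨mem_univ _, hw⟩, rfl⟩

end HOMc

theorem p_HOM :
    S_HOM := by
  intro C Ω n a r b h hb
  have hs : ∀ S : Finset (Fin Ω.card), S.map (Ω.orderEmbOfFin rfl).toEmbedding ⊆ Ω := by
    intro S x hx
    obtain ⟨j, -, rfl⟩ := mem_map.1 hx
    exact orderEmbOfFin_mem Ω rfl j
  have key : ∀ S : {S : Finset (Fin Ω.card) // S.card = n},
      ∃ W ⊆ C (S.1.map (Ω.orderEmbOfFin rfl).toEmbedding), W.card = a * n + b := fun S => by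
    refine exists_subset_card_eq ?_
    have h1 := h.big _ (hs S.1) ((card_map _).trans S.2)
    have h2 := h.hb
    rw [add_mul] at h1
    omega
  choose W hW hc using key
  refine ⟨⟨fun S => ⟨univ.filter fun j => (C Ω).orderEmbOfFin rfl j ∈ W S,
    (HOMc.pull _ _ ((hW S).trans (h.mono _ _ (hs S.1)))).trans (hc S)⟩, fun {S T} hST => ?_⟩⟩
  have hd : Disjoint (W S) (W T) :=
    (h.disj _ _ ((disjoint_map _).2 hST.2)).mono (hW S) (hW T)
  have hd' : Disjoint (univ.filter fun j => (C Ω).orderEmbOfFin rfl j ∈ W S)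
      (univ.filter fun j => (C Ω).orderEmbOfFin rfl j ∈ W T) :=
    disjoint_filter.2 fun j _ h1 h2 => disjoint_left.1 hd h1 h2
  refine ⟨fun e => ?_, hd'⟩
  have e' := congrArg Subtype.val e
  simp only at e'
  rw [← e', disjoint_self, bot_eq_empty, ← card_eq_zero,
    HOMc.pull _ _ ((hW S).trans (h.mono _ _ (hs S.1))), hc] at hd'
  omega

end Pool.Agent.P.MP_a66f6f_co.Hv
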