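import Pool.Agent.P.MP_a66f6f_co.Hv.Iface

/-! Step HYP. -/

namespace Pool.Agent.P.MP_a66f6f_co.Hv

open Finset Ped Pos

namespace HYPc

theorem tt_insert (p : ℝ) (x : ℕ) (X : Finset ℕ) (l : List ℕ) (hx : x ∉ l) (g : Finset ℕ → ℝ) :
    TT p l g (insert x X) = TT p l g X := by
  induction l generalizing g with
  | nil => rfl
  | cons y l ih =>
    rw [List.mem_cons, not_or] at hx
    have e : (y ∈ insert x X) = (y ∈ X) := by
      rw [mem_insert, eq_iff_iff]
      exact ⟨fun h => h.resolve_left fun c => hx.1 c.symm, Or.inr⟩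
    simp only [TT, ih hx.2, e]

theorem point (p a b : ℝ) (h0 : 0 ≤ p) (h1 : p ≤ 1) :
    p * (a + 1 / 5 * (1 - p) * b) ^ 4 + (1 - p) * (a + 1 / 5 * (0 - p) * b) ^ 4 ≤
      a ^ 4 + (8 / 25 * (p * (1 - p)) * (a ^ 2 * b ^ 2) + 3 / 625 * (p * (1 - p)) * b ^ 4) := by
  have hs : 0 ≤ p * (1 - p) := mul_nonneg h0 (by linarith)
  generalize hs' : p * (1 - p) = s at hs ⊢
  have e : a ^ 4 + (8 / 25 * s * (a ^ 2 * b ^ 2) + 3 / 625 * s * b ^ 4) -
      (p * (a + 1 / 5 * (1 - p) * b) ^ 4 + (1 - p) * (a + 1 / 5 * (0 - p) * b) ^ 4) =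
      s * (2 * b ^ 2 / 625) * ((5 * a - (1 - 2 * p) * b) ^ 2 + 4 * s * b ^ 2) +
        s * (3 * s / 625) * b ^ 4 := by
    rw [← hs']
    ring
  have : 0 ≤ s * (2 * b ^ 2 / 625) * ((5 * a - (1 - 2 * p) * b) ^ 2 + 4 * s * b ^ 2) +
      s * (3 * s / 625) * b ^ 4 := by positivity
  linarith

theorem ev_nonneg (P : Polynomial ℝ) (h : ∀ k, 0 ≤ P.coeff k) : 0 ≤ P.eval (1 / 5) := by
  rw [Polynomial.eval_eq_sum_range]
  exact sum_nonneg fun k _ => mul_nonneg (h k) (by positivity)

end HYPc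

open HYPc in
theorem p_HYP (hEXCS : S_EXCS) (hPARS : S_PARS) :
    S_HYP := by
  intro p l f hl h1 h2
  have h0 : 0 ≤ p := by linarith
  have h3 : p ≤ 1 := by linarith
  induction l generalizing f with
  | nil =>
    simp only [ex, TT, PP, Polynomial.eval_C]
    exact le_of_eq (by ring)
  | cons x l ih =>
    rw [List.nodup_cons] at hl
    have ia := ih (ee p x f) hl.2
    have ib := ih (dd x f) hl.2
    have pa := ev_nonneg _ (hPARS p l (ee p x f) h0 h3).2.2
    have pb := ev_nonneg _ (hPARS p l (dd x f) h0 h3).2.2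
    have cs := hEXCS p l (fun X => TT p l (ee p x f) X ^ 2) (fun X => TT p l (dd x f) X ^ 2) h0 h3
    simp only [← pow_mul] at cs
    have st : ex p (x :: l) (fun X => TT p (x :: l) f X ^ 4) ≤
        ex p l (fun X => TT p l (ee p x f) X ^ 4 + (8 / 25 * (p * (1 - p)) *
          (TT p l (ee p x f) X ^ 2 * TT p l (dd x f) X ^ 2) +
          3 / 625 * (p * (1 - p)) * TT p l (dd x f) X ^ 4)) := by
      rw [ex]
      refine ex_le h0 h3 l fun X hX => ?_
      have hx : x ∉ X := fun c => hl.1 (List.mem_toFinset.1 (hX c))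
      rw [ee]
      simp only [TT, tt_insert p x X l hl.1, if_pos (mem_insert_self x X), if_neg hx]
      exact point p _ _ h0 h3
    rw [ex_add, ex_add, ex_mul, ex_mul] at st
    simp only [PP, Polynomial.eval_add, Polynomial.eval_mul, Polynomial.eval_C, Polynomial.eval_X]
    have na : 0 ≤ ex p l fun X => TT p l (ee p x f) X ^ 4 := by
      rw [← ex_const p l 0]
      exact ex_le h0 h3 l fun X _ => by positivity
    have nb : 0 ≤ ex p l fun X => TT p l (dd x f) X ^ 4 := by
      rw [← ex_const p l 0]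
      exact ex_le h0 h3 l fun X _ => by positivity
    generalize (PP p l (ee p x f)).eval (1 / 5) = A at ia pa ⊢
    generalize (PP p l (dd x f)).eval (1 / 5) = B at ib pb ⊢
    have c2 : (ex p l fun X => TT p l (ee p x f) X ^ 2 * TT p l (dd x f) X ^ 2) ≤ A * B := by
      refine (abs_le_of_sq_le_sq' ?_ (mul_nonneg pa pb)).2
      rw [mul_pow]
      exact cs.trans (mul_le_mul ia ib nb (sq_nonneg A))
    have hs : 2 / 9 ≤ p * (1 - p) := by nlinarith
    generalize p * (1 - p) = s at st hs ⊢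
    have s0 : 0 ≤ s := by linarith
    have c3 := mul_le_mul_of_nonneg_left c2 (by positivity : 0 ≤ 8 / 25 * s)
    have c4 := mul_le_mul_of_nonneg_left ib (by positivity : 0 ≤ 3 / 625 * s)
    have c5 : 0 ≤ s * (A * B) := by positivity
    have c6 : 0 ≤ s * B ^ 2 * (s - 2 / 9) := mul_nonneg (by positivity) (by linarith)
    have c7 : 0 ≤ s * B ^ 2 := by positivity
    nlinarith

end Pool.Agent.P.MP_a66f6f_co.Hv
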