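import Pool.Agent.P.MP_a66f6f_co.Hv.Iface

/-! Step IND. -/

namespace Pool.Agent.P.MP_a66f6f_co.Hv

open Finset Ped Pos

theorem p_IND (hSTEP : S_STEP) (hSUB : S_SUB) (hINI : S_INI) (hLIP : S_LIP) (hAPR : S_APR) :
    S_IND := by
  intro κ k1 k2 hK γ ε e0 e1
  obtain ⟨n₁, hS⟩ := hSTEP κ k1 k2 hK γ ε (64 / ε) e0 e1 (by positivity)
  refine ⟨64 / ε, by positivity, n₁ + ⌈16 / ε⌉₊ + 1, fun C Ω n q r b h hn hr i => ?_⟩
  have n1 : 1 ≤ n := by omega
  have b1 : (b : ℝ) + r = n := by exact_mod_cast h.hb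
  have n0 : (1 : ℝ) ≤ n := by exact_mod_cast n1
  have r0 : (0 : ℝ) ≤ r := Nat.cast_nonneg _
  have b0 : (0 : ℝ) ≤ b := Nat.cast_nonneg _
  have g2 : γ ≤ 2 := le_of_mul_le_mul_right (by nlinarith) (show (0 : ℝ) < n by linarith)
  have c1 : 16 ≤ ε * n := by
    have := (Nat.ceil_le (a := 16 / ε)).1 (show _ ≤ n by omega)
    rwa [div_le_iff₀ e0, mul_comm] at this
  have c3 : 7 * (ε * n) ≤ n := by nlinarith
  induction i using Nat.strong_induction_on with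
  | _ J ih =>
  intro S V u1 u2 u3 u4 u5 u6
  have s2 : 2 * S.card ≤ n := by exact_mod_cast (show (2 : ℝ) * S.card ≤ n by linarith)
  have l0 : 0 ≤ 64 / ε * S.card := by positivity
  rcases lt_or_ge (ε * n) (8 * (S.card + 1)) with c | c
  · have a1 := hAPR C Ω n q r b S V J h u1 u2 u3 n1 s2 u5 u6
    have a2 : 4 * n ≤ 64 / ε * S.card := by
      rw [div_mul_eq_mul_div, le_div_iff₀ e0]
      linarith
    linarith
  rcases lt_or_ge (J : ℝ) ((1 + ε / 4) * n) with d | d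
  · have a1 := hINI C Ω n q r b S V h.toSy u1 u2 u3 s2 (by omega)
    have a2 := (hLIP C Ω n q r b S V n J h u1 u2 u3 n1 le_rfl u5 (by omega)).2
    linarith
  · obtain ⟨W, w1, w2, w3⟩ := hSUB V J (2 * J) (fun X => el q C (S ∪ X)) (by omega) u6
    exact w3.trans (hS C Ω n q r b S W J h u1 (w1.trans u2) (u3.mono_right w1) (by omega) hr c w2 d
      fun i S' V' v1 => ih i v1 S' V')

end Pool.Agent.P.MP_a66f6f_co.Hv
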