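import Pool.Agent.P.MP_a66f6f_co.Hv.Iface

/-! Step INI. -/

namespace Pool.Agent.P.MP_a66f6f_co.Hv

open Finset Ped Pos

namespace INIc

theorem step (hAGA : S_AGA) {C : Finset ℕ → Finset ℕ} {Ω : Finset ℕ} {n q r b : ℕ}
    {S V : Finset ℕ} (h : Sy C Ω n q r b) (hS : S ⊆ Ω) (hV : V ⊆ Ω) (hd : Disjoint S V)
    (hv : 2 * n ≤ V.card) (t : ℕ) : ∀ i, i + t = n → 2 * t ≤ n →
      LL q C S V n - LL q C S V i ≤ 2 * t := by
  induction t with
  | zero =>
    intro i e _
    rw [add_zero] at e
    subst e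
    simp
  | succ t ih =>
    intro i e ht
    have a1 := ih (i + 1) (by omega) (by omega)
    have a2 := hAGA C Ω n q r b S V i n h hS hV hd (by omega) (by omega) (by omega)
    have a3 : LL q C ∅ V n ≤ r :=
      h.base (empty_subset _) hV (disjoint_empty_left _) (by simp) (by omega)
    have a4 : (r : ℝ) ≤ i + t + 1 := by
      have := h.hb
      exact_mod_cast (by omega : r ≤ i + t + 1)
    have a5 : (0 : ℝ) ≤ i := Nat.cast_nonneg _
    have a6 : (0 : ℝ) ≤ t := Nat.cast_nonneg _
    have a7 := mul_le_mul_of_nonneg_left a1 a5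
    push_cast
    refine le_of_mul_le_mul_left (a := (i : ℝ) + 1) ?_ (by linarith)
    nlinarith

end INIc

theorem p_INI (hAGA : S_AGA) :
    S_INI := by
  intro C Ω n q r b S V h hS hV hd hs hv
  have a1 := INIc.step hAGA h hS hV hd hv S.card (n - S.card) (by omega) hs
  have a2 : LL q C S V (n - S.card) ≤ r := h.base hS hV hd (by omega) (by omega)
  linarith

end Pool.Agent.P.MP_a66f6f_co.Hv
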