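import Pool.Agent.P.MP_a66f6f_co.Hv.Iface

/-! Step INN. -/

namespace Pool.Agent.P.MP_a66f6f_co.Hv

open Finset Ped Pos

namespace INNc

theorem TT_insert (p : ℝ) (l : List ℕ) (x : ℕ) (hx : x ∉ l) (g : Finset ℕ → ℝ) (X : Finset ℕ) :
    TT p l g (insert x X) = TT p l g X := by
  induction l generalizing g with
  | nil => rfl
  | cons y l ih =>
    rw [List.mem_cons, not_or] at hx
    have e : y ∈ insert x X ↔ y ∈ X := mem_insert.trans (or_iff_right fun h => hx.1 h.symm)
    simp only [TT, ih hx.2, e]

end INNc

theorem p_INN :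
    S_INN := by
  intro p l f h
  induction l generalizing f with
  | nil => simp [ex, TT, PP, sq]
  | cons x l ih =>
    rw [List.nodup_cons] at h
    have e : ex p l (ee p x fun X => f X * TT p (x :: l) f X) =
        ex p l fun X => ee p x f X * TT p l (ee p x f) X +
          1 / 5 * (p * (1 - p)) * (dd x f X * TT p l (dd x f) X) := by
      refine ex_congr p l fun X hX => ?_
      have a : x ∉ X := fun c => h.1 (List.mem_toFinset.1 (hX c))
      simp only [ee, dd, TT, INNc.TT_insert p l x h.1, if_neg a, if_pos (mem_insert_self x X)]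
      ring
    rw [ex, e, ex_add, ex_mul, ih _ h.2, ih _ h.2, PP]
    simp only [Polynomial.eval_add, Polynomial.eval_mul, Polynomial.eval_C, Polynomial.eval_X]
    ring

end Pool.Agent.P.MP_a66f6f_co.Hv
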