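import Pool.Agent.P.MP_a66f6f_co.Hv.Iface

/-! Step ITER. -/

namespace Pool.Agent.P.MP_a66f6f_co.Hv

open Finset Ped Pos

namespace ITERc

theorem grid {p₁ p₂ h p : ℝ} (hh : 0 < h) (h1 : p₁ ≤ p) (h2 : p + h ≤ p₂) (h3 : p₂ ≤ p₁ + 1) :
    ∃ k, k < ⌈1 / h⌉₊ + 1 ∧ p ≤ min (p₁ + k * h) p₂ ∧ min (p₁ + k * h) p₂ ≤ p + h := by
  have a0 : 0 ≤ (p - p₁) / h := div_nonneg (by linarith) hh.le
  have a1 : (p - p₁) / h ≤ ⌈(p - p₁) / h⌉₊ := Nat.le_ceil _
  have a2 : (⌈(p - p₁) / h⌉₊ : ℝ) < (p - p₁) / h + 1 := Nat.ceil_lt_add_one a0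
  have a3 : (p - p₁) / h ≤ 1 / h := div_le_div_of_nonneg_right (by linarith) hh.le
  refine ⟨⌈(p - p₁) / h⌉₊, Nat.lt_succ_of_le (Nat.ceil_le_ceil a3), le_min ?_ (by linarith), ?_⟩
  · rw [div_le_iff₀ hh] at a1
    linarith
  · refine (min_le_left _ _).trans ?_
    have a4 : (⌈(p - p₁) / h⌉₊ : ℝ) * h ≤ ((p - p₁) / h + 1) * h :=
      mul_le_mul_of_nonneg_right a2.le hh.le
    rw [add_mul, div_mul_cancel₀ _ hh.ne'] at a4
    linarith

end ITERc

theorem p_ITER (hTST : S_TST) (hMUM : S_MUM) :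
    S_ITER := by
  intro ε δ hε hδ
  obtain ⟨h, c, hh, hc, H⟩ := hTST ε δ hε hδ
  refine ⟨⌈((⌈1 / h⌉₊ : ℝ) + 1) / c⌉₊ + 1, fun V P p₁ p₂ hP h1 h2 h3 h4 => ?_⟩
  set N := ⌈1 / h⌉₊ with hN
  let g : ℕ → ℝ := fun k => min (p₁ + k * h) p₂
  have g0 : ∀ k, 0 ≤ g k := fun k => by
    have : (0 : ℝ) ≤ k * h := mul_nonneg (Nat.cast_nonneg _) hh.le
    exact le_min (by linarith) (by linarith)
  have g1 : ∀ k, g k ≤ 1 := fun k => (min_le_right _ _).trans (by linarith)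
  let Φ : Finset ℕ → ℝ := fun T => ∑ k ∈ range (N + 1), mu (g k) (V \ T) P
  have Φ0 : ∀ T, 0 ≤ Φ T := fun T => sum_nonneg fun k _ => mu_nonneg (g0 k) (g1 k) _ _
  have Φ1 : ∀ T, Φ T ≤ N + 1 := fun T => by
    have : Φ T ≤ ∑ _k ∈ range (N + 1), (1 : ℝ) :=
      sum_le_sum fun k _ => mu_le_one (g0 k) (g1 k) _ _
    rw [sum_const, card_range, nsmul_eq_mul, mul_one] at this
    exact_mod_cast this
  have key : ∀ j : ℕ, ∃ T, T ⊆ V ∧ T.card ≤ j ∧
      (mu p₁ (V \ T) P ≤ ε ∨ Φ T ≤ N + 1 - j * c) := by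
    intro j
    induction j with
    | zero => exact ⟨∅, empty_subset _, by simp, Or.inr (by simpa using Φ1 ∅)⟩
    | succ j ih =>
      obtain ⟨T, t1, t2, t3⟩ := ih
      by_cases d : mu p₁ (V \ T) P ≤ ε
      · exact ⟨T, t1, by omega, Or.inl d⟩
      have t4 := t3.resolve_left d
      have m2 : mu p₂ (V \ T) P ≤ mu p₂ V P :=
        (hMUM V P p₂ p₂ hP (by linarith) le_rfl (by linarith)).2 T
      obtain ⟨x, hx, p, q1, q2, q3⟩ := H (V \ T) P p₁ p₂ hP h1 h2 h3 (not_le.1 d).le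
        (by linarith)
      obtain ⟨k₀, k1, k2, k3⟩ := ITERc.grid hh q1 q2 (by linarith : p₂ ≤ p₁ + 1)
      have e : V \ insert x T = (V \ T).erase x := by
        ext y
        simp only [mem_sdiff, mem_insert, mem_erase, not_or]
        tauto
      refine ⟨insert x T, insert_subset (mem_sdiff.1 hx).1 t1,
        (card_insert_le _ _).trans (by omega), Or.inr ?_⟩
      have s1 : ∑ k ∈ range (N + 1), (if k = k₀ then c else 0) ≤
          ∑ k ∈ range (N + 1), (mu (g k) (V \ T) P - mu (g k) (V \ insert x T) P) := by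
        refine sum_le_sum fun k _ => ?_
        split_ifs with f
        · subst f
          have := q3 (g k) k2 k3
          rw [e]
          linarith
        · have := (hMUM (V \ T) P (g k) (g k) hP (g0 k) le_rfl (g1 k)).2 {x}
          rw [sdiff_singleton_eq_erase] at this
          rw [e]
          linarith
      rw [sum_ite_eq', if_pos (mem_range.2 k1), sum_sub_distrib] at s1
      push_cast
      have : Φ (insert x T) ≤ Φ T - c := by
        simp only [Φ]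
        linarith
      linarith
  obtain ⟨T, t1, t2, t3⟩ := key (⌈((N : ℝ) + 1) / c⌉₊ + 1)
  refine ⟨T, t1, t2, t3.resolve_right fun d => ?_⟩
  have a1 : ((N : ℝ) + 1) / c ≤ ⌈((N : ℝ) + 1) / c⌉₊ := Nat.le_ceil _
  rw [div_le_iff₀ hc] at a1
  have := Φ0 T
  push_cast at d
  linarith

end Pool.Agent.P.MP_a66f6f_co.Hv
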