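import Pool.Agent.P.MP_a66f6f_co.Hv.Iface

/-! Step KK0. -/

namespace Pool.Agent.P.MP_a66f6f_co.Hv

open Finset Ped Pos

namespace KK0c

theorem seg {N : ℕ} (S : Finset (Finset (Fin N))) (m : ℕ) (hm : m ≤ S.card) :
    ∃ C ⊆ S, C.card = m ∧ ∀ X ∈ C, ∀ Y ∈ S, toColex Y < toColex X → Y ∈ C := by
  induction m with
  | zero => exact ⟨∅, empty_subset _, card_empty, fun _ h => absurd h (notMem_empty _)⟩
  | succ m ih =>
    obtain ⟨C, h1, h2, h3⟩ := ih (Nat.le_of_succ_le hm)
    have hne : (S \ C).Nonempty := by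
      rw [← card_pos, card_sdiff_of_subset h1]
      omega
    obtain ⟨X, hX, hmin⟩ := exists_min_image (S \ C) (fun Y => toColex Y) hne
    rw [mem_sdiff] at hX
    refine ⟨insert X C, insert_subset hX.1 h1, by rw [card_insert_of_notMem hX.2, h2],
      fun Z hZ Y hY hlt => ?_⟩
    rcases mem_insert.1 hZ with rfl | hZ
    · by_contra c
      exact absurd (hmin Y (mem_sdiff.2 ⟨hY, fun d => c (mem_insert_of_mem d)⟩)) (not_le.2 hlt)
    · exact mem_insert_of_mem (h3 Z hZ Y hY hlt)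

theorem lym {N r : ℕ} (K : Finset (Fin N)) (C : Finset (Finset (Fin N)))
    (h : ∀ X ∈ C, X ⊆ K ∧ X.card = r) : C.card * r ≤ (shadow C).card * (K.card - r + 1) := by
  refine card_mul_le_card_mul (fun X Y => Y ⊆ X) (fun X hX => ?_) fun Y hY => ?_
  · rw [← (h X hX).2]
    refine card_le_card_of_injOn (fun x => X.erase x) (fun x hx => ?_) (erase_injOn X)
    exact mem_coe.2 ((mem_bipartiteAbove _).2 ⟨erase_mem_shadow hX hx, erase_subset _ _⟩)
  · obtain ⟨Z, hZ, z, hz, rfl⟩ := mem_shadow_iff.1 hY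
    have c1 := card_erase_add_one hz
    have c2 := (h Z hZ).2
    have c3 := card_le_card (h Z hZ).1
    have c4 : (K \ Z.erase z).card = K.card - r + 1 := by
      rw [card_sdiff_of_subset ((erase_subset _ _).trans (h Z hZ).1)]
      omega
    rw [← c4]
    refine le_trans (card_le_card fun X hX => ?_) (card_image_le (f := fun x => insert x (Z.erase z)))
    obtain ⟨h1, h2⟩ := (mem_bipartiteBelow _).1 hX
    obtain ⟨a, ha, rfl⟩ := exists_eq_insert_iff.2 ⟨h2, by rw [(h X h1).2]; omega⟩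
    exact mem_image.2 ⟨a, mem_sdiff.2 ⟨(h _ h1).1 (mem_insert_self _ _), ha⟩, rfl⟩

end KK0c

theorem p_KK0 :
    S_KK0 := by
  intro N r k A hA _ hk hc
  obtain ⟨K, hK⟩ : ∃ K : Finset (Fin N), K = attachFin (range k) fun m hm =>
    (mem_range.1 hm).trans_le hk := ⟨_, rfl⟩
  have cK : K.card = k := by rw [hK, card_attachFin, card_range]
  have mK : ∀ x, x ∈ K ↔ x.val < k := fun x => by rw [hK, mem_attachFin, mem_range]
  obtain ⟨C, h1, h2, h3⟩ := KK0c.seg (K.powersetCard r) A.card (by rwa [card_powersetCard, cK])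
  have h4 : ∀ X ∈ C, X ⊆ K ∧ X.card = r := fun X hX => mem_powersetCard.1 (h1 hX)
  have h5 : Colex.IsInitSeg C r := by
    refine ⟨fun X hX => (h4 X hX).2, fun X Y hX hY => h3 X hX Y ?_ hY.1⟩
    refine mem_powersetCard.2 ⟨fun t ht => (mK t).2 ?_, hY.2⟩
    have : toColex (image Fin.val Y) < toColex (image Fin.val X) := by
      rw [Colex.toColex_image_lt_toColex_image Fin.val_strictMono]
      exact hY.1
    refine Colex.forall_lt_mono this.le (fun b hb => ?_) t (mem_image.2 ⟨t, ht, rfl⟩)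
    obtain ⟨a, ha, rfl⟩ := mem_image.1 hb
    exact (mK a).1 ((h4 X hX).1 ha)
  have h6 := kruskal_katona (𝒜 := A) (fun X hX => hA X hX) h2.le h5
  have h7 := KK0c.lym K C h4
  rw [h2, cK] at h7
  exact h7.trans (Nat.mul_le_mul_right _ h6)

end Pool.Agent.P.MP_a66f6f_co.Hv
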