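import Pool.Agent.P.MP_a66f6f_co.Hv.Iface

/-! Step KK1. -/

namespace Pool.Agent.P.MP_a66f6f_co.Hv

open Finset Ped Pos

namespace KK1c

lemma back {N : ℕ} {X : Finset ℕ} (h : ∀ x ∈ X, x < N) :
    (univ.filter fun i : Fin N => i.val ∈ X).map Fin.valEmbedding = X := by
  ext x
  simp only [mem_map, mem_filter, mem_univ, true_and, Fin.valEmbedding_apply]
  exact ⟨fun ⟨i, hi, e⟩ => e ▸ hi, fun hx => ⟨⟨x, h x hx⟩, hx, rfl⟩⟩

end KK1c

theorem p_KK1 (hKK0 : S_KK0) :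
    S_KK1 := by
  intro r k A hA hr hk
  obtain ⟨N, hkN, hN⟩ : ∃ N, k ≤ N ∧ ∀ X ∈ A, ∀ x ∈ X, x < N :=
    ⟨k + ((A.biUnion id).sup id + 1), by omega, fun X hX x hx => by
      have : x ≤ (A.biUnion id).sup id := le_sup (f := id) (mem_biUnion.2 ⟨X, hX, hx⟩)
      omega⟩
  set φ : Finset ℕ → Finset (Fin N) := fun X => univ.filter fun i : Fin N => i.val ∈ X with hφ
  have hb : ∀ X ∈ A, (φ X).map Fin.valEmbedding = X := fun X hX => KK1c.back (hN X hX)
  have hc : (A.image φ).card = A.card :=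
    card_image_of_injOn fun X hX Y hY e => by rw [← hb X hX, ← hb Y hY, e]
  have h1 := hKK0 N r k (A.image φ) (fun Y hY => by
    obtain ⟨X, hX, rfl⟩ := mem_image.1 hY
    rw [← hA X hX, ← card_map Fin.valEmbedding, hb X hX]) hr hkN (hc ▸ hk)
  have h2 : (shadow (A.image φ)).card ≤ (shadow A).card := by
    refine card_le_card_of_injOn (fun Y => Y.map Fin.valEmbedding) (fun Y hY => ?_)
      (map_injective _).injOn
    obtain ⟨Z, hZ, i, hi, rfl⟩ := mem_shadow_iff.1 (mem_coe.1 hY)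
    obtain ⟨X, hX, rfl⟩ := mem_image.1 hZ
    refine mem_coe.2 (mem_shadow_iff.2 ⟨X, hX, i.val, (mem_filter.1 hi).2, ?_⟩)
    beta_reduce
    rw [map_erase, hb X hX]
    rfl
  rw [hc] at h1
  exact h1.trans (Nat.mul_le_mul_right _ h2)

end Pool.Agent.P.MP_a66f6f_co.Hv
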