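import Pool.Agent.P.MP_a66f6f_co.Hv.Iface

/-! Step KKD. -/

namespace Pool.Agent.P.MP_a66f6f_co.Hv

open Finset Ped Pos

namespace KKDc

open Classical in
theorem pr_eq (V : Finset ℕ) (i : ℕ) (D : Finset ℕ → Prop) :
    pr V i D = (((V.powersetCard i).filter D).card : ℝ) / (V.card.choose i : ℝ) := by
  unfold pr av ind
  rw [sum_boole]

end KKDc

theorem p_KKD (hKK1 : S_KK1) :
    S_KKD := by
  classical
  intro V D i t hD hv h
  have c1 : (0 : ℝ) < V.card.choose (i + 1) := by exact_mod_cast Nat.choose_pos (by omega)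
  have c0 : (0 : ℝ) < V.card.choose i := by exact_mod_cast Nat.choose_pos (by omega)
  rw [KKDc.pr_eq, div_mul_cancel₀ _ c1.ne'] at h
  rw [KKDc.pr_eq, KKDc.pr_eq]
  set A := (V.powersetCard (i + 1)).filter D with hA
  set B := (V.powersetCard i).filter D with hB
  have h1 := hKK1 (i + 1) (V.card - t) A
    (fun X hX => (mem_powersetCard.1 (mem_filter.1 hX).1).2) (by omega) (by exact_mod_cast h)
  have h2 : shadow A ⊆ B := by
    intro Y hY
    obtain ⟨X, hX, x, hx, rfl⟩ := mem_shadow_iff.1 hY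
    obtain ⟨a1, a2⟩ := mem_filter.1 hX
    obtain ⟨a3, a4⟩ := mem_powersetCard.1 a1
    refine mem_filter.2 ⟨mem_powersetCard.2 ⟨(erase_subset _ _).trans a3, ?_⟩,
      hD _ _ (erase_subset _ _) a2⟩
    rw [card_erase_of_mem hx, a4]
    rfl
  have h3 : A.card * (i + 1) ≤ B.card * (V.card - t - (i + 1) + 1) :=
    h1.trans (Nat.mul_le_mul_right _ (card_le_card h2))
  obtain ⟨w, hw⟩ : ∃ w, V.card = i + t + w := ⟨V.card - (i + t), by omega⟩
  have e1 : V.card - t - (i + 1) + 1 = w := by omega
  rw [e1] at h3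
  have h4 := Nat.choose_succ_right_eq V.card i
  have e2 : V.card - i = t + w := by omega
  rw [e2] at h4
  have h3' : (A.card : ℝ) * (i + 1) ≤ B.card * w := by exact_mod_cast h3
  have h4' : (V.card.choose (i + 1) : ℝ) * (i + 1) = V.card.choose i * (t + w) := by
    exact_mod_cast h4
  have hw' : (V.card : ℝ) = i + t + w := by exact_mod_cast hw
  have e3 : (V.card : ℝ) - i = t + w := by linarith
  have e4 : (V.card : ℝ) - i - t = w := by linarith
  rw [e4, e3, div_mul_eq_mul_div, div_mul_eq_mul_div, div_le_div_iff₀ c1 c0]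
  have hi : (0 : ℝ) < i + 1 := by positivity
  refine le_of_mul_le_mul_right ?_ hi
  calc (A.card : ℝ) * (t + w) * V.card.choose i * (i + 1)
      = (A.card * (i + 1)) * (V.card.choose i * (t + w)) := by ring
    _ ≤ (B.card * w) * (V.card.choose i * (t + w)) :=
      mul_le_mul_of_nonneg_right h3' (by positivity)
    _ = B.card * w * V.card.choose (i + 1) * (i + 1) := by rw [← h4']; ring

end Pool.Agent.P.MP_a66f6f_co.Hv
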