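import Pool.Agent.P.MP_a66f6f_co.Hv.Iface

/-! Step KKL. -/

namespace Pool.Agent.P.MP_a66f6f_co.Hv

open Finset Ped Pos

namespace KKLc

theorem dd01 {P : Finset ℕ → Prop} (h : Up P) (x : ℕ) (X : Finset ℕ) :
    dd x (ind P) X = 0 ∨ dd x (ind P) X = 1 := by
  by_cases c : P X
  · rw [dd, ind_pos c, ind_pos (h _ _ (subset_insert x X) c), sub_self]
    exact Or.inl rfl
  · by_cases d : P (insert x X)
    · rw [dd, ind_pos d, ind_neg c, sub_zero]
      exact Or.inr rfl
    · rw [dd, ind_neg d, ind_neg c, sub_zero]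
      exact Or.inl rfl

theorem ex_dd (hEXM : S_EXM) (p : ℝ) (V : Finset ℕ) (P : Finset ℕ → Prop) (x : ℕ) :
    ex p (V.toList.erase x) (dd x (ind P)) = inf p V P x := by
  have hl := V.nodup_toList
  have e : (V.toList.erase x).toFinset = V.erase x := by
    ext y
    simp [hl.mem_erase_iff]
  have e2 : dd x (ind P) = fun X => ind (fun Y => P (insert x Y)) X + (-1) * ind P X := by
    funext X
    rw [dd, neg_one_mul, sub_eq_add_neg]
    rfl
  rw [e2, ex_add, ex_mul, hEXM _ _ _ (hl.erase x), hEXM _ _ _ (hl.erase x), e, inf]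
  ring

end KKLc

open KKLc in
theorem p_KKL (hEXM : S_EXM) (hPARS : S_PARS) (hDER : S_DER) (hSML : S_SML) (hPOLY : S_POLY) :
    S_KKL := by
  intro ε B hε hB
  obtain ⟨D, hD⟩ := exists_nat_ge (B / ε)
  have hD0 : (0 : ℝ) < D := (div_pos hB hε).trans_le hD
  have hD1 : 1 ≤ D := by exact_mod_cast hD0
  obtain ⟨c, hc⟩ : ∃ c : ℝ, c = ε / (2 * 5 ^ D * B) := ⟨_, rfl⟩
  have hc0 : 0 < c := by rw [hc]; positivity
  refine ⟨c ^ 2, by positivity, fun V P p hP h1 h2 h3 h4 h5 => ?_⟩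
  by_contra hcon
  push Not at hcon
  have p0 : 0 ≤ p := by linarith
  have p1 : p ≤ 1 := by linarith
  have hl := V.nodup_toList
  obtain ⟨a1, a2, a3⟩ := hPARS p V.toList (ind P) p0 p1
  have a4 : ex p V.toList (ind P) = mu p V P := by rw [hEXM _ _ _ hl, V.toList_toFinset]
  have a5 : (fun X => ind P X ^ 2) = ind P := by
    funext X
    by_cases c : P X
    · rw [ind_pos c, one_pow]
    · rw [ind_neg c]; norm_num
  rw [a5, a4] at a1
  rw [a4] at a2
  have b0 : ∀ x, 0 ≤ inf p V P x := fun x => by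
    rw [← ex_dd hEXM, ← ex_const p (V.toList.erase x) 0]
    exact ex_le p0 p1 _ fun X _ => by rcases dd01 hP x X with e | e <;> simp [e]
  have b1 : ∀ x, (PP p (V.toList.erase x) (dd x (ind P))).eval 1 = inf p V P x := fun x => by
    rw [(hPARS p _ _ p0 p1).1, ← ex_dd hEXM]
    exact ex_congr _ _ fun X _ => by rcases dd01 hP x X with e | e <;> simp [e]
  have b2 : ∀ x ∈ V, (PP p (V.toList.erase x) (dd x (ind P))).eval (1 / 5) ≤ c * inf p V P x :=
    fun x hx => by
      have e1 := hSML p _ _ (hl.erase x) h1 h2 (dd01 hP x)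
      rw [ex_dd hEXM] at e1
      refine (abs_le_of_sq_le_sq' (e1.trans ?_) (mul_nonneg hc0.le (b0 x))).2
      rw [mul_pow, pow_succ' _ 2]
      exact mul_le_mul_of_nonneg_right (hcon x hx).le (sq_nonneg _)
  have q0 : 0 ≤ p * (1 - p) := mul_nonneg p0 (by linarith)
  have q1 : p * (1 - p) ≤ 1 / 4 := by nlinarith [sq_nonneg (p - 1 / 2)]
  have d1 : (Polynomial.derivative (PP p V.toList (ind P))).eval 1 ≤ B / 4 := by
    rw [hDER _ _ _ _ hl, V.toList_toFinset]
    simp only [b1]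
    calc _ ≤ p * (1 - p) * B := mul_le_mul_of_nonneg_left h5 q0
      _ ≤ 1 / 4 * B := mul_le_mul_of_nonneg_right q1 hB.le
      _ = B / 4 := by ring
  have d2 : (Polynomial.derivative (PP p V.toList (ind P))).eval (1 / 5) ≤ c * B / 4 := by
    rw [hDER _ _ _ _ hl, V.toList_toFinset]
    have e1 := sum_le_sum b2
    rw [← mul_sum] at e1
    have e2 := e1.trans (mul_le_mul_of_nonneg_left h5 hc0.le)
    calc _ ≤ p * (1 - p) * (c * B) := mul_le_mul_of_nonneg_left e2 q0
      _ ≤ 1 / 4 * (c * B) := mul_le_mul_of_nonneg_right q1 (by positivity)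
      _ = c * B / 4 := by ring
  have f1 := hPOLY _ D hD1 a3
  rw [a1, a2] at f1
  have f2 : (5 : ℝ) ^ D * (c * B / 4) = ε / 8 := by rw [hc]; field_simp; norm_num
  have f3 := mul_le_mul_of_nonneg_left d2 (by positivity : (0 : ℝ) ≤ 5 ^ D)
  have f4 : (Polynomial.derivative (PP p V.toList (ind P))).eval 1 / D ≤ ε / 4 := by
    rw [div_le_iff₀ hD0]
    rw [div_le_iff₀ hε] at hD
    linarith
  have f5 : ε / 2 ≤ mu p V P - mu p V P ^ 2 := by
    rcases le_total (mu p V P) (1 / 2) with e | e <;> nlinarith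
  linarith

end Pool.Agent.P.MP_a66f6f_co.Hv
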