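import Pool.Agent.P.MP_a66f6f_co.Hv.Iface

/-! Step KP1. -/

namespace Pool.Agent.P.MP_a66f6f_co.Hv

open Finset Ped Pos

namespace KP1c

theorem num {x y M S : ℝ} (hM : 0 < M) (h0 : 0 ≤ x) (h1 : x ≤ M) (a : y ≤ x) (b : y ≤ M - x)
    (h : 4 * x * (M - x) ≤ M * S) : (1 + 1) * y ≤ S := by
  refine le_of_mul_le_mul_left (le_trans ?_ h) hM
  rcases le_total x (M - x) with c | c
  · nlinarith [mul_nonneg h0 (show 0 ≤ M - 2 * x by linarith)]
  · nlinarith [mul_nonneg (show 0 ≤ M - x by linarith) (show 0 ≤ 2 * x - M by linarith)]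

end KP1c

theorem p_KP1 :
    S_KP1 := by
  intro V A y a b
  have h := kp V A
  simp only [ph_eq] at h
  simp only [one_mul]
  refine KP1c.num (x := ∑ T ∈ V.powerset, ind A T) (M := 2 ^ V.card) (by positivity)
    (sum_nonneg fun T _ => ind_nonneg A T) ?_ a b h
  calc ∑ T ∈ V.powerset, ind A T ≤ ∑ _T ∈ V.powerset, (1 : ℝ) :=
        sum_le_sum fun T _ => ind_le_one A T
    _ = 2 ^ V.card := by simp

end Pool.Agent.P.MP_a66f6f_co.Hv
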