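import Pool.Agent.P.MP_a66f6f_co.Hv.Iface

/-! Step LIP. -/

namespace Pool.Agent.P.MP_a66f6f_co.Hv

open Finset Ped Pos

namespace LIPc

end LIPc

theorem p_LIP (hAGA : S_AGA) (hL0 : S_L0) :
    S_LIP := by
  intro C Ω n q r b S V i j h hS hV hd hn hi hij hj
  have hr : (0 : ℝ) ≤ r := Nat.cast_nonneg _
  have hi0 : (0 : ℝ) < i := by exact_mod_cast (show 0 < i by omega)
  have h1 : i * (LL q C S V j - LL q C S V i) ≤ 2 * r * (j - i) := by
    induction j, hij using Nat.le_induction with
    | base => simp
    | succ k hk ih =>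
      have a1 := ih (by omega)
      have a2 := hAGA C Ω n q r b S V k k h.toSy hS hV hd (by omega) le_rfl (by omega)
      have a3 := hL0 C Ω n q r b V k h hV hn (by omega) (by omega)
      have a4 : (i : ℝ) ≤ k := by exact_mod_cast hk
      have a5 : i * (LL q C S V (k + 1) - LL q C S V k) ≤ 2 * r := by
        rcases le_total (LL q C S V (k + 1) - LL q C S V k) 0 with c | c
        · nlinarith
        · nlinarith
      push_cast
      linarith
  refine ⟨h1, le_of_mul_le_mul_left (h1.trans ?_) hi0⟩
  have a1 : (r : ℝ) ≤ i := by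
    have := h.hb
    exact_mod_cast (show r ≤ i by omega)
  have a2 : (i : ℝ) ≤ j := by exact_mod_cast hij
  nlinarith

end Pool.Agent.P.MP_a66f6f_co.Hv
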