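import Pool.Agent.P.MP_a66f6f_co.Hv.Iface

/-! Step MAIN. -/

namespace Pool.Agent.P.MP_a66f6f_co.Hv

open Finset Ped Pos

namespace MAINc

theorem far {n b m : ℕ} (hn : 1 ≤ n) (h3 : n ≤ 3 * b) (hm : 2 * n ≤ m)
    (h : b ^ 4 ≤ 10 ^ 9 * n ^ 3 * (m - 2 * n)) : (2 + 1 / (81 * 10 ^ 9) : ℝ) * n ≤ m := by
  obtain ⟨s, rfl⟩ := Nat.exists_eq_add_of_le hm
  rw [Nat.add_sub_cancel_left] at h
  have a1 : n ^ 4 ≤ (3 * b) ^ 4 := Nat.pow_le_pow_left h3 4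
  have a2 : n ^ 3 * n ≤ n ^ 3 * (81 * 10 ^ 9 * s) := by
    calc n ^ 3 * n = n ^ 4 := by ring
      _ ≤ (3 * b) ^ 4 := a1
      _ = 81 * b ^ 4 := by ring
      _ ≤ 81 * (10 ^ 9 * n ^ 3 * s) := Nat.mul_le_mul_left _ h
      _ = n ^ 3 * (81 * 10 ^ 9 * s) := by ring
  have a3 : n ≤ 81 * 10 ^ 9 * s := Nat.le_of_mul_le_mul_left a2 (by positivity)
  have a4 : (n : ℝ) ≤ 81 * 10 ^ 9 * s := by exact_mod_cast a3
  push_cast
  linarith

end MAINc

theorem p_MAIN (hTOP : S_TOP) (hHOM : S_HOM) (hSYS : S_SYS) (hNEAR : S_NEAR) :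
    S_MAIN := by
  intro κ k1 k2 hκ γ hγ
  obtain ⟨n₁, h₁⟩ := hTOP κ k1 k2 hκ γ (1 / (81 * 10 ^ 9)) hγ (by positivity)
  refine ⟨max n₁ 1, fun n m a b hn hm hb h => ?_⟩
  have n1 : 1 ≤ n := le_of_max_le_right hn
  have n2 : n₁ ≤ n := le_of_max_le_left hn
  have h3 : n ≤ 3 * b := by
    have a1 : (0 : ℝ) ≤ γ * n := by positivity
    have a2 : κ * b ≤ 2 * b := mul_le_mul_of_nonneg_right k2 (Nat.cast_nonneg _)
    have a3 : (n : ℝ) ≤ 3 * b := by linarith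
    exact_mod_cast a3
  have b1 : 1 ≤ b := by omega
  obtain ⟨r, hr⟩ : ∃ r, b + r = n := ⟨n - b, by omega⟩
  have hr' : (r : ℝ) + γ * n ≤ κ * b := by
    have : (b : ℝ) + r = n := by exact_mod_cast hr
    linarith
  have key : ∀ (l : ℕ) (Ω : Finset ℕ) (C : Finset ℕ → Finset ℕ), Ω.card = l →
      Sy C Ω n (a + 1) r b → 2 * n ≤ l → (a + 1) * l ≤ (C Ω).card + 2 * r := by
    intro l
    induction l using Nat.strong_induction_on with
    | _ l ih =>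
      intro Ω C e hC hl
      by_cases c : 10 ^ 9 * n ^ 3 * (l - 2 * n) < b ^ 4
      · have a1 := (hNEAR n l a b hl hb c).2 (show (C Ω).card ∈ _ from e ▸ hHOM C Ω n a r b hC b1)
        omega
      · by_contra hN
        refine h₁ C Ω n (a + 1) r b ⟨hC, fun X c1 c2 c3 => ?_, by rw [e]; omega⟩ n2 hr' ?_
        · exact ih X.card (e ▸ card_lt_card (ssubset_of_ne_of_subset c2 c1)) X C rfl
            ⟨hC.mono, hC.disj, fun Y d1 d2 => hC.big Y (d1.trans c1) d2, hC.hb⟩ c3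
        · rw [e]
          exact MAINc.far n1 h3 hl (not_lt.1 c)
  refine ⟨hom_of_col (by omega) (Col.stahl m n a b hm hb), fun N hN => ?_⟩
  obtain ⟨C, hC, e⟩ := hSYS m n N a r b n1 hr hN
  have := key m (range m) C (card_range m) hC hm
  omega

end Pool.Agent.P.MP_a66f6f_co.Hv
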