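import Pool.Agent.P.MP_a66f6f_co.Hv.Iface

/-! Step MIX. -/

namespace Pool.Agent.P.MP_a66f6f_co.Hv

open Finset Ped Pos

namespace MIXc

end MIXc

theorem p_MIX :
    S_MIX := by
  intro V P p
  rw [mu, sum_powerset]
  refine sum_congr rfl fun i hi => ?_
  have h : (V.card.choose i : ℝ) ≠ 0 :=
    Nat.cast_ne_zero.2 (Nat.choose_pos (Nat.lt_succ_iff.1 (mem_range.1 hi))).ne'
  rw [pr, av, mul_right_comm, mul_div_cancel₀ _ h, sum_mul]
  refine sum_congr rfl fun X hX => ?_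
  rw [(mem_powersetCard.1 hX).2, ind]
  split_ifs <;> simp

end Pool.Agent.P.MP_a66f6f_co.Hv
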