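import Pool.Agent.P.MP_a66f6f_co.Hv.Iface

/-! Step MUM. -/

namespace Pool.Agent.P.MP_a66f6f_co.Hv

open Finset Ped Pos

namespace MUMc

theorem one {p p' : ℝ} (h0 : 0 ≤ p) (h : p ≤ p') (h1 : p' ≤ 1) (V : Finset ℕ) :
    ∀ P : Finset ℕ → Prop, Up P → mu p V P ≤ mu p' V P := by
  induction V using Finset.induction_on with
  | empty =>
    intro P _
    simp [mu]
  | insert a V ha ih =>
    intro P hP
    have hQ : Up fun Y => P (insert a Y) := fun X Y e => hP _ _ (insert_subset_insert a e)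
    have a1 := ih P hP
    have a2 := ih _ hQ
    have a3 : mu p' V P ≤ mu p' V fun Y => P (insert a Y) :=
      mu_mono (h0.trans h) h1 V fun Y => hP _ _ (subset_insert a Y)
    rw [mu_insert p ha, mu_insert p' ha]
    have b1 := mul_le_mul_of_nonneg_left a1 (show 0 ≤ 1 - p by linarith)
    have b2 := mul_le_mul_of_nonneg_left a2 h0
    have b3 := mul_nonneg (sub_nonneg.2 h) (sub_nonneg.2 a3)
    nlinarith

theorem two {p : ℝ} (h0 : 0 ≤ p) (h1 : p ≤ 1) (V : Finset ℕ) {P : Finset ℕ → Prop} (hP : Up P)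
    (T : Finset ℕ) : mu p (V \ T) P ≤ mu p V P := by
  induction T using Finset.induction_on with
  | empty => rw [sdiff_empty]
  | insert x T _ ih =>
    rw [sdiff_insert]
    refine le_trans ?_ ih
    by_cases hx : x ∈ V \ T
    · rw [mu_erase p hx P]
      have : 0 ≤ inf p (V \ T) P x :=
        sub_nonneg.2 (mu_mono h0 h1 _ fun Y => hP _ _ (subset_insert x Y))
      have := mul_nonneg h0 this
      linarith
    · rw [erase_eq_of_notMem hx]

end MUMc

theorem p_MUM :
    S_MUM := fun V _ _ _ hP h0 h h1 =>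
  ⟨MUMc.one h0 h h1 V _ hP, MUMc.two h0 (h.trans h1) V hP⟩

end Pool.Agent.P.MP_a66f6f_co.Hv
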