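import Pool.Agent.P.MP_a66f6f_co.Hv.Iface

/-! Step PARS. -/

namespace Pool.Agent.P.MP_a66f6f_co.Hv

open Finset Ped Pos

namespace PARSc

theorem ev1 (p : ℝ) (l : List ℕ) (f : Finset ℕ → ℝ) :
    (PP p l f).eval 1 = ex p l (fun X => f X ^ 2) := by
  induction l generalizing f with
  | nil => simp [PP, ex]
  | cons x l ih =>
    simp only [PP, ex, Polynomial.eval_add, Polynomial.eval_mul, Polynomial.eval_C,
      Polynomial.eval_X, mul_one]
    rw [ih, ih, ← ex_mul, ← ex_add]
    congr 1
    funext X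
    simp only [ee, dd]
    ring

theorem ev0 (p : ℝ) (l : List ℕ) (f : Finset ℕ → ℝ) :
    (PP p l f).eval 0 = ex p l f ^ 2 := by
  induction l generalizing f with
  | nil => simp [PP, ex]
  | cons x l ih =>
    simp only [PP, ex, Polynomial.eval_add, Polynomial.eval_mul, Polynomial.eval_C,
      Polynomial.eval_X, mul_zero, zero_mul, add_zero]
    exact ih _

theorem cf (p : ℝ) (h0 : 0 ≤ p) (h1 : p ≤ 1) (l : List ℕ) (f : Finset ℕ → ℝ) (k : ℕ) :
    0 ≤ (PP p l f).coeff k := by
  induction l generalizing f k with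
  | nil =>
    simp only [PP, Polynomial.coeff_C]
    split_ifs
    · exact sq_nonneg _
    · exact le_rfl
  | cons x l ih =>
    simp only [PP, Polynomial.coeff_add, mul_assoc, Polynomial.coeff_C_mul]
    refine add_nonneg (ih _ _) (mul_nonneg h0 (mul_nonneg (sub_nonneg.2 h1) ?_))
    cases k with
    | zero => simp
    | succ k =>
      rw [Polynomial.coeff_X_mul]
      exact ih _ _

end PARSc

theorem p_PARS :
    S_PARS := by
  intro p l f h0 h1
  exact ⟨PARSc.ev1 p l f, PARSc.ev0 p l f, fun k => PARSc.cf p h0 h1 l f k⟩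

end Pool.Agent.P.MP_a66f6f_co.Hv
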