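import Pool.Agent.P.MP_a66f6f_co.Hv.Iface

/-! Step PIN. -/

namespace Pool.Agent.P.MP_a66f6f_co.Hv

open Finset Ped Pos

namespace PINc

theorem split (W : Finset ℕ) (x i : ℕ) (hx : x ∉ W) (f : Finset ℕ → ℝ) :
    ∑ X ∈ (insert x W).powersetCard (i + 1), f X =
      ∑ X ∈ W.powersetCard (i + 1), f X + ∑ Y ∈ W.powersetCard i, f (insert x Y) := by
  classical
  rw [powersetCard_succ_insert hx, sum_union, sum_image]
  · intro Y hY Z hZ h
    have hY' : x ∉ Y := fun h' => hx ((mem_powersetCard.1 hY).1 h')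
    have hZ' : x ∉ Z := fun h' => hx ((mem_powersetCard.1 hZ).1 h')
    have := congrArg (fun S => S.erase x) h
    simpa [erase_insert hY', erase_insert hZ'] using this
  · rw [disjoint_left]
    intro X hX hX'
    obtain ⟨Y, -, rfl⟩ := mem_image.1 hX'
    exact hx ((mem_powersetCard.1 hX).1 (mem_insert_self _ _))

end PINc

theorem p_PIN :
    S_PIN := by
  intro V x i f hx hi
  obtain ⟨W, hW, rfl⟩ : ∃ W : Finset ℕ, x ∉ W ∧ V = insert x W :=
    ⟨V.erase x, notMem_erase _ _, (insert_erase hx).symm⟩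
  rw [erase_insert hW]
  have hc : (insert x W).card = W.card + 1 := card_insert_of_notMem hW
  rw [hc] at hi
  unfold av
  rw [PINc.split W x i hW f, hc]
  set w := W.card with hw
  set A := ∑ X ∈ W.powersetCard (i + 1), f X with hA
  set B := ∑ Y ∈ W.powersetCard i, f (insert x Y) with hB
  have hiw : i ≤ w := by omega
  have h1 : ((w + 1 : ℕ) : ℝ) * (w.choose i : ℝ) = ((w + 1).choose (i + 1) : ℝ) * (i + 1) := by
    exact_mod_cast Nat.add_one_mul_choose_eq w i
  have p0 : (0 : ℝ) < ((w + 1).choose (i + 1) : ℝ) := by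
    exact_mod_cast Nat.choose_pos hi
  have p1 : (0 : ℝ) < (w.choose i : ℝ) := by
    exact_mod_cast Nat.choose_pos hiw
  have e1 : ((w + 1 : ℕ) : ℝ) * (B / ((w + 1).choose (i + 1) : ℝ)) =
      (i + 1) * (B / (w.choose i : ℝ)) := by
    field_simp
    linear_combination B * h1
  have e2 : ((w + 1 : ℕ) : ℝ) * (A / ((w + 1).choose (i + 1) : ℝ)) =
      (((w + 1 : ℕ) : ℝ) - (i + 1)) * (A / (w.choose (i + 1) : ℝ)) := by
    rcases Nat.lt_or_ge i w with h | h
    · have p2 : (0 : ℝ) < (w.choose (i + 1) : ℝ) := by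
        exact_mod_cast Nat.choose_pos h
      have h2 : (w.choose (i + 1) : ℝ) * ((w + 1 : ℕ) : ℝ) =
          ((w + 1).choose (i + 1) : ℝ) * ((w + 1 - (i + 1) : ℕ) : ℝ) := by
        exact_mod_cast Nat.choose_mul_succ_eq w (i + 1)
      rw [Nat.cast_sub hi] at h2
      field_simp
      push_cast at h2 ⊢
      linear_combination A * h2
    · have : A = 0 := by
        rw [hA, powersetCard_eq_empty.2 (by omega), sum_empty]
      simp [this]
  rw [add_div, mul_add, e1, e2]
  ring

end Pool.Agent.P.MP_a66f6f_co.Hv
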