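import Pool.Agent.P.MP_a66f6f_co.Hv.Iface

/-! Step PO. -/

namespace Pool.Agent.P.MP_a66f6f_co.Hv

open Finset Ped Pos

namespace POc

theorem ch (v k m : ℕ) (x : ℝ) (hv : 1 ≤ v) (h : k + m = v) (hx : x * v ≤ m) :
    x * (v.choose k : ℝ) ≤ ((v - 1).choose k : ℝ) := by
  obtain ⟨w, rfl⟩ : ∃ w, v = w + 1 := ⟨v - 1, by omega⟩
  have a1 := Nat.choose_mul_succ_eq w k
  rw [show w + 1 - k = m by omega] at a1
  have a2 : (w.choose k : ℝ) * ((w + 1 : ℕ) : ℝ) = ((w + 1).choose k : ℝ) * m := by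
    exact_mod_cast a1
  have a3 : (0 : ℝ) < ((w + 1 : ℕ) : ℝ) := by positivity
  have a4 : (0 : ℝ) ≤ ((w + 1).choose k : ℝ) := Nat.cast_nonneg _
  rw [Nat.add_sub_cancel]
  refine le_of_mul_le_mul_right ?_ a3
  rw [a2]
  nlinarith [mul_le_mul_of_nonneg_left hx a4]

end POc

theorem p_PO (hKKD : S_KKD) (hCPL : S_CPL) (hAVM : S_AVM) :
    S_PO := by
  intro V P i θ hP hi _ h1 h2
  have hab : pr V i P ≤ pr V (i + 1) P := hAVM V _ _ _ (ind_mono hP) (by omega) (by omega)
  have hbc : pr V (i + 1) P ≤ pr V (i + 2) P := hAVM V _ _ _ (ind_mono hP) (by omega) hi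
  have hv : (i + 2 : ℝ) ≤ V.card := by exact_mod_cast hi
  have hi0 : (0 : ℝ) ≤ i := Nat.cast_nonneg _
  by_cases c : pr V (i + 1) P * V.card ≤ i + 1
  · obtain ⟨j, hj⟩ : ∃ j, V.card = j + (i + 2) := ⟨V.card - (i + 2), by omega⟩
    have e1 : pr V (i + 1) P = pr V (j + 1) fun Y => P (V \ Y) := by
      have := hCPL V (i + 1) (ind P) (by omega)
      rw [show V.card - (i + 1) = j + 1 by omega] at this
      exact this
    have e2 : pr V (i + 2) P = pr V j fun Y => P (V \ Y) := by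
      have := hCPL V (i + 2) (ind P) hi
      rw [show V.card - (i + 2) = j by omega] at this
      exact this
    have k := hKKD V (fun Y => P (V \ Y)) j 1
      (fun X Y e h => hP _ _ (sdiff_subset_sdiff subset_rfl e) h) (by omega)
      (POc.ch V.card (j + 1) (i + 1) _ (by omega) (by omega) (by rw [← e1]; exact_mod_cast c))
    rw [← e1, ← e2] at k
    have hj' : (V.card : ℝ) = j + (i + 2) := by exact_mod_cast hj
    have k' : pr V (i + 1) P * (i + 2) ≤ pr V (i + 2) P * (i + 1) := by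
      have a1 : (V.card : ℝ) - j = i + 2 := by linarith
      rw [a1] at k
      push_cast at k
      linarith
    nlinarith [mul_le_mul_of_nonneg_right (show (i + 1 : ℝ) ≤ V.card by linarith)
      (sub_nonneg.2 hbc), mul_nonneg (show (0 : ℝ) ≤ V.card by linarith) (sub_nonneg.2 hab)]
  · push Not at c
    obtain ⟨m, hm⟩ : ∃ m, V.card = i + 1 + m := ⟨V.card - (i + 1), by omega⟩
    have hm' : (V.card : ℝ) = i + 1 + m := by exact_mod_cast hm
    have k := hKKD V (fun Y => ¬ P Y) i 1 (fun X Y e h h' => h (hP _ _ e h')) (by omega)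
      (POc.ch V.card (i + 1) m _ (by omega) hm.symm
        (by rw [pr_not (by omega)]; linarith))
    rw [pr_not (by omega), pr_not (by omega)] at k
    push_cast at k
    nlinarith [mul_le_mul_of_nonneg_right (show (V.card : ℝ) - i - 1 ≤ V.card by linarith)
      (sub_nonneg.2 hab), mul_nonneg (show (0 : ℝ) ≤ V.card by linarith) (sub_nonneg.2 hbc)]

end Pool.Agent.P.MP_a66f6f_co.Hv
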