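import Pool.Agent.P.MP_a66f6f_co.Hv.Iface

/-! Step POLY. -/

namespace Pool.Agent.P.MP_a66f6f_co.Hv

open Finset Ped Pos

namespace POLYc

theorem term (D k : ℕ) (hD : 1 ≤ D) :
    (1 : ℝ) ≤ 5 ^ D * ((k + 1) * (1 / 5) ^ k) + (k + 1) / D := by
  have hD' : (0 : ℝ) < D := by exact_mod_cast hD
  have hk : (0 : ℝ) ≤ k := Nat.cast_nonneg k
  rcases le_or_gt k D with h | h
  · have h1 : (1 : ℝ) ≤ 5 ^ D * (1 / 5) ^ k := by
      rw [one_div, inv_pow, ← div_eq_mul_inv, le_div_iff₀ (by positivity), one_mul]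
      exact pow_le_pow_right₀ (by norm_num) h
    have h2 : (0 : ℝ) ≤ (k + 1) / D := by positivity
    nlinarith
  · have h1 : (1 : ℝ) ≤ (k + 1) / D := by
      rw [le_div_iff₀ hD', one_mul]
      have : (D : ℝ) ≤ k := by exact_mod_cast h.le
      linarith
    have h2 : (0 : ℝ) ≤ 5 ^ D * ((k + 1) * (1 / 5) ^ k) := by positivity
    linarith

end POLYc

theorem p_POLY :
    S_POLY := by
  intro P D hD hc
  have hd : (Polynomial.derivative P).natDegree < P.natDegree + 1 :=
    Nat.lt_succ_of_le ((Polynomial.natDegree_derivative_le P).trans (Nat.sub_le _ _))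
  have hp : P.natDegree < P.natDegree + 1 + 1 := by omega
  rw [Polynomial.eval_eq_sum_range' hd, Polynomial.eval_eq_sum_range' hd,
    Polynomial.eval_eq_sum_range' hp 1, sum_range_succ', ← Polynomial.coeff_zero_eq_eval_zero,
    pow_zero, mul_one, add_sub_cancel_right, mul_sum, sum_div, ← sum_add_distrib]
  refine sum_le_sum fun k _ => ?_
  rw [Polynomial.coeff_derivative, one_pow, one_pow, mul_one, mul_one]
  have h := mul_le_mul_of_nonneg_left (POLYc.term D k hD) (hc (k + 1))
  calc P.coeff (k + 1) = P.coeff (k + 1) * 1 := (mul_one _).symm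
    _ ≤ _ := h
    _ = _ := by ring

end Pool.Agent.P.MP_a66f6f_co.Hv
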