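import Pool.Agent.P.MP_a66f6f_co.Hv.Iface

/-! Step PT. -/

namespace Pool.Agent.P.MP_a66f6f_co.Hv

open Finset Ped Pos

namespace PTc

theorem charge {C : Finset ℕ → Finset ℕ} (hm : ∀ X Y, X ⊆ Y → C X ⊆ C Y) (S X : Finset ℕ) :
    ∃ d : ℕ → ℕ, (C (S ∪ X)).card = ∑ x ∈ X, d x +
        ((C (S ∪ X)).filter fun c => ∀ x ∈ X, c ∈ C (S ∪ X.erase x)).card ∧
      ∀ B, B ⊆ X → (C (S ∪ B)).card ≤ ∑ x ∈ B, d x +
        ((C (S ∪ X)).filter fun c => ∀ x ∈ X, c ∈ C (S ∪ X.erase x)).card := by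
  have h : ∀ c : ℕ, ∃ y : ℕ, (¬ ∀ x ∈ X, c ∈ C (S ∪ X.erase x)) →
      y ∈ X ∧ c ∉ C (S ∪ X.erase y) := by
    intro c
    by_cases e : ∀ x ∈ X, c ∈ C (S ∪ X.erase x)
    · exact ⟨0, fun a => absurd e a⟩
    · push Not at e
      obtain ⟨y, a1, a2⟩ := e
      exact ⟨y, fun _ => ⟨a1, a2⟩⟩
  choose φ hφ using h
  set N := (C (S ∪ X)).filter fun c => ¬ ∀ x ∈ X, c ∈ C (S ∪ X.erase x) with hN
  set F := (C (S ∪ X)).filter fun c => ∀ x ∈ X, c ∈ C (S ∪ X.erase x) with hF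
  refine ⟨fun x => (N.filter fun c => φ c = x).card, ?_, fun B hB => ?_⟩
  · have a1 : N.card = ∑ x ∈ X, (N.filter fun c => φ c = x).card :=
      card_eq_sum_card_fiberwise fun c hc => (hφ c (mem_filter.1 hc).2).1
    have a2 : F.card + N.card = (C (S ∪ X)).card := card_filter_add_card_filter_not _
    rw [← a2, a1, add_comm]
  · have a1 : C (S ∪ B) ⊆ (B.biUnion fun x => N.filter fun c => φ c = x) ∪ F := by
      intro c hc
      have c1 : c ∈ C (S ∪ X) := hm _ _ (union_subset_union_right hB) hc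
      by_cases e : ∀ x ∈ X, c ∈ C (S ∪ X.erase x)
      · exact mem_union_right _ (mem_filter.2 ⟨c1, e⟩)
      · refine mem_union_left _ (mem_biUnion.2 ⟨φ c, ?_, mem_filter.2 ⟨mem_filter.2 ⟨c1, e⟩, rfl⟩⟩)
        by_contra c2
        exact (hφ c e).2 (hm _ _ (union_subset_union_right (subset_erase.2 ⟨hB, c2⟩)) hc)
    exact (card_le_card a1).trans ((card_union_le _ _).trans
      (Nat.add_le_add_right card_biUnion_le _))

end PTc

theorem p_PT (hBEST : S_BEST) :
    S_PT := by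
  intro C Ω n q r b S X h hS hX hd h1 h2
  obtain ⟨d, d1, d2⟩ := PTc.charge h.mono S X
  set I := ((C (S ∪ X)).filter fun c => ∀ x ∈ X, c ∈ C (S ∪ X.erase x)).card with hI
  have hZ : (ZZ q C S X : ℝ) = I - q * S.card := by
    rw [ZZ, ← hI]
    push_cast
    rfl
  set u : ℕ → ℝ := fun x => q - d x with hu
  have su : ∀ B : Finset ℕ, ∑ x ∈ B, u x = q * B.card - ((∑ x ∈ B, d x : ℕ) : ℝ) := by
    intro B
    simp only [hu, sum_sub_distrib, sum_const, nsmul_eq_mul, Nat.cast_sum]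
    ring
  have e1 : el q C (S ∪ X) + ZZ q C S X = ∑ x ∈ X, u x := by
    rw [su, hZ, el, card_union_of_disjoint hd, d1]
    push_cast
    ring
  have e2 : ∀ B, B ⊆ X → B.card = n - S.card → ∑ x ∈ B, u x ≤ r + ZZ q C S X := by
    intro B hB hc
    have a1 : (S ∪ B).card = n := by
      rw [card_union_of_disjoint (hd.mono_right hB), hc]
      omega
    have a2 := h.big _ (union_subset hS (hB.trans hX)) a1
    have a3 := d2 B hB
    have a4 : q * n ≤ ∑ x ∈ B, d x + I + r := by omega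
    have a5 : (q * n : ℝ) ≤ ((∑ x ∈ B, d x : ℕ) : ℝ) + I + r := by exact_mod_cast a4
    have a6 : (B.card : ℝ) = n - S.card := by rw [hc, Nat.cast_sub h1]
    rw [su, hZ, a6]
    linarith
  set T := X.filter fun x => d x < q with hT
  have t1 : ∀ x ∈ T, 1 ≤ u x := by
    intro x hx
    have : (d x + 1 : ℝ) ≤ q := by exact_mod_cast (mem_filter.1 hx).2
    simp only [hu]
    linarith
  have t2 : ∀ B, T ⊆ B → B ⊆ X → ∑ x ∈ X, u x ≤ ∑ x ∈ B, u x := by
    intro B b1 b2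
    rw [← sum_sdiff b2]
    have : ∑ x ∈ X \ B, u x ≤ 0 := by
      refine sum_nonpos fun x hx => ?_
      rw [mem_sdiff] at hx
      have c1 : ¬ d x < q := fun c => hx.2 (b1 (mem_filter.2 ⟨hx.1, c⟩))
      have : (q : ℝ) ≤ d x := by exact_mod_cast not_lt.1 c1
      simp only [hu]
      linarith
    linarith
  have tX : T ⊆ X := filter_subset _ _
  by_cases c : T.card ≤ n - S.card
  · obtain ⟨B, b1, b2, b3⟩ := exists_subsuperset_card_eq tX c (by omega)
    left
    have := t2 B b1 b2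
    have := e2 B b2 b3
    linarith
  · right
    obtain ⟨B, b1, b2, b3⟩ := hBEST T u (n - S.card) (by omega)
    have a1 := e2 B (b1.trans tX) b2
    have a2 : (B.card : ℝ) ≤ ∑ x ∈ B, u x := by
      have := card_nsmul_le_sum B u 1 fun x hx => t1 x (b1 hx)
      simpa using this
    have a6 : ((n - S.card : ℕ) : ℝ) = n - S.card := Nat.cast_sub h1
    have a7 : (b + r : ℝ) = n := by exact_mod_cast h.hb
    rw [b2, a6] at a2
    rw [a6] at b3
    have a8 : (0 : ℝ) ≤ n - S.card := by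
      rw [← a6]
      exact Nat.cast_nonneg _
    refine ⟨by linarith, ?_⟩
    have a9 := t2 T Subset.rfl tX
    have a10 : (T.card : ℝ) ≤ X.card := by exact_mod_cast card_le_card tX
    have a11 : (0 : ℝ) ≤ T.card := Nat.cast_nonneg _
    rw [e1]
    calc (n - S.card : ℝ) * ∑ x ∈ X, u x ≤ (n - S.card) * ∑ x ∈ T, u x :=
          mul_le_mul_of_nonneg_left a9 a8
      _ ≤ T.card * ∑ x ∈ B, u x := b3
      _ ≤ X.card * (r + ZZ q C S X) :=
          mul_le_mul a10 a1 (by linarith) (Nat.cast_nonneg _)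

end Pool.Agent.P.MP_a66f6f_co.Hv
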