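import Pool.Agent.P.MP_a66f6f_co.Hv.Iface

/-! Step PT2. -/

namespace Pool.Agent.P.MP_a66f6f_co.Hv

open Finset Ped Pos

theorem p_PT2 (hPT : S_PT) :
    S_PT2 := by
  intro C Ω n q r b S X h hS hX hd h3 hn hnX hne
  refine (hPT C Ω n q r b S X h.toSy hS hX hd (by omega) (by omega)).imp_right fun ⟨a, c⟩ => ⟨a, ?_⟩
  have m0 := le_max_right (ZZ q C S X : ℝ) 0
  have m1 := le_max_left (ZZ q C S X : ℝ) 0
  have r0 : (0 : ℝ) ≤ r := Nat.cast_nonneg _
  by_cases e : 2 * n ≤ (S ∪ X).card
  · have : (q * (S ∪ X).card : ℝ) ≤ (C (S ∪ X)).card + 2 * r := by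
      exact_mod_cast h.small _ (union_subset hS hX) hne e
    rw [el]; linarith
  · rw [card_union_of_disjoint hd] at e
    have e1 : (X.card : ℝ) ≤ 3 * (n - S.card) := by
      have : X.card + 3 * S.card ≤ 3 * n := by omega
      have : (X.card + 3 * S.card : ℝ) ≤ 3 * n := by exact_mod_cast this
      linarith
    have e2 : (0 : ℝ) < n - S.card := by
      have : S.card < n := by omega
      have : (S.card : ℝ) < n := by exact_mod_cast this
      linarith
    have e3 : (b + r : ℝ) = n := by exact_mod_cast h.hb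
    have e4 : (n - S.card) * (el q C (S ∪ X) + ZZ q C S X) ≤
        (n - S.card) * (3 * (r + ZZ q C S X)) := by
      refine c.trans ?_
      rw [← mul_assoc, mul_comm _ (3 : ℝ)]
      exact mul_le_mul_of_nonneg_right e1 (by linarith)
    have := le_of_mul_le_mul_left e4 e2
    linarith

end Pool.Agent.P.MP_a66f6f_co.Hv
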