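import Pool.Agent.P.MP_a66f6f_co.Hv.Iface

/-! Step PT3. -/

namespace Pool.Agent.P.MP_a66f6f_co.Hv

open Finset Ped Pos

theorem p_PT3 (hPT : S_PT) :
    S_PT3 := by
  intro C Ω n q r b U X h hU hX hd hUn hXn hY hZ
  have hs : U ∪ X ⊆ Ω := union_subset hU hX
  have a1 : el q C (Ω \ (U ∪ X)) ≤ r := by
    rcases hPT C Ω n q r b ∅ (Ω \ (U ∪ X)) h.toSy (empty_subset _) sdiff_subset
      (disjoint_empty_left _) (by simp) (by simpa using hY) with c | c
    · rwa [empty_union] at c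
    · have c1 := c.1
      have c2 : ((ZZ q C ∅ (Ω \ (U ∪ X)) : ℤ) : ℝ) < b := by exact_mod_cast hZ
      rw [card_empty, Nat.cast_zero, sub_zero] at c1
      linarith
  have a2 : (C (U ∪ X)).card + (C (Ω \ (U ∪ X))).card ≤ (C Ω).card := by
    rw [← card_union_of_disjoint (h.disj _ _ disjoint_sdiff)]
    exact card_le_card (union_subset (h.mono _ _ hs) (h.mono _ _ sdiff_subset))
  have a3 : (Ω \ (U ∪ X)).card + (U ∪ X).card = Ω.card := card_sdiff_add_card_eq_card hs
  have b2 : ((C (U ∪ X)).card : ℝ) + (C (Ω \ (U ∪ X))).card ≤ (C Ω).card := by exact_mod_cast a2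
  have b3 : ((Ω \ (U ∪ X)).card : ℝ) + (U ∪ X).card = Ω.card := by exact_mod_cast a3
  have b4 : ((C Ω).card : ℝ) + 2 * r < q * Ω.card := by exact_mod_cast h.bad
  rcases hPT C Ω n q r b U X h.toSy hU hX hd hUn (by omega) with c | c
  · rw [el] at a1 c
    rw [← b3, mul_add] at b4
    linarith
  · exact c.1

end Pool.Agent.P.MP_a66f6f_co.Hv
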