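import Pool.Agent.P.MP_a66f6f_co.Hv.Iface

/-! Step RISE. -/

namespace Pool.Agent.P.MP_a66f6f_co.Hv

open Finset Ped Pos

namespace RISEc

theorem deriv_le {f : ℝ → ℝ} {a p q B : ℝ} (hf : HasDerivAt f a p) (hpq : p < q)
    (h : ∀ g, p ≤ g → g ≤ q → f g - f p ≤ B * (g - p)) : a ≤ B := by
  have ht := (hasDerivAt_iff_tendsto_slope_left_right.1 hf).2
  refine le_of_tendsto ht ?_
  filter_upwards [Ioo_mem_nhdsGT hpq] with g hg
  have h1 : 0 < g - p := sub_pos.2 hg.1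
  rw [slope_def_field, div_le_iff₀ h1]
  exact h g hg.1.le hg.2.le

end RISEc

theorem p_RISE :
    S_RISE := by
  intro f f' p₁ p₂ B hp hf hb hB
  have hc : Continuous fun p => f p - B * p :=
    (continuous_iff_continuousAt.2 fun p => (hf p).continuousAt).sub
      (continuous_const.mul continuous_id)
  obtain ⟨p, hpI, hmax⟩ := (isCompact_Icc (a := p₁) (b := p₂)).exists_isMaxOn
    (Set.nonempty_Icc.2 hp.le) hc.continuousOn
  have hB0 : 0 < B := by
    by_contra h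
    have : B * (p₂ - p₁) ≤ 0 := mul_nonpos_of_nonpos_of_nonneg (not_lt.1 h) (sub_pos.2 hp).le
    linarith
  have h1 : f p₁ - B * p₁ ≤ f p - B * p := hmax (Set.left_mem_Icc.2 hp.le)
  have h2 := (hb p hpI.1 hpI.2).2
  have h3 := (hb p₁ le_rfl hp.le).1
  have hmid : 2 * p ≤ p₁ + p₂ := by
    by_contra h
    have : 0 < B * (2 * p - (p₁ + p₂)) := mul_pos hB0 (by linarith)
    nlinarith
  have hg : ∀ g, p ≤ g → g ≤ p₂ → f g - f p ≤ B * (g - p) := by
    intro g h4 h5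
    have : f g - B * g ≤ f p - B * p := hmax ⟨hpI.1.trans h4, h5⟩
    linarith
  exact ⟨p, hpI.1, hmid, RISEc.deriv_le (hf p) (by linarith) hg, hg⟩

end Pool.Agent.P.MP_a66f6f_co.Hv
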