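import Pool.Agent.P.MP_a66f6f_co.Hv.Iface

/-! Step RUS. -/

namespace Pool.Agent.P.MP_a66f6f_co.Hv

open Finset Ped Pos

namespace RUSc

theorem inf_self (p : ℝ) {V : Finset ℕ} {a : ℕ} (ha : a ∉ V) (P : Finset ℕ → Prop) :
    inf p (insert a V) P a = mu p V (fun Y => P (insert a Y)) - mu p V P := by
  rw [inf, erase_insert ha]

theorem inf_other (p : ℝ) {V : Finset ℕ} {a x : ℕ} (ha : a ∉ V) (hx : x ∈ V)
    (P : Finset ℕ → Prop) :
    inf p (insert a V) P x =
      (1 - p) * inf p V P x + p * inf p V (fun Y => P (insert a Y)) x := by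
  have hne : a ≠ x := fun h => ha (h ▸ hx)
  have h1 : (insert a V).erase x = insert a (V.erase x) := erase_insert_of_ne hne
  have h2 : a ∉ V.erase x := fun h => ha (mem_of_mem_erase h)
  have h3 : (fun Y => P (insert x (insert a Y))) = fun Y => P (insert a (insert x Y)) := by
    funext Y
    rw [insert_comm]
  unfold inf
  rw [h1, mu_insert p h2, mu_insert p h2]
  simp only [h3]
  ring

theorem mu_emp (p : ℝ) (P : Finset ℕ → Prop) : mu p (∅ : Finset ℕ) P = mu 0 ∅ P := by
  simp [mu]

end RUSc

open RUSc in
theorem p_RUS :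
    S_RUS := by
  intro V
  induction V using Finset.induction_on with
  | empty =>
    intro P p
    have : (fun p => mu p (∅ : Finset ℕ) P) = fun _ => mu 0 ∅ P := funext fun q => mu_emp q P
    rw [this, sum_empty]
    exact hasDerivAt_const _ _
  | insert a V ha ih =>
    intro P p
    have e : (fun p => mu p (insert a V) P) =
        fun p => (1 - p) * mu p V P + p * mu p V fun Y => P (insert a Y) :=
      funext fun q => mu_insert q ha P
    rw [e, sum_insert ha, inf_self p ha, sum_congr rfl fun x hx => inf_other p ha hx P,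
      sum_add_distrib, ← mul_sum, ← mul_sum]
    have d1 : HasDerivAt (fun q : ℝ => 1 - q) (-1) p := by
      simpa using (hasDerivAt_id p).const_sub 1
    have := (d1.fun_mul (ih P p)).fun_add
      ((hasDerivAt_id' p).fun_mul (ih (fun Y => P (insert a Y)) p))
    refine this.congr_deriv ?_
    ring

end Pool.Agent.P.MP_a66f6f_co.Hv
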