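import Pool.Agent.P.MP_a66f6f_co.Hv.Iface

/-! Step S0V. -/

namespace Pool.Agent.P.MP_a66f6f_co.Hv

open Finset Ped Pos

theorem p_S0V (hTR : S_TR) (hS0F : S_S0F) :
    S_S0V := by
  intro κ hκ hK V g j hg hd h2 hj
  obtain ⟨e, h1, hs, ht⟩ := hTR V
  have key := hS0F κ hκ hK V.card (fun Y => g (Y.map e)) j
    (fun X Y hXY => hg _ _ (map_subset_map.2 hXY))
    (fun X Y a b c => hd _ _ a b ((disjoint_map e).2 c)) h2 hj
  have hD : (fun Y : Finset (Fin V.card) => Dead V g (Y.map e)) =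
      Ins0 (fun Y : Finset (Fin V.card) => g (Y.map e)) := by
    funext Y
    refine propext (and_congr Iff.rfl ⟨fun h i => ?_, fun h y hy => ?_⟩)
    · show ¬ g ((insert i Y).map e)
      rw [map_insert]
      exact h _ (h1 i)
    · obtain ⟨x, rfl⟩ := hs y hy
      rw [← map_insert]
      exact h x
  rw [ht (Dead V g) j (by omega), ht g j (by omega), ht g (j + 1) (by omega), hD]
  exact key

end Pool.Agent.P.MP_a66f6f_co.Hv
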