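import Pool.Agent.P.MP_a66f6f_co.Hv.Iface

/-! Step S1F. -/

namespace Pool.Agent.P.MP_a66f6f_co.Hv

open Finset Ped Pos
open scoped symmDiff

namespace S1Fc

variable {m : ℕ}

open Classical in
theorem cube {κ : ℝ} (hk : 0 ≤ κ) (kp : KP κ) {g g' : Finset (Fin m) → Prop} {i j : ℕ}
    (h : Up g) (h1 : ∀ X, g' X → g X) (h2 : ∀ X Y, g' X → g Y → ¬ Disjoint X Y)
    (e : 2 * i ≤ m) (σ : Equiv.Perm (Fin m)) :
    ∃ y : Finset ℕ → ℝ, (∀ T, y T ≤ ∑ t ∈ range i, (if ¬ g (pull σ (qq i (T ∆ {t}))) ∧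
        g (pull σ (insert (ot i (T ∆ {t}) t) (qq i (T ∆ {t})))) then (1 : ℝ) else 0) ∧
      y T ≤ (if g (pull σ (qq i T)) then (1 : ℝ) else 0) -
          if Ins1 g (pull σ (qq i T)) then (1 : ℝ) else 0) ∧
      (1 + κ) * ∑ T ∈ (range i).powerset, ((if g (pull σ (qq i T)) then (1 : ℝ) else 0) +
        (if g' (pull σ (qq i T ∪ Ico (2 * i) (i + j))) then (1 : ℝ) else 0) -
        if g (pull σ (qq i T ∪ Ico (2 * i) (i + j))) then (1 : ℝ) else 0) ≤
      ∑ T ∈ (range i).powerset, (∑ t ∈ range i, (if ¬ g (pull σ (qq i (T ∆ {t}))) ∧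
        g (pull σ (insert (ot i (T ∆ {t}) t) (qq i (T ∆ {t})))) then (1 : ℝ) else 0) +
        κ * y T) := by
  obtain ⟨A, hA⟩ : ∃ A : Finset ℕ → Prop, A = fun T => g (pull σ (qq i T)) := ⟨_, rfl⟩
  obtain ⟨B, hB⟩ : ∃ B : Finset ℕ → Prop,
      B = fun T => A T ∧ g' (pull σ (qq i T ∪ Ico (2 * i) (i + j))) := ⟨_, rfl⟩
  have a0 : ∀ T, A T → (hh (range i) A T : ℝ) ≤ ∑ t ∈ range i,
      (if ¬ g (pull σ (qq i (T ∆ {t}))) ∧
        g (pull σ (insert (ot i (T ∆ {t}) t) (qq i (T ∆ {t})))) then (1 : ℝ) else 0) :=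
    fun T c => by
      rw [hA] at c ⊢
      refine hh_le _ fun t _ d => ⟨d, h _ _ (pull_mono σ ?_) c⟩
      have := flip_sub (j := i) (t := t) (T ∆ {t})
      rwa [Pos.flip_flip] at this
  refine ⟨fun T => if A T ∧ hh (range i) A T ≠ 0 then 1 else 0, fun T => ⟨?_, ?_⟩, ?_⟩
  · dsimp only
    by_cases c : A T ∧ hh (range i) A T ≠ 0
    · rw [if_pos c]
      exact le_trans (by exact_mod_cast Nat.pos_of_ne_zero c.2) (a0 T c.1)
    · rw [if_neg c]
      exact sum_nonneg fun _ _ => ite_nn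
  · dsimp only
    by_cases c : A T ∧ hh (range i) A T ≠ 0
    · rw [if_pos c]
      obtain ⟨t, ht⟩ := hh_ne c.2
      rw [mem_range] at ht
      have d3 : it i T t < m := by unfold it; split_ifs <;> omega
      rw [hA] at c ht
      rw [if_pos c.1, if_neg, sub_zero]
      refine fun d2 => absurd (h _ _ ?_ (d2.2 (σ.symm ⟨_, d3⟩))) ht.2
      rw [← pull_erase]
      exact pull_mono σ (sub_flip T)
    · rw [if_neg c]
      exact sub_nonneg.2 (ite_le fun d => d.1)
  have a1 : ∑ T ∈ (range i).powerset, ind A (range i \ T) = ∑ T ∈ (range i).powerset, ind A T :=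
    sum_bij' (fun Y _ => range i \ Y) (fun Y _ => range i \ Y) (by simp) (by simp)
      (fun Y hY => Finset.sdiff_sdiff_eq_self (mem_powerset.1 hY))
      (fun Y hY => Finset.sdiff_sdiff_eq_self (mem_powerset.1 hY)) fun Y _ => rfl
  have a2 := kp (range i) A (∑ T ∈ (range i).powerset, ind B T)
    (sum_le_sum fun T _ => ind_le fun c => (hB ▸ c : A T ∧ _).1) (by
      rw [le_sub_iff_add_le, ← a1, ← sum_add_distrib]
      refine (sum_le_card_nsmul _ _ 1 fun T _ => ?_).trans (by simp)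
      by_cases c : B T
      · rw [ind_neg (P := A), add_zero]
        · exact ind_le_one _ _
        rw [hB] at c
        rw [hA]
        refine fun d => h2 _ _ c.2 d (pull_disj σ (disjoint_union_left.2 ⟨qq_disj i T, ?_⟩))
        refine disjoint_left.2 fun x c1 c2 => ?_
        rw [mem_qq] at c2
        rw [mem_Ico] at c1
        omega
      · rw [ind_neg c, zero_add]
        exact ind_le_one _ _)
  refine le_trans (mul_le_mul_of_nonneg_left (sum_le_sum fun T _ => ?_) (by linarith))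
    (a2.trans (sum_le_sum fun T _ => ?_))
  · have b1 : g (pull σ (qq i T)) → g (pull σ (qq i T ∪ Ico (2 * i) (i + j))) :=
      h _ _ (pull_mono σ subset_union_left)
    have b2 := h1 (pull σ (qq i T ∪ Ico (2 * i) (i + j)))
    rw [hB, hA, ind]
    by_cases c1 : g (pull σ (qq i T)) <;>
      by_cases c2 : g' (pull σ (qq i T ∪ Ico (2 * i) (i + j))) <;>
      by_cases c3 : g (pull σ (qq i T ∪ Ico (2 * i) (i + j))) <;> simp_all
  · by_cases c : A T
    · rw [if_pos c]
      refine add_le_add (a0 T c) (mul_le_mul_of_nonneg_left ?_ hk)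
      by_cases d : hh (range i) A T = 0 <;> simp [c, d]
    · rw [if_neg c]
      exact add_nonneg (sum_nonneg fun _ _ => ite_nn) (mul_nonneg hk ite_nn)

end S1Fc

open Classical in
theorem p_S1F : S_S1F := by
  intro κ hk kp m g g' i j h _ h1 h2 e1 e2
  have e : 2 * i ≤ m := by omega
  have hp : (0 : ℝ) < 2 ^ i := by positivity
  choose y y1 y2 using fun σ => S1Fc.cube (j := j) hk kp h h1 h2 e σ
  have a0 : ∀ P : Finset (Fin m) → Prop, ∑ σ : Equiv.Perm (Fin m), ∑ T ∈ (range i).powerset,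
      (if P (pull σ (qq i T ∪ Ico (2 * i) (i + j))) then (1 : ℝ) else 0) =
      2 ^ i * (fac m * den P j) := fun P => by
    rw [sum_comm, sum_congr rfl (g := fun _ => fac m * den P j) fun T _ => by
      have b1 := cnt_eq P (X := qq i T ∪ Ico (2 * i) (i + j)) (union_subset (qq_sub e T)
        fun x hx => by rw [mem_Ico] at hx; rw [mem_range]; omega)
      rwa [card_union_of_disjoint (disjoint_left.2 fun x c2 c1 => by
        rw [mem_qq] at c2
        rw [mem_Ico] at c1
        omega), card_qq, Nat.card_Ico, show i + (i + j - 2 * i) = j by omega] at b1]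
    simp
  have a1 : ∑ σ : Equiv.Perm (Fin m), ∑ T ∈ (range i).powerset, ∑ t ∈ range i,
      (if ¬ g (pull σ (qq i (T ∆ {t}))) ∧
        g (pull σ (insert (ot i (T ∆ {t}) t) (qq i (T ∆ {t})))) then (1 : ℝ) else 0) =
      2 ^ i * (i * (fac m * (den g (i + 1) - den g i))) := by
    rw [sum_comm, sum_congr rfl (g := fun _ => i * (fac m * (den g (i + 1) - den g i)))
      fun T _ => by
        rw [sum_comm, sum_congr rfl fun t ht => cnt_piv h (qq_sub e _)
          (ot_lt e _ (mem_range.1 ht)) (ot_not _ (mem_range.1 ht))]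
        simp [card_qq]]
    simp
  have a2 := sum_le_sum fun σ (_ : σ ∈ univ) => y2 σ
  have a3 := sum_le_sum fun σ (_ : σ ∈ univ) =>
    sum_le_sum fun T (_ : T ∈ (range i).powerset) => (y1 σ T).1
  have a4 := sum_le_sum fun σ (_ : σ ∈ univ) =>
    sum_le_sum fun T (_ : T ∈ (range i).powerset) => (y1 σ T).2
  simp only [sum_add_distrib, sum_sub_distrib, ← mul_sum] at a2 a4
  rw [a1, a0, a0, sum_cnt e] at a2
  rw [a1] at a3
  rw [sum_cnt e, sum_cnt e] at a4
  have a5 := mul_pos hp (fac_pos m)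
  constructor
  · refine le_of_mul_le_mul_left (le_of_mul_le_mul_left ?_ (show 0 < 1 + κ by linarith)) a5
    nlinarith [mul_le_mul_of_nonneg_left a3 hk]
  · refine le_of_mul_le_mul_left ?_ a5
    nlinarith [mul_le_mul_of_nonneg_left a4 hk]

end Pool.Agent.P.MP_a66f6f_co.Hv
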