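import Pool.Agent.P.MP_a66f6f_co.Hv.Iface

/-! Step S1V. -/

namespace Pool.Agent.P.MP_a66f6f_co.Hv

open Finset Ped Pos

namespace S1Vc

theorem rob {m : ℕ} (e : Fin m ↪ ℕ) (g : Finset ℕ → Prop) :
    (fun Y : Finset (Fin m) => Rob g (Y.map e)) = Ins1 fun Y : Finset (Fin m) => g (Y.map e) := by
  funext Y
  refine propext ⟨fun h => ⟨h.1, fun k => ?_⟩, fun h => ⟨h.1, fun x hx => ?_⟩⟩
  · by_cases c : k ∈ Y
    · have := h.2 _ (mem_map_of_mem e c)
      rw [← map_erase] at this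
      exact this
    · rw [erase_eq_of_notMem c]
      exact h.1
  · obtain ⟨k, _, rfl⟩ := mem_map.1 hx
    rw [← map_erase]
    exact h.2 k

end S1Vc

theorem p_S1V (hTR : S_TR) (hS1F : S_S1F) :
    S_S1V := by
  intro κ h0 hK V g g' i j u u' hg hd h1 h2 h3
  obtain ⟨e, e1, -, e3⟩ := hTR V
  have sub : ∀ Y : Finset (Fin V.card), Y.map e ⊆ V := fun Y x hx => by
    obtain ⟨k, _, rfl⟩ := mem_map.1 hx
    exact e1 k
  rw [e3 g i (by omega), e3 g' j (by omega), e3 g j (by omega), e3 g (i + 1) (by omega),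
    e3 (Rob g) i (by omega), S1Vc.rob]
  exact hS1F κ h0 hK _ _ _ i j (fun X Y c => u _ _ (map_subset_map.2 c))
    (fun X Y c => u' _ _ (map_subset_map.2 c)) (fun X => hg _)
    (fun X Y a b c => hd _ _ (sub X) (sub Y) a b ((disjoint_map e).2 c)) h2 h3

end Pool.Agent.P.MP_a66f6f_co.Hv
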