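import Pool.Agent.P.MP_a66f6f_co.Hv.Iface

/-! Step STEP. -/

namespace Pool.Agent.P.MP_a66f6f_co.Hv

open Finset Ped Pos

namespace STEPc

theorem num (ε n J K d : ℝ) (h0 : 0 < ε) (h1 : ε ≤ 1 / 7) (hK : 0 ≤ K)
    (hn : 1000 * (K + 4) ≤ ε ^ 2 * n) (hJ : (1 + ε / 4) * n ≤ J) (hd : d ≤ ε / 100 * (2 * J) + 1) :
    n + 3 * d + K + 1 ≤ J ∧ 2 * J ≤ 3 * (J - K - 1 - 3 * d) ∧
      24 * d ≤ ε * (J - K - 1 - 3 * d) := by
  have a0 : 0 < n := by
    by_contra c
    push Not at c
    nlinarith [mul_nonneg (sq_nonneg ε) (neg_nonneg.2 c)]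
  have a1 : 0 < ε * n := mul_pos h0 a0
  have a2 : ε ^ 2 * n ≤ ε * n / 7 := by nlinarith
  have a3 : ε * n ≤ n / 7 := by nlinarith
  have a4 : n ≤ J := by nlinarith
  have a5 : ε * n ≤ ε * J := mul_le_mul_of_nonneg_left a4 h0.le
  have a6 : ε * J ≤ J / 7 := by nlinarith
  have a7 : (1 - 3 / 50 * ε) * ((1 + ε / 4) * n) ≤ (1 - 3 / 50 * ε) * J :=
    mul_le_mul_of_nonneg_left hJ (by linarith)
  have a8 : 9 / 10 * J ≤ J - K - 1 - 3 * d := by nlinarith
  refine ⟨by nlinarith, by nlinarith, ?_⟩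
  have := mul_le_mul_of_nonneg_left a8 h0.le
  nlinarith

end STEPc

theorem p_STEP (hWIN : S_WIN) (hDEC : S_DEC) (hCHAIN : S_CHAIN) (hLIP : S_LIP) (hAPR : S_APR) :
    S_STEP := by
  intro κ k1 k2 hk γ ε lam e0 eg l0
  obtain ⟨K, n1, hW⟩ := hWIN (ε / 2) (ε / 100) (by positivity) (by positivity)
  obtain ⟨n2, hn2⟩ := exists_nat_ge
    ((4 * (2 ^ K * (2 * (K + 1) + lam)) + 1000 * (K + 4)) / ε ^ 2)
  refine ⟨max (max n1 n2) 1, fun C Ω n q r b S V J hC hS hV hd hn hg hs hJ hJn IH => ?_⟩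
  have n1n : n1 ≤ n := (le_max_left _ _).trans ((le_max_left _ _).trans hn)
  have n2n : (n2 : ℝ) ≤ n :=
    Nat.cast_le.2 ((le_max_right _ _).trans ((le_max_left _ _).trans hn))
  have n3 : 1 ≤ n := (le_max_right _ _).trans hn
  have n0 : (0 : ℝ) < n := Nat.cast_pos.2 n3
  have hb : (b : ℝ) + r = n := by exact_mod_cast hC.hb
  have r0 : (0 : ℝ) ≤ r := Nat.cast_nonneg _
  have b0 : (0 : ℝ) ≤ b := Nat.cast_nonneg _
  have K0 : (0 : ℝ) ≤ K := Nat.cast_nonneg _
  have s0 : (0 : ℝ) ≤ S.card := Nat.cast_nonneg _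
  have e7 : ε ≤ 1 / 7 := by
    have : γ * n ≤ 2 * n := by linarith [mul_le_mul_of_nonneg_right k2 b0]
    have := le_of_mul_le_mul_right this n0
    linarith
  set E : ℝ := 2 ^ K * (2 * (K + 1) + lam) with hE
  have E0 : 0 ≤ E := by positivity
  have hA : 4 * E + 1000 * (K + 4) ≤ ε ^ 2 * n := by
    have := hn2.trans n2n
    rw [div_le_iff₀ (by positivity)] at this
    linarith
  have en0 := mul_pos e0 n0
  have en : ε ^ 2 * n ≤ ε * n := by linarith [mul_le_mul_of_nonneg_right e7 en0.le]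
  have en7 : ε * n ≤ n / 7 := by linarith [mul_le_mul_of_nonneg_right e7 n0.le]
  set d := ⌊ε / 100 * (2 * J)⌋₊ + 1 with hdd
  have d1 : ε / 100 * (2 * J) ≤ d := by
    rw [hdd]
    push_cast
    exact (Nat.lt_floor_add_one _).le
  have d2 : (d : ℝ) ≤ ε / 100 * (2 * J) + 1 := by
    rw [hdd]
    push_cast
    have := Nat.floor_le (a := ε / 100 * (2 * (J : ℝ))) (by positivity)
    linarith
  have d3 : 1 ≤ d := by omega
  clear_value d
  obtain ⟨m1, m2, m3⟩ := STEPc.num ε n J K d e0 e7 K0 (by linarith) hJn d2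
  have m4 : n + 3 * d + K + 1 ≤ J := by exact_mod_cast m1
  obtain ⟨w, rfl⟩ : ∃ w, J = w + 3 * d + K + 1 := ⟨J - (3 * d + K + 1), by omega⟩
  have nw : n ≤ w := by omega
  push_cast at m2 m3 d1
  have m5 : V.card ≤ 3 * w := by
    have : (V.card : ℝ) ≤ 3 * w := by
      rw [hJ]
      push_cast
      linarith
    exact_mod_cast this
  have m6 : 24 * (d : ℝ) ≤ ε * w := by linarith
  have sn : 8 * S.card ≤ n := by
    have : (8 * S.card : ℝ) ≤ n := by linarith
    exact_mod_cast this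
  by_contra hc
  push Not at hc
  set U : ℝ := r + ε * n + lam * S.card with hU
  have l1 := (hLIP C Ω n q r b S V (w + 3 * d) (w + 3 * d + K + 1) hC hS hV hd n3 (by omega)
    (by omega) (by omega)).2
  have l2 : U - 2 * (K + 1) ≤ LL q C S V (w + 3 * d) := by
    push_cast at l1
    linarith
  obtain ⟨i, hi⟩ : ∃ i, w + 3 * d = i + 1 := ⟨w + 3 * d - 1, by omega⟩
  have ch := hCHAIN (el q C) S V i K U lam (2 * (K + 1)) (by omega) l0 (by positivity)
    (fun T hT hK x hx => by
      have x1 := mem_sdiff.1 hx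
      have x2 : x ∉ S := fun c => disjoint_left.1 hd c x1.1
      have x3 : (insert x S).card = S.card + 1 := card_insert_of_notMem x2
      have x4 := card_erase_of_mem hx
      have x5 := card_sdiff_of_subset hT
      have := IH i (insert x S) ((V \ T).erase x) (by omega) (insert_subset (hV x1.1) hS)
        (((erase_subset _ _).trans sdiff_subset).trans hV)
        (disjoint_insert_left.2 ⟨notMem_erase _ _,
          hd.mono_right ((erase_subset _ _).trans sdiff_subset)⟩)
        (by rw [x3]; push_cast; exact hs) (by omega) (by omega)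
      rw [x3] at this
      push_cast at this
      refine le_trans this (le_of_eq ?_)
      rw [hU]
      ring) (by rw [← hi]; exact l2)
  rw [← hi] at ch
  have low : ∀ T, T ⊆ V → T.card ≤ K → ∀ j, w ≤ j → j ≤ w + 3 * d →
      r + ε / 2 * n ≤ LL q C S (V \ T) j := fun T hT hK j j1 j2 => by
    have c1 := ch T hT hK
    have c2 : (2 : ℝ) ^ T.card * (2 * (K + 1) + lam) ≤ E :=
      mul_le_mul_of_nonneg_right (pow_le_pow_right₀ (by norm_num) hK) (by positivity)
    have x5 := card_sdiff_of_subset hT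
    have c3 := (hLIP C Ω n q r b S (V \ T) j (w + 3 * d) hC hS (sdiff_subset.trans hV)
      (hd.mono_right sdiff_subset) n3 (by omega) j2 (by omega)).1
    have c4 : (w : ℝ) ≤ j := Nat.cast_le.2 j1
    have c5 : (n : ℝ) ≤ w := Nat.cast_le.2 nw
    have c6 : (0 : ℝ) ≤ d := Nat.cast_nonneg _
    push_cast at c3
    have c7 : 2 * (r : ℝ) * (w + 3 * d - j) ≤ j * (ε * n / 4) := by
      have : (r : ℝ) * (w + 3 * d - j) ≤ r * (3 * d) :=
        mul_le_mul_of_nonneg_left (by linarith) r0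
      have : (r : ℝ) * (3 * d) ≤ n * (3 * d) :=
        mul_le_mul_of_nonneg_right (by linarith) (by linarith)
      have : (n : ℝ) * (24 * d) ≤ n * (ε * j) :=
        mul_le_mul_of_nonneg_left (m6.trans (mul_le_mul_of_nonneg_left c4 e0.le)) n0.le
      linarith
    have c8 := le_of_mul_le_mul_left (c3.trans c7) (by linarith)
    have c9 := mul_nonneg l0 s0
    change _ ≤ LL q C S (V \ T) (w + 3 * d) at c1
    linarith
  have hw := hW C Ω n q r b S V w d hC hS hV hd n1n (by omega) nw m5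
    (by rw [hJ]; push_cast; linarith) (by omega) fun T hT hK j j1 j2 => ⟨low T hT hK j j1 j2, by
      have x5 := card_sdiff_of_subset hT
      exact hAPR C Ω n q r b S (V \ T) j hC hS (sdiff_subset.trans hV)
        (hd.mono_right sdiff_subset) n3 (by omega) (by omega) (by omega)⟩
  have hD := hDEC κ k1 k2 hk C Ω n q r b S V (w + 2 * d) d γ ε hC.toSy hS hV hd (by omega)
    (by omega) e0.le eg hg (by linarith) fun j j1 j2 => ⟨by
      have := IH j ∅ V (by omega) (empty_subset _) hV (disjoint_empty_left _)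
        (by rw [card_empty, Nat.cast_zero, mul_zero]; exact en0.le) (by omega) (by omega)
      rwa [card_empty, Nat.cast_zero, mul_zero, add_zero] at this, by
      have := low ∅ (empty_subset _) (Nat.zero_le _) j (by omega) (by omega)
      rw [sdiff_empty] at this
      linarith⟩
  have f1 := IH (w + 2 * d) S V (by omega) hS hV hd (by linarith) (by omega) (by omega)
  rw [show w + 2 * d + d = w + 3 * d by ring] at hD
  have v0 : (0 : ℝ) < V.card := Nat.cast_pos.2 (by omega)
  have f2 : ε / 100 * (γ * n) ≤ d * (γ * n) / V.card := by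
    rw [le_div_iff₀ v0, hJ]
    push_cast
    have := mul_le_mul_of_nonneg_right d1 (mul_nonneg (by linarith : 0 ≤ γ) n0.le)
    linarith
  have f3 : ε * (14 * ε * n) ≤ ε * (γ * n) :=
    mul_le_mul_of_nonneg_left (mul_le_mul_of_nonneg_right eg n0.le) e0.le
  linarith

end Pool.Agent.P.MP_a66f6f_co.Hv
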