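import Pool.Agent.P.MP_a66f6f_co.Hv.Iface

/-! Step STS. -/

namespace Pool.Agent.P.MP_a66f6f_co.Hv

open Finset Ped Pos

namespace STSc

end STSc

theorem p_STS (hSTT : S_STT) (hCPL : S_CPL) (hAVM : S_AVM) :
    S_STS := by
  intro η δ hη hδ
  obtain ⟨K, v₀, H⟩ := hSTT η δ hη hδ
  refine ⟨K, v₀ + 3 * K, fun V P a c up h0 h1 h2 h3 h4 => ?_⟩
  have ac : a ≤ c := by
    have : (0 : ℝ) ≤ δ * V.card := by positivity
    exact_mod_cast (show (a : ℝ) ≤ c by linarith)
  have e1 : pr V a P = pr V (V.card - a) fun Y => P (V \ Y) := hCPL V a _ (by omega)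
  obtain ⟨T, s, k, h⟩ := H V (fun Y => ¬ P (V \ Y)) (V.card - c) (V.card - a)
    (fun X Y e n p => n (up _ _ (sdiff_subset_sdiff subset_rfl e) p)) (by omega) (by omega)
    (by omega) (by rw [Nat.cast_sub (by omega), Nat.cast_sub (by omega)]; linarith)
    (by rw [pr_not (by omega), ← e1]; linarith)
  have w : (V \ T).card + T.card = V.card := card_sdiff_add_card_eq_card s
  refine ⟨T, s, k, le_trans ?_ (hAVM (V \ T) (c - T.card) c _
    (ind_mono (P := fun X => P (T ∪ X)) fun X Y e => up _ _ (union_subset_union_right e))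
    (by omega) (by omega))⟩
  rw [pr_not (by omega)] at h
  rw [hCPL _ _ _ (by omega), show (V \ T).card - (c - T.card) = V.card - c by omega]
  refine le_trans (sub_le_comm.1 h) (av_le (f := ind fun Y => P (V \ Y)) fun X b _ =>
    ind_le fun p => up _ _ (fun x hx => ?_) p)
  simp only [mem_union, mem_sdiff] at hx ⊢
  tauto

end Pool.Agent.P.MP_a66f6f_co.Hv
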