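import Pool.Agent.P.MP_a66f6f_co.Hv.Iface

/-! Step SUB. -/

namespace Pool.Agent.P.MP_a66f6f_co.Hv

open Finset Ped Pos

namespace SUBc

theorem sum_erase (V : Finset ℕ) (i : ℕ) (f : Finset ℕ → ℝ) :
    ∑ x ∈ V, ∑ X ∈ (V.erase x).powersetCard i, f X =
      ((V.card - i : ℕ) : ℝ) * ∑ X ∈ V.powersetCard i, f X := by
  have h1 : ∀ x, (V.erase x).powersetCard i = (V.powersetCard i).filter fun X => x ∉ X := by
    intro x
    ext X
    simp only [mem_powersetCard, mem_filter, subset_erase]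
    tauto
  simp only [h1, sum_filter]
  rw [sum_comm, mul_sum]
  refine sum_congr rfl fun X hX => ?_
  obtain ⟨a, b⟩ := mem_powersetCard.1 hX
  rw [← sum_filter, sum_const, nsmul_eq_mul, ← sdiff_eq_filter, card_sdiff_of_subset a, b]

theorem step (V : Finset ℕ) (i : ℕ) (f : Finset ℕ → ℝ) (h : i < V.card) :
    ∃ x ∈ V, av V i f ≤ av (V.erase x) i f := by
  refine exists_le_of_sum_le (card_pos.1 (by omega)) (le_of_eq ?_)
  have h1 : ∑ x ∈ V, av (V.erase x) i f =
      ∑ x ∈ V, (∑ X ∈ (V.erase x).powersetCard i, f X) / ((V.card - 1).choose i : ℝ) :=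
    sum_congr rfl fun x hx => by rw [av, card_erase_of_mem hx]
  have h2 : (((V.card - 1).choose i : ℕ) : ℝ) * V.card =
      (V.card.choose i : ℝ) * ((V.card - i : ℕ) : ℝ) := by
    have := Nat.choose_mul_succ_eq (V.card - 1) i
    rw [show V.card - 1 + 1 = V.card by omega] at this
    exact_mod_cast this
  have h3 : (((V.card - 1).choose i : ℕ) : ℝ) ≠ 0 :=
    Nat.cast_ne_zero.2 (Nat.choose_pos (by omega)).ne'
  have h4 : (V.card.choose i : ℝ) ≠ 0 := Nat.cast_ne_zero.2 (Nat.choose_pos h.le).ne'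
  rw [h1, ← sum_div, sum_erase, sum_const, nsmul_eq_mul, av, ← mul_div_assoc,
    div_eq_div_iff h4 h3]
  linear_combination (∑ X ∈ V.powersetCard i, f X) * h2

end SUBc

theorem p_SUB :
    S_SUB := by
  intro V i w f hi hw
  obtain ⟨d, hd⟩ := Nat.exists_eq_add_of_le hw
  induction d generalizing V with
  | zero => exact ⟨V, subset_rfl, hd, le_rfl⟩
  | succ d ih =>
    obtain ⟨x, hx, h1⟩ := SUBc.step V i f (by omega)
    have h2 := card_erase_of_mem hx
    obtain ⟨W, a, b, c⟩ := ih (V.erase x) (by omega) (by omega)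
    exact ⟨W, a.trans (erase_subset _ _), b, h1.trans c⟩

end Pool.Agent.P.MP_a66f6f_co.Hv
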