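import Pool.Agent.P.MP_a66f6f_co.Hv.Iface

/-! Step SYS. -/

namespace Pool.Agent.P.MP_a66f6f_co.Hv

open Finset Ped Pos

theorem p_SYS :
    S_SYS := by
  rintro m n N a r b hn hb ⟨f⟩
  obtain ⟨C, hC⟩ := sys_of_hom hn f
  have h := hC.pull 1
  refine ⟨fun X => (C (pull 1 X)).map Fin.valEmbedding, ⟨fun X Y e => map_subset_map.2
    (h.mono X Y e), fun X Y e => (disjoint_map _).2 (h.disj X Y e), fun X e1 e2 => ?_, hb⟩, ?_⟩
  · have := h.big X e1 e2
    rw [card_map, add_mul]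
    omega
  · rw [card_map]
    exact (card_le_univ _).trans (Fintype.card_fin N).le

end Pool.Agent.P.MP_a66f6f_co.Hv
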