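import Pool.Agent.P.MP_a66f6f_co.Hv.Iface

/-! Step TOP. -/

namespace Pool.Agent.P.MP_a66f6f_co.Hv

open Finset Ped Pos

namespace TOPc

theorem sq (u e γ : ℝ) (h0 : 0 ≤ u + e) (g0 : 0 ≤ γ) (g2 : γ ≤ 2)
    (h : e ≤ γ * u / 50) : (u + e) ^ 2 ≤ (1 + γ / 20) * u ^ 2 := by
  have a1 : (u + e) ^ 2 ≤ ((1 + γ / 50) * u) ^ 2 := pow_le_pow_left₀ h0 (by linarith) 2
  rw [mul_pow] at a1
  exact a1.trans (mul_le_mul_of_nonneg_right (by nlinarith) (sq_nonneg u))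

theorem win (m K : ℕ) (X Y : ℝ) (h1 : 0 ≤ X) (h2 : 0 ≤ Y) (h3 : K + 3 * X + 6 * Y + 10 ≤ m) :
    ∃ a D w d : ℕ, a + D = w + d ∧ X ≤ D ∧ D ≤ X + 1 ∧ Y ≤ d ∧ d ≤ Y + 1 ∧
      2 * (w + 3 * d) + K ≤ m ∧ m ≤ 2 * (w + 3 * d) + K + 1 := by
  have a1 := (Nat.ceil_lt_add_one h1).le
  have a2 := (Nat.ceil_lt_add_one h2).le
  have a3 : K + 2 * ⌈X⌉₊ + 6 * ⌈Y⌉₊ + 2 ≤ m := by
    have : (K + 2 * ⌈X⌉₊ + 6 * ⌈Y⌉₊ + 2 : ℝ) ≤ m := by linarith
    exact_mod_cast this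
  exact ⟨(m - K) / 2 - 2 * ⌈Y⌉₊ - ⌈X⌉₊, ⌈X⌉₊, (m - K) / 2 - 3 * ⌈Y⌉₊, ⌈Y⌉₊, by omega,
    Nat.le_ceil X, a1, Nat.le_ceil Y, a2, by omega, by omega⟩

end TOPc

theorem p_TOP (hIND : S_IND) (hLOW : S_LOW) (hCASE1 : S_CASE1) (hCASE2 : S_CASE2) (hSTS : S_STS) (hAPR : S_APR) :
    S_TOP := by
  intro κ k1 k2 hK γ δ g0 d0
  rcases lt_or_ge 2 γ with g2 | g2
  · refine ⟨1, fun C Ω n q r b h hn hr _ => ?_⟩
    have a1 : (b : ℝ) + r = n := by exact_mod_cast h.hb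
    have a2 : (1 : ℝ) ≤ n := by exact_mod_cast hn
    have a3 : (0 : ℝ) ≤ r := Nat.cast_nonneg _
    have a4 : (0 : ℝ) ≤ b := Nat.cast_nonneg _
    nlinarith
  obtain ⟨x, x0, x1, x2, x3⟩ : ∃ x : ℝ, 0 < x ∧ 400 * x ≤ γ ∧ 400 * x ≤ δ ∧ 400 * x ≤ 1 :=
    ⟨min (min γ δ) 1 / 400, by positivity,
      by linarith [min_le_left (min γ δ) 1, min_le_left γ δ],
      by linarith [min_le_left (min γ δ) 1, min_le_right γ δ],
      by linarith [min_le_right (min γ δ) 1]⟩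
  obtain ⟨y, ey⟩ : ∃ y : ℝ, y = γ * x / 1000 := ⟨_, rfl⟩
  obtain ⟨ε, ee⟩ : ∃ ε : ℝ, ε = γ * y / 100 := ⟨_, rfl⟩
  have y0 : 0 < y := by rw [ey]; positivity
  have e0 : 0 < ε := by rw [ee]; positivity
  have y1 : 500 * y ≤ x := by nlinarith
  have e1 : 50 * ε ≤ y := by nlinarith
  obtain ⟨lam, l0, n₁, hI⟩ := hIND κ k1 k2 hK γ ε e0 (by linarith)
  obtain ⟨η₀, h0, v₁, h2⟩ := hCASE2 κ k1 k2 hK γ y g0 y0
  obtain ⟨η, t0, t1, t2⟩ : ∃ η : ℝ, 0 < η ∧ η ≤ η₀ ∧ η ≤ γ / 8 :=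
    ⟨min η₀ (γ / 8), by positivity, min_le_left _ _, min_le_right _ _⟩
  obtain ⟨K, v₂, hS⟩ := hSTS η y t0 y0
  refine ⟨n₁ + v₁ + v₂ + ⌈(K + 10) * (lam + 10) / ε⌉₊ + 1, fun C Ω n q r b h hn hr hm => ?_⟩
  have hI := hI C Ω n q r b h (by omega) hr
  have n1 : 1 ≤ n := by omega
  have b1 : (b : ℝ) + r = n := by exact_mod_cast h.hb
  have n0 : (1 : ℝ) ≤ n := by exact_mod_cast n1
  have r0 : (0 : ℝ) ≤ r := Nat.cast_nonneg _
  have b0 : (0 : ℝ) ≤ b := Nat.cast_nonneg _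
  have K0 : (0 : ℝ) ≤ K := Nat.cast_nonneg _
  have c1 : (K + 10) * (lam + 10) ≤ ε * n := by
    have := (Nat.ceil_le (a := (K + 10) * (lam + 10) / ε)).1 (show _ ≤ n by omega)
    rwa [div_le_iff₀ e0, mul_comm (n : ℝ)] at this
  have c2 : 10 * (K + 10) ≤ ε * n := by nlinarith
  have c3 : lam * K ≤ ε * n := by nlinarith
  obtain ⟨m, em⟩ : ∃ m, m = Ω.card := ⟨_, rfl⟩
  rw [← em] at hm
  have c4 : 400 * (x * n) ≤ m - 2 * n := by nlinarith
  have c5 : (2 : ℝ) * n ≤ m := by nlinarith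
  have c6 : 100 * (x * m) ≤ m - 2 * n := by nlinarith
  have c7 : 500 * (y * m) ≤ x * m := by nlinarith
  have c8 : 2 * (y * n) ≤ y * m := by nlinarith
  have c9 : 50 * (ε * n) ≤ y * n := by nlinarith
  have c10 : 200000 * (y * n) ≤ γ * n := by nlinarith
  have c11 : 400 * (x * m) ≤ γ * m := by nlinarith
  obtain ⟨a, D, w, d, w1, w2, w3, w4, w5, w6, w7⟩ :=
    TOPc.win m K (x * m) (y * m) (by positivity) (by positivity) (by linarith)
  have w1' : (a : ℝ) + D = w + d := by exact_mod_cast w1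
  have w6' : (2 : ℝ) * (w + 3 * d) + K ≤ m := by exact_mod_cast w6
  have w7' : (m : ℝ) ≤ 2 * (w + 3 * d) + K + 1 := by exact_mod_cast w7
  have f1 : n + 1 ≤ a := by exact_mod_cast (show (n : ℝ) + 1 ≤ a by linarith)
  have f2 : n ≤ w := by exact_mod_cast (show (n : ℝ) ≤ w by linarith)
  have f3' : (m : ℝ) ≤ 3 * w := by linarith
  have f3 : m ≤ 3 * w := by exact_mod_cast f3'
  have i0 : ∀ (V : Finset ℕ) (i : ℕ), V ⊆ Ω → n ≤ i → 2 * i ≤ V.card →
      LL q C ∅ V i ≤ r + ε * n := fun V i u1 u2 u3 => by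
    simpa using hI i ∅ V (empty_subset _) u1 (disjoint_empty_left _) (by simp; positivity) u2 u3
  have low : ∀ (U : Finset ℕ) (i : ℕ) (c : ℝ), U ⊆ Ω → n ≤ i → 2 * i ≤ (Ω \ U).card → 0 ≤ c →
      (m - 2 * i) * n ≤ i * c → r - ε * n - 1 - c ≤ LL q C U (Ω \ U) i :=
    fun U i c u1 u2 u3 u4 u5 => by
    have a1 := hLOW C Ω n q r b U i (ε * n) h u1 n1 u2 u3
      (i0 _ _ sdiff_subset (by omega) (by omega))
    have a2 : ((Ω \ U).card : ℝ) ≤ m := by exact_mod_cast em ▸ card_le_card sdiff_subset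
    have a3 : (2 : ℝ) * i ≤ (Ω \ U).card := by exact_mod_cast u3
    have a4 : (n : ℝ) ≤ i := by exact_mod_cast u2
    have a5 : (r : ℝ) * ((Ω \ U).card - 2 * i) ≤ (m - 2 * i) * n := by
      rw [mul_comm]
      exact mul_le_mul (by linarith) (by linarith) r0 (by linarith)
    have := le_of_mul_le_mul_left (a1.trans (a5.trans u5)) (by linarith)
    linarith
  have low2 : ∀ (U : Finset ℕ) (i : ℕ), U ⊆ Ω → w ≤ i → 2 * i ≤ (Ω \ U).card →
      r - ε * n - 1 - 21 * (y * n) ≤ LL q C U (Ω \ U) i := fun U i u1 u2 u3 => by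
    have a1 : (w : ℝ) ≤ i := by exact_mod_cast u2
    refine low U i _ u1 (by omega) u3 (by positivity) ?_
    have a2 : ((m : ℝ) - 2 * i) * n ≤ 7 * (y * m) * n :=
      mul_le_mul_of_nonneg_right (by linarith) (by linarith)
    have a3 : (m : ℝ) * (y * n) ≤ 3 * i * (y * n) :=
      mul_le_mul_of_nonneg_right (by linarith) (by positivity)
    linarith
  rcases le_total (pr Ω (w + d) fun X => ZZ q C ∅ (Ω \ X) < b) η with c | c
  · have a1 := hCASE1 κ k1 k2 hK C Ω n q r b a D γ ε η h n1 (by omega) (by omega) e0.le t0.le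
      (by linarith) hr ?_ (w1 ▸ c) fun i u1 u2 => i0 Ω i Subset.rfl (by omega) (by omega)
    · have a2 := low2 ∅ (w + d) (empty_subset _) (by omega) (by rw [sdiff_empty]; omega)
      have a3 := i0 Ω a Subset.rfl (by omega) (by omega)
      rw [sdiff_empty, ← w1] at a2
      rw [← em] at a1
      have a4 : 60 * (y * n) ≤ D * (γ * n) / (16 * m) := by
        rw [le_div_iff₀ (by linarith)]
        have := mul_le_mul_of_nonneg_right w2 (show 0 ≤ γ * n by positivity)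
        have a5 : x * m * (γ * n) = 1000 * (y * n * m) := by rw [ey]; ring
        have a6 : 0 ≤ y * n * m := by positivity
        linarith
      linarith
    · rw [← em, show (m : ℝ) - a = a - 1 + (m - 2 * a + 1) by ring]
      refine TOPc.sq _ _ _ (by linarith) g0.le g2 ?_
      have := mul_le_mul_of_nonneg_left (show (m : ℝ) * (2 / 5) ≤ a - 1 by linarith) g0.le
      linarith
  · obtain ⟨U, u1, u2, u3⟩ := hS Ω (fun X => ZZ q C ∅ (Ω \ X) < b) (w + d) (w + 2 * d)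
      (fun X Y e c => lt_of_le_of_lt (ZZ_mono h.mono q ∅ (sdiff_subset_sdiff Subset.rfl e)) c)
      (by omega) (by omega) (by omega) (by rw [← em]; push_cast; linarith) c
    have a1 : (Ω \ U).card + U.card = m := by rw [em, card_sdiff_add_card_eq_card u1]
    have a2 : (U.card : ℝ) ≤ K := by exact_mod_cast u2
    have a3 : ((Ω \ U).card : ℝ) ≤ m := by exact_mod_cast (show _ ≤ m by omega)
    have a4 : 2 * U.card ≤ n := by
      exact_mod_cast (show (2 : ℝ) * U.card ≤ n by nlinarith)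
    have a5 := h2 C Ω n q r b U w d h u1 n1 (by omega) f2 (by omega)
      ((mul_le_mul_of_nonneg_left a3 y0.le).trans w4) (by omega) (by linarith) hr
      (fun i v1 v2 => ⟨by linarith [i0 (Ω \ U) i sdiff_subset (by omega) (by omega)],
        by linarith [low2 U i u1 v1 (by omega)],
        hAPR C Ω n q r b U _ i h u1 sdiff_subset disjoint_sdiff n1 a4 (by omega) (by omega)⟩)
      (by linarith)
    have a6 := low U (w + 3 * d) (K + 1) u1 (by omega) (by omega) (by positivity) (by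
      have : (n : ℝ) ≤ (w + 3 * d : ℕ) := by exact_mod_cast (show n ≤ w + 3 * d by omega)
      rw [mul_comm]
      push_cast at this ⊢
      exact mul_le_mul this (by linarith) (by linarith) (by linarith))
    have a7 := hI (w + 2 * d) U (Ω \ U) u1 sdiff_subset disjoint_sdiff (by linarith) (by omega)
      (by omega)
    have a8 := mul_le_mul_of_nonneg_left a2 l0
    have a9 : y * γ * n = 100 * (ε * n) := by rw [ee]; ring
    linarith

end Pool.Agent.P.MP_a66f6f_co.Hv
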