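import Pool.Agent.P.MP_a66f6f_co.Hv.Iface

/-! Step TR. -/

namespace Pool.Agent.P.MP_a66f6f_co.Hv

open Finset Ped Pos

namespace TRc

theorem sum_map' {m : ℕ} (f : Fin m ↪ ℕ) {W : Finset ℕ} (h : univ.map f = W) (i : ℕ)
    (F : Finset ℕ → ℝ) :
    ∑ X ∈ W.powersetCard i, F X = ∑ Y ∈ (univ : Finset (Fin m)).powersetCard i, F (Y.map f) := by
  rw [← h, powersetCard_map, sum_map]
  rfl

open Classical in
theorem den_eq {m : ℕ} (Q : Finset (Fin m) → Prop) (i : ℕ) :
    (m.choose i : ℝ) * den Q i =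
      ∑ Y ∈ (univ : Finset (Fin m)).powersetCard i, if Q Y then (1 : ℝ) else 0 := by
  refine mul_left_cancel₀ (fac_pos m).ne' ?_
  have a1 : ∑ X ∈ (range m).powersetCard i, cnt Q X = fac m * ((m.choose i : ℝ) * den Q i) := by
    rw [sum_congr rfl fun X hX => (cnt_eq Q (mem_powersetCard.1 hX).1).trans
      (by rw [(mem_powersetCard.1 hX).2])]
    rw [sum_const, card_powersetCard, card_range, nsmul_eq_mul]
    ring
  rw [← a1]
  unfold cnt
  rw [sum_comm]
  have a2 : ∀ σ : Equiv.Perm (Fin m),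
      (∑ X ∈ (range m).powersetCard i, if Q (pull σ X) then (1 : ℝ) else 0) =
      ∑ Y ∈ (univ : Finset (Fin m)).powersetCard i, if Q Y then (1 : ℝ) else 0 := fun σ => by
    have b1 : univ.map (σ.toEmbedding.trans Fin.valEmbedding) = range m := by
      ext x
      simp only [mem_map, mem_univ, true_and, mem_range]
      constructor
      · rintro ⟨a, rfl⟩
        exact (σ a).2
      · intro hx
        exact ⟨σ.symm ⟨x, hx⟩, by simp⟩
    rw [sum_map' _ b1]
    refine sum_congr rfl fun Y _ => ?_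
    have b2 : pull σ (Y.map (σ.toEmbedding.trans Fin.valEmbedding)) = Y := by
      ext k
      rw [pull, mem_filter]
      exact ⟨fun h => (mem_map' (σ.toEmbedding.trans Fin.valEmbedding)).1 h.2,
        fun h => ⟨mem_univ _, (mem_map' (σ.toEmbedding.trans Fin.valEmbedding)).2 h⟩⟩
    rw [b2]
  rw [sum_congr rfl fun σ _ => a2 σ, sum_const, card_univ, nsmul_eq_mul, fac]

end TRc

theorem p_TR :
    S_TR := by
  intro V
  have h1 : univ.map (V.orderEmbOfFin rfl).toEmbedding = V := by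
    simp
  refine ⟨(V.orderEmbOfFin rfl).toEmbedding, fun x => V.orderEmbOfFin_mem rfl x, fun y hy => ?_,
    fun P i hi => ?_⟩
  · rw [← h1] at hy
    obtain ⟨x, -, hx⟩ := mem_map.1 hy
    exact ⟨x, hx⟩
  · have h0 : (V.card.choose i : ℝ) ≠ 0 := Nat.cast_ne_zero.2 (Nat.choose_pos hi).ne'
    rw [pr, av, div_eq_iff h0, mul_comm, TRc.den_eq, TRc.sum_map' _ h1]
    rfl

end Pool.Agent.P.MP_a66f6f_co.Hv
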