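import Pool.Agent.P.MP_a66f6f_co.Hv.Iface

/-! Step TST. -/

namespace Pool.Agent.P.MP_a66f6f_co.Hv

open Finset Ped Pos

namespace TSTc

end TSTc

theorem p_TST (hKKL : S_KKL) (hRUS : S_RUS) (hMUM : S_MUM) (hRISE : S_RISE) :
    S_TST := by
  intro ε δ hε hδ
  have hB : 0 < 3 / δ := by positivity
  obtain ⟨c0, hc0, hK⟩ := hKKL ε (3 / δ) hε hB
  refine ⟨min (δ / 2) (c0 / (6 * (3 / δ))), c0 / 18, lt_min (by positivity) (by positivity),
    by positivity, ?_⟩
  intro V P p₁ p₂ hP h1 h12 h2 hlo hhi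
  have hBd : 2 < 3 / δ * (p₂ - p₁) := by
    have e : 3 / δ * δ = 3 := by field_simp
    have : 3 / δ * δ ≤ 3 / δ * (p₂ - p₁) := mul_le_mul_of_nonneg_left (by linarith) hB.le
    linarith
  obtain ⟨p, hp1, hp2, hp3, hp4⟩ := hRISE (fun p => mu p V P) (fun p => ∑ x ∈ V, inf p V P x)
    p₁ p₂ (3 / δ) (by linarith) (fun p => hRUS V P p)
    (fun p a b => ⟨mu_nonneg (by linarith) (by linarith) V P,
      mu_le_one (by linarith) (by linarith) V P⟩) hBd
  have hpp2 : p ≤ p₂ := by linarith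
  have l1 : ε ≤ mu p V P := hlo.trans (hMUM V P p₁ p hP (by linarith) hp1 (by linarith)).1
  have l2 : mu p V P ≤ 1 - ε :=
    ((hMUM V P p p₂ hP (by linarith) hpp2 (by linarith)).1).trans hhi
  obtain ⟨x, hx, hinf⟩ := hK V P p hP (by linarith) (by linarith) l1 l2 hp3
  have m1 := min_le_left (δ / 2) (c0 / (6 * (3 / δ)))
  have m2 := min_le_right (δ / 2) (c0 / (6 * (3 / δ)))
  refine ⟨x, hx, p, hp1, by linarith, fun g g1 g2 => ?_⟩
  have g3 : g ≤ p₂ := by linarith
  have hU : Up fun Y => P (insert x Y) := fun X Y e => hP _ _ (insert_subset_insert _ e)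
  have a1 := (hMUM (V.erase x) (fun Y => P (insert x Y)) p g hU (by linarith) g1 (by linarith)).1
  have a2 := mu_erase p hx P
  have a3 := mu_erase g hx P
  have a4 : 0 ≤ inf g V P x := by
    rw [inf, sub_nonneg]
    exact mu_mono (by linarith) (by linarith) _ fun Y hY => hP _ _ (subset_insert _ _) hY
  have a5 : mu g V P - mu p V P ≤ 3 / δ * (g - p) := hp4 g g1 g3
  have a6 : 3 / δ * (g - p) ≤ c0 / 6 := by
    have e : 3 / δ * (c0 / (6 * (3 / δ))) = c0 / 6 := by field_simp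
    have : 3 / δ * (g - p) ≤ 3 / δ * (c0 / (6 * (3 / δ))) :=
      mul_le_mul_of_nonneg_left (by linarith) hB.le
    linarith
  have a7 : inf p V P x =
      mu p (V.erase x) (fun Y => P (insert x Y)) - mu p (V.erase x) P := rfl
  have a8 : inf g V P x =
      mu g (V.erase x) (fun Y => P (insert x Y)) - mu g (V.erase x) P := rfl
  have a9 : c0 / 3 ≤ (1 - p) * inf p V P x := by nlinarith
  have a10 : 0 ≤ g * inf g V P x := mul_nonneg (by linarith) a4
  have a11 : c0 / 6 ≤ inf g V P x := by nlinarith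
  have a12 : c0 / 18 ≤ g * inf g V P x := by nlinarith
  linarith

end Pool.Agent.P.MP_a66f6f_co.Hv
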