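import Pool.Agent.P.MP_a66f6f_co.Hv.Iface

/-! Step TZ. -/

namespace Pool.Agent.P.MP_a66f6f_co.Hv

open Finset Ped Pos

namespace TZc

theorem key {δ v d j x n : ℝ} (hδ : 0 < δ) (hn : 0 ≤ n) (hj : 0 ≤ j) (h1 : 2 * j ≤ v)
    (h2 : δ * v ≤ d) (h3 : -(8 * n) ≤ d * x) : -(4 * (n / δ)) ≤ j * x := by
  rcases le_total 0 x with h | h
  · have : 0 ≤ n / δ := by positivity
    nlinarith
  · rw [← mul_div_assoc, ← neg_div, div_le_iff₀ hδ]
    have : 2 * (δ * j) ≤ d := by nlinarith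
    nlinarith

end TZc

theorem p_TZ (hKP1 : S_KP1) (hAGB : S_AGB) (hAG2 : S_AG2) (hL0 : S_L0) (hUI : S_UI) (hAVM : S_AVM) :
    S_TZ := by
  intro δ β hδ hβ
  obtain ⟨M, hM, v₀, hU⟩ := hUI δ (β * δ / 6) hδ (by positivity)
  refine ⟨6 * M / δ, by positivity, v₀, ?_⟩
  intro C Ω n q r b S V w d c hS hV hd hn hv hw h3 hδd h2 hL
  have v1 : (1 : ℝ) ≤ V.card := by exact_mod_cast (by omega : 1 ≤ V.card)
  have d0 : (0 : ℝ) < d := lt_of_lt_of_le (by positivity) hδd
  have d1 : 1 ≤ d := by exact_mod_cast d0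
  have d6 : (6 : ℝ) * d ≤ V.card := by exact_mod_cast (by omega : 6 * d ≤ V.card)
  have δ6 : δ ≤ 1 / 6 := by nlinarith
  have n0 : (0 : ℝ) ≤ n := Nat.cast_nonneg n
  have rn : (r : ℝ) ≤ n := by exact_mod_cast (by have := c.hb; omega : r ≤ n)
  have nδ : 6 * (n : ℝ) ≤ n / δ := by
    rw [le_div_iff₀ hδ]
    nlinarith
  have mono : Monotone fun X => (ZZ q C S X : ℝ) := fun X Y e =>
    Int.cast_le.2 (ZZ_mono c.mono q S e)
  have up : av V (w + 2 * d) (fun X => (ZZ q C S X : ℝ)) ≤ 6 * (n / δ) := by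
    obtain ⟨i, i1, i2, i3⟩ := pig (LL q C S V) (w + 2 * d) d (8 * n) d1 (by
      have := (hL (w + 2 * d + d) (by omega) (by omega)).1
      have := (hL (w + 2 * d) (by omega) (by omega)).2
      linarith)
    have a1 := hAGB 1 zero_le_one hKP1 C Ω n q r b S V i c.toSy hS hV hd (by omega) (by omega)
    have a2 := hL0 C Ω n q r b V i c hV hn (by omega) (by omega)
    have a3 := (hL i (by omega) (by omega)).1
    have a4 := TZc.key hδ n0 (Nat.cast_nonneg i)
      (by exact_mod_cast (by omega : 2 * i ≤ V.card)) hδd i3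
    have a5 := hAVM V (w + 2 * d) i _ mono i1 (by omega)
    unfold EZ at a1
    linarith
  have lo : -(6 * (n / δ)) ≤ av V (w + d) (fun X => (ZZ q C S X : ℝ)) := by
    obtain ⟨i, i1, i2, i3⟩ := pig (LL q C S V) w d (8 * n) d1 (by
      have := (hL (w + d) (by omega) (by omega)).1
      have := (hL w (by omega) (by omega)).2
      linarith)
    have a1 := hAG2 C Ω n q r b S V i c.toSy hS hV hd (by omega)
    have a3 := (hL (i + 1) (by omega) (by omega)).2
    have a4 := TZc.key hδ n0 (by positivity : (0 : ℝ) ≤ i + 1)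
      (by exact_mod_cast (by omega : 2 * (i + 1) ≤ V.card)) hδd i3
    have a5 := hAVM V (i + 1) (w + d) _ mono i2 (by omega)
    unfold EZ at a1
    linarith
  have h := hU V (ZZ q C S) (w + d) (w + 2 * d) (6 * (n / δ)) (ZZ_mono c.mono q S) hv (by omega)
    (by omega) (by push_cast; linarith) lo up
  have e1 : M * (6 * (n / δ)) = 6 * M / δ * n := by ring
  have e2 : β * δ / 6 * (6 * (n / δ)) = β * n := by field_simp
  rwa [e1, e2] at h

end Pool.Agent.P.MP_a66f6f_co.Hv
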