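import Pool.Agent.P.MP_a66f6f_co.Hv.Iface

/-! Step UI. -/

namespace Pool.Agent.P.MP_a66f6f_co.Hv

open Finset Ped Pos

namespace UIc

theorem pr_zero {V : Finset ℕ} {i : ℕ} {P : Finset ℕ → Prop} (hi : i ≤ V.card)
    (h : ∀ X, X ⊆ V → ¬ P X) : pr V i P = 0 := by
  rw [← av_const hi (0 : ℝ)]
  exact av_congr fun X a _ => ind_neg (h X a)

theorem pr_one {V : Finset ℕ} {i : ℕ} {P : Finset ℕ → Prop} (hi : i ≤ V.card)
    (h : ∀ X, X ⊆ V → P X) : pr V i P = 1 := by
  rw [← av_const hi (1 : ℝ)]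
  exact av_congr fun X a _ => ind_pos (h X a)

theorem num1 {t δ β v w A D B : ℝ} (hβ : 0 < β) (ht : 0 ≤ t) (hv : 0 < v) (hA : 0 ≤ A)
    (h1 : 2 ≤ t * δ * β) (h2 : δ * v ≤ w) (h3 : t * w * A ≤ v * D) (h4 : D ≤ 2 * B) :
    A ≤ β * B := by
  have a1 : t * (δ * v) * A ≤ t * w * A :=
    mul_le_mul_of_nonneg_right (mul_le_mul_of_nonneg_left h2 ht) hA
  have a2 : v * D ≤ v * (2 * B) := mul_le_mul_of_nonneg_left h4 hv.le
  have a3 : v * (t * δ * A) ≤ v * (2 * B) := by linarith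
  have a4 := mul_le_mul_of_nonneg_left (le_of_mul_le_mul_left a3 hv) hβ.le
  have a5 := mul_le_mul_of_nonneg_right h1 hA
  linarith

theorem num2 {x T e δ v D B : ℝ} (hT : 0 < T) (hδ : 0 < δ) (hv : 0 < v) (hx : 0 ≤ x)
    (h1 : δ * v ≤ 4 * e) (h2 : x * (1 / T) * e ≤ 2 * v * D) (h3 : D ≤ 2 * B) :
    x ≤ 16 * T / δ * B := by
  have a0 : 0 ≤ x * (1 / T) := by positivity
  have a1 := mul_le_mul_of_nonneg_left h1 a0
  have a2 : v * D ≤ v * (2 * B) := mul_le_mul_of_nonneg_left h3 hv.le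
  have a3 : v * (x * (1 / T) * δ) ≤ v * (16 * B) := by linarith
  have a4 := le_of_mul_le_mul_left a3 hv
  rw [div_mul_eq_mul_div, le_div_iff₀ hδ]
  have a5 := mul_le_mul_of_nonneg_left a4 hT.le
  have a6 : T * (x * (1 / T) * δ) = x * δ := by field_simp
  linarith

end UIc

theorem p_UI (hUI1 : S_UI1) (hUI2 : S_UI2) (hUI3 : S_UI3) (hAVM : S_AVM) :
    S_UI := by
  intro δ β hδ hβ
  obtain ⟨t, ht⟩ := exists_nat_ge (2 / (δ * β))
  obtain ⟨u, hu⟩ := exists_nat_ge (2 / δ)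
  rw [div_le_iff₀ (by positivity), ← mul_assoc] at ht
  rw [div_le_iff₀ hδ] at hu
  have t1 : 1 ≤ t := by
    rcases Nat.eq_zero_or_pos t with rfl | h
    · norm_num at ht
    · exact h
  have T1 : (1 : ℝ) < 4 ^ t := one_lt_pow₀ (by norm_num) (by omega)
  refine ⟨1 + β + 16 * 4 ^ t / δ, by positivity, 12 * t + u,
    fun V Z a c B hZ hv h1 h2 h3 h4 h5 => ?_⟩
  have hv0 : (0 : ℝ) < V.card := by exact_mod_cast (by omega : 0 < V.card)
  have hd : 2 ≤ δ * V.card := by
    have : (u : ℝ) ≤ V.card := by exact_mod_cast (by omega : u ≤ V.card)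
    nlinarith
  have hac : a ≤ c := by
    have : (a : ℝ) ≤ c := by linarith
    exact_mod_cast this
  have hc : c ≤ V.card := by omega
  have ha : a ≤ V.card := hac.trans hc
  have hm := hAVM V a c (fun X => (Z X : ℝ)) (fun X Y e => Int.cast_le.2 (hZ e)) hac hc
  have hB : 0 ≤ B := by linarith
  have lo : ∀ X, Z ∅ ≤ Z X := fun X => hZ (empty_subset X)
  have hi : ∀ X, X ⊆ V → Z X ≤ Z V := fun X e => hZ e
  obtain ⟨M0, p0, m0⟩ := Int.exists_least_of_bdd
    (P := fun M => pr V c (fun X => M < Z X) * 4 ^ t ≤ 1)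
    ⟨Z ∅, fun M h => by
      by_contra k
      rw [UIc.pr_one hc fun X _ => (not_le.1 k).trans_le (lo X)] at h
      linarith⟩
    ⟨Z V, by
      rw [UIc.pr_zero hc fun X e => not_lt.2 (hi X e), zero_mul]
      exact zero_le_one⟩
  obtain ⟨M1, p1, m1⟩ := Int.exists_greatest_of_bdd
    (P := fun M => pr V a (fun X => Z X < M) * 4 ^ t ≤ 1)
    ⟨Z V, fun M h => by
      by_contra k
      rw [UIc.pr_one ha fun X e => (hi X e).trans_lt (not_le.1 k)] at h
      linarith⟩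
    ⟨Z ∅, by
      rw [UIc.pr_zero ha fun X _ => not_lt.2 (lo X), zero_mul]
      exact zero_le_one⟩
  have b0 := UIc.num1 (B := B) hβ (Nat.cast_nonneg t) hv0 (av_nonneg fun _ _ _ => le_max_right _ _)
    ht (by linarith) (hUI1 V Z a c t M0 hZ (by omega) hac hc h1 p0) (by linarith)
  have b1 := UIc.num1 (B := B) hβ (Nat.cast_nonneg t) hv0 (av_nonneg fun _ _ _ => le_max_right _ _)
    ht (by linarith) (hUI2 V Z a c t M1 hZ (by omega) hac h2 p1) (by linarith)
  have c0 : av V a (fun X => (Z X : ℝ)) ≤ M0 + av V a fun X => max ((Z X : ℝ) - M0) 0 := by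
    rw [← av_const ha (M0 : ℝ), ← av_add, av_const ha]
    exact av_le fun X _ _ => by linarith [le_max_left ((Z X : ℝ) - M0) 0]
  have c1 : M1 - av V c (fun X => max ((M1 : ℝ) - Z X) 0) ≤ av V c fun X => (Z X : ℝ) := by
    rw [← av_const hc (M1 : ℝ), ← av_sub, av_const hc]
    exact av_le fun X _ _ => by linarith [le_max_left ((M1 : ℝ) - Z X) 0]
  have d0 : (M0 : ℝ) - M1 ≤ 16 * 4 ^ t / δ * B := by
    rcases le_total M0 M1 with h | h
    · have : (M0 : ℝ) ≤ M1 := Int.cast_le.2 h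
      have : 0 ≤ 16 * 4 ^ t / δ * B := by positivity
      linarith
    · have e0 : 1 / 4 ^ t ≤ pr V c fun X => M0 ≤ Z X := by
        rw [div_le_iff₀ (by positivity)]
        by_contra k
        have := m0 (M0 - 1) (le_trans (mul_le_mul_of_nonneg_right
          (pr_le fun X _ _ e => by omega) (by positivity)) (not_le.1 k).le)
        omega
      have e1 : 1 / 4 ^ t ≤ pr V a fun X => Z X ≤ M1 := by
        rw [div_le_iff₀ (by positivity)]
        by_contra k
        have := m1 (M1 + 1) (le_trans (mul_le_mul_of_nonneg_right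
          (pr_le fun X _ _ e => by omega) (by positivity)) (not_le.1 k).le)
        omega
      have e2 : (c : ℝ) ≤ a + 2 * ((c - a) / 2 : ℕ) + 1 := by
        exact_mod_cast (by omega : c ≤ a + 2 * ((c - a) / 2) + 1)
      exact UIc.num2 (by positivity) hδ hv0 (sub_nonneg.2 (Int.cast_le.2 h)) (by linarith)
        (hUI3 V Z a c ((c - a) / 2) M1 M0 (1 / 4 ^ t) hZ (by omega) hc h (by positivity) e0 e1)
        (by linarith)
  refine ⟨le_trans (av_le fun X _ _ => max_le_max_right _ ?_) b0,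
    le_trans (av_le fun X _ _ => max_le_max_right _ ?_) b1⟩
  · linarith
  · linarith

end Pool.Agent.P.MP_a66f6f_co.Hv
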