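import Pool.Agent.P.MP_a66f6f_co.Hv.Iface

/-! Step UI1. -/

namespace Pool.Agent.P.MP_a66f6f_co.Hv

open Finset Ped Pos

namespace UI1c

theorem layer (z M hi : ℤ) (h : z ≤ hi) :
    max ((z : ℝ) - M) 0 = ∑ k ∈ Ioc M hi, (if k ≤ z then (1 : ℝ) else 0) := by
  rw [← sum_filter, sum_const, nsmul_eq_mul, mul_one]
  have e : (Ioc M hi).filter (fun k => k ≤ z) = Ioc M z := by
    ext k
    simp only [mem_filter, mem_Ioc]
    omega
  rw [e, Int.card_Ioc]
  rcases le_total z M with c | c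
  · have a1 : (z : ℝ) ≤ M := by exact_mod_cast c
    rw [Int.toNat_eq_zero.2 (by omega), max_eq_right (by linarith), Nat.cast_zero]
  · have a1 : (M : ℝ) ≤ z := by exact_mod_cast c
    have a2 : ((z - M).toNat : ℤ) = z - M := Int.toNat_of_nonneg (by omega)
    have a3 : (((z - M).toNat : ℕ) : ℝ) = z - M := by exact_mod_cast a2
    rw [a3, max_eq_left (by linarith)]

theorem av_layer (V : Finset ℕ) (Z : Finset ℕ → ℤ) (hZ : Monotone Z) (M : ℤ) (i : ℕ) :
    av V i (fun X => max ((Z X : ℝ) - M) 0) =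
      ∑ k ∈ Ioc M (Z V), pr V i (fun X => k ≤ Z X) := by
  simp only [pr]
  rw [← av_sum]
  refine av_congr fun X hX _ => ?_
  rw [layer (Z X) M (Z V) (hZ hX)]
  refine sum_congr rfl fun k _ => ?_
  by_cases c : k ≤ Z X
  · rw [if_pos c, ind_pos (P := fun X => k ≤ Z X) c]
  · rw [if_neg c, ind_neg (P := fun X => k ≤ Z X) c]

theorem av_split (V : Finset ℕ) (Z : Finset ℕ → ℤ) (M : ℤ) (i : ℕ) :
    av V i (fun X => (Z X : ℝ)) = av V i (fun X => max ((Z X : ℝ) - M) 0) +
      av V i (fun X => min (Z X : ℝ) M) := by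
  rw [← av_add]
  refine av_congr fun X _ _ => ?_
  rcases le_total (Z X : ℝ) M with c | c
  · rw [max_eq_right (by linarith), min_eq_left c, zero_add]
  · rw [max_eq_left (by linarith), min_eq_right c, sub_add_cancel]

end UI1c

theorem p_UI1 (hGU : S_GU) (hAVM : S_AVM) :
    S_UI1 := by
  intro V Z a c t M hZ ht hac hc ha hp
  have a1 : av V a (fun X => max ((Z X : ℝ) - M) 0) * (V.card + t * (c - a)) ≤
      av V c (fun X => max ((Z X : ℝ) - M) 0) * V.card := by
    rw [UI1c.av_layer V Z hZ, UI1c.av_layer V Z hZ, sum_mul, sum_mul]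
    refine sum_le_sum fun k hk => ?_
    refine hGU V _ a c t (fun X Y e hX => le_trans hX (hZ e)) ht hac hc ha ?_
    refine le_trans (mul_le_mul_of_nonneg_right (pr_le fun X _ _ hX => ?_) (by positivity)) hp
    exact lt_of_lt_of_le (mem_Ioc.1 hk).1 hX
  have a2 : av V a (fun X => min (Z X : ℝ) M) ≤ av V c (fun X => min (Z X : ℝ) M) :=
    hAVM V a c _ (fun X Y e => min_le_min_right _ (Int.cast_le.2 (hZ e))) hac hc
  rw [UI1c.av_split V Z M c, UI1c.av_split V Z M a]
  have a3 : (0 : ℝ) ≤ V.card := Nat.cast_nonneg _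
  nlinarith [mul_le_mul_of_nonneg_left a2 a3]

end Pool.Agent.P.MP_a66f6f_co.Hv
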