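import Pool.Agent.P.MP_a66f6f_co.Hv.Iface

/-! Step UI2. -/

namespace Pool.Agent.P.MP_a66f6f_co.Hv

open Finset Ped Pos

namespace UI2c

theorem layer {lo z M : ℤ} (h : lo ≤ z) :
    max ((M : ℝ) - z) 0 = ∑ k ∈ Ioc lo M, if z < k then (1 : ℝ) else 0 := by
  rw [← sum_filter, sum_const, nsmul_eq_mul, mul_one]
  have e : (Ioc lo M).filter (fun k => z < k) = Ioc z M := by
    ext k
    simp only [mem_filter, mem_Ioc]
    omega
  rw [e, Int.card_Ioc]
  have : (((M - z).toNat : ℤ) : ℝ) = ((max (M - z) 0 : ℤ) : ℝ) := by rw [Int.toNat_eq_max]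
  push_cast at this
  exact this.symm

end UI2c

theorem p_UI2 (hGD : S_GD) (hAVM : S_AVM) :
    S_UI2 := by
  intro V Z a c t M hZ ht hac hc hp
  have e : ∀ i, av V i (fun X => max ((M : ℝ) - Z X) 0) =
      ∑ k ∈ Ioc (Z ∅) M, pr V i fun X => Z X < k := fun i => by
    simp only [pr]
    rw [← av_sum]
    refine av_congr fun X _ _ => ?_
    rw [UI2c.layer (hZ (empty_subset X))]
    refine sum_congr rfl fun k _ => ?_
    by_cases h : Z X < k
    · rw [if_pos h, ind_pos (P := fun X => Z X < k) h]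
    · rw [if_neg h, ind_neg (P := fun X => Z X < k) h]
  have h1 : av V c (fun X => max ((M : ℝ) - Z X) 0) * (V.card + t * (c - a)) ≤
      av V a (fun X => max ((M : ℝ) - Z X) 0) * V.card := by
    rw [e, e, sum_mul, sum_mul]
    refine sum_le_sum fun k hk => hGD V _ a c t (fun X Y h h' => (hZ h).trans_lt h') ht hac hc ?_
    refine le_trans (mul_le_mul_of_nonneg_right (pr_le fun X _ _ h => ?_) (by positivity)) hp
    exact h.trans_le (mem_Ioc.1 hk).2
  have h2 := hAVM V a c (fun X => (Z X : ℝ) + max ((M : ℝ) - Z X) 0) (fun X Y h => by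
    have : (Z X : ℝ) ≤ Z Y := by exact_mod_cast hZ h
    show (Z X : ℝ) + max ((M : ℝ) - Z X) 0 ≤ (Z Y : ℝ) + max ((M : ℝ) - Z Y) 0
    rcases le_total ((M : ℝ) - Z X) 0 with h' | h'
    · rw [max_eq_right h']
      linarith [le_max_right ((M : ℝ) - Z Y) 0]
    · rw [max_eq_left h']
      linarith [le_max_left ((M : ℝ) - Z Y) 0]) hac (by omega)
  rw [av_add, av_add] at h2
  have h3 : (0 : ℝ) ≤ V.card := Nat.cast_nonneg _
  nlinarith [mul_le_mul_of_nonneg_left h2 h3]

end Pool.Agent.P.MP_a66f6f_co.Hv
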