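import Pool.Agent.P.MP_a66f6f_co.Hv.Iface

/-! Step UI3. -/

namespace Pool.Agent.P.MP_a66f6f_co.Hv

open Finset Ped Pos

namespace UI3c

theorem card_eq {x y : ℤ} (h : x ≤ y) : ((Ioc x y).card : ℝ) = y - x := by
  have a2 : ((y - x).toNat : ℤ) = y - x := Int.toNat_of_nonneg (by omega)
  rw [Int.card_Ioc]
  exact_mod_cast a2

theorem rest {Z : Finset ℕ → ℤ} (hZ : Monotone Z) (K : Finset ℤ) :
    Monotone fun X => (Z X : ℝ) - ∑ k ∈ K, ind (fun X => k ≤ Z X) X := fun X Y e => by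
  have a1 : ∑ k ∈ K, (ind (fun X => k ≤ Z X) Y - ind (fun X => k ≤ Z X) X) ≤
      ∑ k ∈ K, if k ∈ Ioc (Z X) (Z Y) then (1 : ℝ) else 0 := sum_le_sum fun k _ => by
    have b1 := ind_nonneg (fun X => k ≤ Z X) X
    have b2 := ind_le_one (fun X => k ≤ Z X) Y
    split_ifs with c
    · linarith
    · rw [sub_nonpos]
      refine ind_le fun d => ?_
      rw [mem_Ioc] at c
      change k ≤ Z Y at d
      omega
  have a2 : ((K.filter fun k => k ∈ Ioc (Z X) (Z Y)).card : ℝ) ≤ (Ioc (Z X) (Z Y)).card :=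
    Nat.cast_le.2 (card_le_card fun k hk => (mem_filter.1 hk).2)
  rw [sum_boole, sum_sub_distrib] at a1
  rw [card_eq (hZ e)] at a2
  dsimp only
  linarith

end UI3c

theorem p_UI3 (hPO2 : S_PO2) (hAVM : S_AVM) : S_UI3 := by
  intro V Z a c e lo hi θ hZ h1 h2 h3 h4 h5 h6
  have a1 := hAVM V a c _ (UI3c.rest hZ (Ioc lo hi)) (by omega) h2
  rw [av_sub, av_sub, av_sum, av_sum] at a1
  have a2 := sum_le_sum fun k (hk : k ∈ Ioc lo hi) => hPO2 V (fun X => k ≤ Z X) a c e θ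
    (fun X Y e hX => le_trans hX (hZ e)) h1 h2 h4
    (h5.trans (pr_le fun X _ _ hX => (mem_Ioc.1 hk).2.trans hX)) (by
      rw [← pr_not (by omega)]
      exact h6.trans (pr_le fun X _ _ hX => not_le.2 (lt_of_le_of_lt hX (mem_Ioc.1 hk).1)))
  rw [sum_const, nsmul_eq_mul, UI3c.card_eq h3, ← mul_sum, sum_sub_distrib] at a2
  simp only [pr] at a2
  have a3 : (0 : ℝ) ≤ 2 * V.card := by positivity
  refine le_trans (le_of_eq (mul_assoc _ _ _)) (a2.trans (mul_le_mul_of_nonneg_left ?_ a3))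
  linarith

end Pool.Agent.P.MP_a66f6f_co.Hv
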