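import Pool.Agent.P.MP_a66f6f_co.Hv.Iface

/-! Step VAR. -/

namespace Pool.Agent.P.MP_a66f6f_co.Hv

open Finset Ped Pos

namespace VARc

end VARc

theorem p_VAR :
    S_VAR := by
  intro v p
  have h := congrArg (Polynomial.eval p) (bernsteinPolynomial.variance ℝ v)
  simp only [Polynomial.eval_finsetSum, bernsteinPolynomial, Polynomial.eval_mul,
    Polynomial.eval_pow, Polynomial.eval_sub, Polynomial.eval_X, Polynomial.eval_natCast,
    Polynomial.eval_one, nsmul_eq_mul] at h
  rw [← mul_assoc, ← h]
  exact sum_congr rfl fun i _ => by ring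

end Pool.Agent.P.MP_a66f6f_co.Hv
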