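import Pool.Agent.P.MP_a66f6f_co.Hv.Iface

/-! Step WIN. -/

namespace Pool.Agent.P.MP_a66f6f_co.Hv

open Finset Ped Pos

namespace WINc

theorem point (hPT2 : S_PT2) {C : Finset ℕ → Finset ℕ} {Ω S W : Finset ℕ} {n q r b a : ℕ} {M : ℝ}
    (h : Ctx C Ω n q r b) (hS : S ⊆ Ω) (hW : W ⊆ Ω) (hd : Disjoint S W) (h3 : 3 * S.card ≤ n)
    (hn : 1 ≤ n) (ha : n ≤ a) (haW : a < W.card) (hM : 0 ≤ M) :
    LL q C S W a ≤ r + (2 * n + 2 * (M * n)) *
      pr W a (fun X => (b - S.card : ℝ) ≤ ZZ q C S X) +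
      2 * av W a (fun X => max ((ZZ q C S X : ℝ) - M * n) 0) := by
  rw [← av_const haW.le (r : ℝ), pr, ← av_mul, ← av_mul, ← av_add, ← av_add]
  refine av_le fun X c1 c2 => ?_
  have e1 : S ∪ X ≠ Ω := fun e => by
    have : W ⊆ X := fun x hx => (mem_union.1 (e ▸ hW hx : x ∈ S ∪ X)).resolve_left
      fun hs => disjoint_left.1 hd hs hx
    have := card_le_card this
    omega
  have e2 : (r : ℝ) ≤ n := Nat.cast_le.2 (by have := h.hb; omega)
  have e3 : (0 : ℝ) ≤ M * n := mul_nonneg hM (Nat.cast_nonneg _)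
  have e4 : (0 : ℝ) ≤ n := Nat.cast_nonneg _
  have e5 := le_max_right ((ZZ q C S X : ℝ) - M * n) 0
  rcases hPT2 C Ω n q r b S X h hS (c1.trans hW) (hd.mono_right c1) h3 hn (by omega) e1 with
    e | ⟨e, e'⟩
  · have := mul_nonneg (by linarith : (0 : ℝ) ≤ 2 * n + 2 * (M * n))
      (ind_nonneg (fun X => (b - S.card : ℝ) ≤ ZZ q C S X) X)
    linarith
  · rw [ind_pos (P := fun X => (b - S.card : ℝ) ≤ ZZ q C S X) e]
    have e6 := le_max_left ((ZZ q C S X : ℝ) - M * n) 0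
    have e7 : max (ZZ q C S X : ℝ) 0 ≤ M * n + max ((ZZ q C S X : ℝ) - M * n) 0 :=
      max_le (by linarith) (by linarith)
    linarith

end WINc

theorem p_WIN (hTZ : S_TZ) (hPT2 : S_PT2) (hSTT : S_STT) (hWZ : S_WZ) :
    S_WIN := by
  intro ε δ hε hδ
  obtain ⟨M, hM, v₀, hT⟩ := hTZ δ (ε / 8) hδ (by positivity)
  obtain ⟨η, hη, eη⟩ : ∃ η : ℝ, 0 < η ∧ η * (1 + M) = ε / 4 :=
    ⟨ε / 4 / (1 + M), by positivity, div_mul_cancel₀ _ (by positivity)⟩
  obtain ⟨K, v₁, hK⟩ := hSTT η δ hη hδ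
  refine ⟨K, v₀ + v₁ + 1, ?_⟩
  intro C Ω n q r b S V w d h hS hV hd hn h3 hw hVw hδd hK2 hL
  have n0 : (0 : ℝ) < n := Nat.cast_pos.2 (by omega)
  have εn : 0 < ε * n := mul_pos hε n0
  have r0 : (0 : ℝ) ≤ r := Nat.cast_nonneg _
  have key : ∀ T, T ⊆ V → T.card ≤ K →
      av (V \ T) (w + d) (fun X => max ((ZZ q C S X : ℝ) - M * n) 0) ≤ ε / 8 * n ∧
      av (V \ T) (w + 2 * d) (fun X => max (-(ZZ q C S X : ℝ) - M * n) 0) ≤ ε / 8 * n := by
    intro T hTV hTK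
    have d1 : (V \ T).card + T.card = V.card := card_sdiff_add_card_eq_card hTV
    have d2 : ((V \ T).card : ℝ) ≤ V.card := Nat.cast_le.2 (by omega)
    refine hT C Ω n q r b S (V \ T) w d h hS (sdiff_subset.trans hV) (hd.mono_right sdiff_subset)
      (by omega) (by omega) hw (by omega) ((mul_le_mul_of_nonneg_left d2 hδ.le).trans hδd)
      (by omega) fun i c1 c2 => ⟨?_, (hL T hTV hTK i c1 c2).2⟩
    have := (hL T hTV hTK i c1 c2).1
    linarith
  have hU : Up fun X => (b - S.card : ℝ) ≤ ZZ q C S X := fun X Y e c =>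
    le_trans c (Int.cast_le.2 (ZZ_mono h.mono q S e))
  have big : 1 - η ≤ pr V (w + 2 * d) fun X => (b - S.card : ℝ) ≤ ZZ q C S X := by
    by_contra c
    obtain ⟨T, hTV, hTK, hp⟩ := hK V _ (w + d) (w + 2 * d) hU (by omega) (by omega) (by omega)
      (by push_cast; linarith) (not_le.1 c).le
    have d1 : (V \ T).card + T.card = V.card := card_sdiff_add_card_eq_card hTV
    have a1 := WINc.point (a := w + d) hPT2 h hS (sdiff_subset.trans hV : V \ T ⊆ Ω)
      (hd.mono_right sdiff_subset) h3 (by omega) (by omega) (by omega) hM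
    have a2 := (key T hTV hTK).1
    have a3 := (hL T hTV hTK (w + d) (by omega) (by omega)).1
    have a4 := mul_le_mul_of_nonneg_left hp
      (by positivity : (0 : ℝ) ≤ 2 * n + 2 * (M * n))
    have a5 : (2 * n + 2 * (M * n)) * η = 2 * n * (η * (1 + M)) := by ring
    rw [a5, eη] at a4
    linarith
  have b1 := (key ∅ (empty_subset _) (by simp)).2
  rw [sdiff_empty] at b1
  have b2 : (b : ℝ) ≤ n := Nat.cast_le.2 (by have := h.hb; omega)
  have b3 : (0 : ℝ) ≤ S.card := Nat.cast_nonneg _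
  have b4 := hWZ V (w + 2 * d) (fun X => (ZZ q C S X : ℝ)) _ (b - S.card) (M * n) n (ε / 8 * n) η
    (by omega) (by positivity) n0.le (by linarith) hη.le (fun X _ _ c => c) big b1
  have b5 : η * (n + M * n) = n * (η * (1 + M)) := by ring
  rw [b5, eη] at b4
  unfold EZ
  linarith

end Pool.Agent.P.MP_a66f6f_co.Hv
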