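import Pool.Agent.P.MP_a66f6f_co.Hv.Iface

/-! Step WZ. -/

namespace Pool.Agent.P.MP_a66f6f_co.Hv

open Finset Ped Pos

namespace WZc

end WZc

theorem p_WZ :
    S_WZ := by
  intro V i Z P t A N E η hi hA hN ht hη h1 h2 h3
  have a : av V i (fun X => ((t + A) * ind P X - A) - max (-Z X - A) 0) ≤ av V i Z := by
    refine av_le fun X a b => ?_
    have c1 := le_max_left (-Z X - A) 0
    have c2 := le_max_right (-Z X - A) 0
    by_cases c : P X
    · have := h1 X a b c
      rw [ind_pos c]
      linarith
    · rw [ind_neg c]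
      linarith
  rw [av_sub, av_sub, av_mul, av_const hi] at a
  have b := pr_le_one hi P
  have c : (1 - pr V i P) * (t + A) ≤ η * (N + A) :=
    (mul_le_mul_of_nonneg_left (by linarith : t + A ≤ N + A) (by linarith)).trans
      (mul_le_mul_of_nonneg_right (by linarith) (by linarith))
  unfold pr at c
  linarith

end Pool.Agent.P.MP_a66f6f_co.Hv
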