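import Pool.Agent.P.MP_a66f6f_co.NR.All
import Pool.Agent.P.MP_a66f6f_co.Hv.KP2
import Pool.Agent.P.MP_a66f6f_co.Hv.TAVD
import Pool.Agent.P.MP_a66f6f_co.Hv.TAVM
import Pool.Agent.P.MP_a66f6f_co.Hv.TPIN
import Pool.Agent.P.MP_a66f6f_co.Hv.TSUB
import Pool.Agent.P.MP_a66f6f_co.Hv.TCPL
import Pool.Agent.P.MP_a66f6f_co.Hv.TTR
import Pool.Agent.P.MP_a66f6f_co.Hv.TKP1
import Pool.Agent.P.MP_a66f6f_co.Hv.TS1F
import Pool.Agent.P.MP_a66f6f_co.Hv.TS0F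
import Pool.Agent.P.MP_a66f6f_co.Hv.TS1V
import Pool.Agent.P.MP_a66f6f_co.Hv.TS0V
import Pool.Agent.P.MP_a66f6f_co.Hv.TDN
import Pool.Agent.P.MP_a66f6f_co.Hv.TKK0
import Pool.Agent.P.MP_a66f6f_co.Hv.TKK1
import Pool.Agent.P.MP_a66f6f_co.Hv.TKKD
import Pool.Agent.P.MP_a66f6f_co.Hv.TCH
import Pool.Agent.P.MP_a66f6f_co.Hv.TGD
import Pool.Agent.P.MP_a66f6f_co.Hv.TGU
import Pool.Agent.P.MP_a66f6f_co.Hv.TPO
import Pool.Agent.P.MP_a66f6f_co.Hv.TPO2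
import Pool.Agent.P.MP_a66f6f_co.Hv.TUI1
import Pool.Agent.P.MP_a66f6f_co.Hv.TUI2
import Pool.Agent.P.MP_a66f6f_co.Hv.TUI3
import Pool.Agent.P.MP_a66f6f_co.Hv.TUI
import Pool.Agent.P.MP_a66f6f_co.Hv.TEXM
import Pool.Agent.P.MP_a66f6f_co.Hv.TEXCS
import Pool.Agent.P.MP_a66f6f_co.Hv.TPARS
import Pool.Agent.P.MP_a66f6f_co.Hv.TDER
import Pool.Agent.P.MP_a66f6f_co.Hv.TINN
import Pool.Agent.P.MP_a66f6f_co.Hv.THYP
import Pool.Agent.P.MP_a66f6f_co.Hv.TSML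
import Pool.Agent.P.MP_a66f6f_co.Hv.TPOLY
import Pool.Agent.P.MP_a66f6f_co.Hv.TKKL
import Pool.Agent.P.MP_a66f6f_co.Hv.TRUS
import Pool.Agent.P.MP_a66f6f_co.Hv.TMUM
import Pool.Agent.P.MP_a66f6f_co.Hv.TRISE
import Pool.Agent.P.MP_a66f6f_co.Hv.TTST
import Pool.Agent.P.MP_a66f6f_co.Hv.TITER
import Pool.Agent.P.MP_a66f6f_co.Hv.TVAR
import Pool.Agent.P.MP_a66f6f_co.Hv.TMIX
import Pool.Agent.P.MP_a66f6f_co.Hv.TBIN
import Pool.Agent.P.MP_a66f6f_co.Hv.TSTT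
import Pool.Agent.P.MP_a66f6f_co.Hv.TSTS
import Pool.Agent.P.MP_a66f6f_co.Hv.TBEST
import Pool.Agent.P.MP_a66f6f_co.Hv.TPT
import Pool.Agent.P.MP_a66f6f_co.Hv.TPT2
import Pool.Agent.P.MP_a66f6f_co.Hv.TPT3
import Pool.Agent.P.MP_a66f6f_co.Hv.TAG0
import Pool.Agent.P.MP_a66f6f_co.Hv.TAGA
import Pool.Agent.P.MP_a66f6f_co.Hv.TAGB
import Pool.Agent.P.MP_a66f6f_co.Hv.TAG2
import Pool.Agent.P.MP_a66f6f_co.Hv.TAG3
import Pool.Agent.P.MP_a66f6f_co.Hv.TL0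
import Pool.Agent.P.MP_a66f6f_co.Hv.TLIP
import Pool.Agent.P.MP_a66f6f_co.Hv.TINI
import Pool.Agent.P.MP_a66f6f_co.Hv.TAPR
import Pool.Agent.P.MP_a66f6f_co.Hv.TCHAIN
import Pool.Agent.P.MP_a66f6f_co.Hv.TWZ
import Pool.Agent.P.MP_a66f6f_co.Hv.TTZ
import Pool.Agent.P.MP_a66f6f_co.Hv.TWIN
import Pool.Agent.P.MP_a66f6f_co.Hv.TDEC
import Pool.Agent.P.MP_a66f6f_co.Hv.TSTEP
import Pool.Agent.P.MP_a66f6f_co.Hv.TIND
import Pool.Agent.P.MP_a66f6f_co.Hv.TLOW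
import Pool.Agent.P.MP_a66f6f_co.Hv.TC1N
import Pool.Agent.P.MP_a66f6f_co.Hv.TCASE1
import Pool.Agent.P.MP_a66f6f_co.Hv.TCASE2
import Pool.Agent.P.MP_a66f6f_co.Hv.TTOP
import Pool.Agent.P.MP_a66f6f_co.Hv.THOM
import Pool.Agent.P.MP_a66f6f_co.Hv.TSYS
import Pool.Agent.P.MP_a66f6f_co.Hv.TMAIN
import Pool.Agent.P.MP_a66f6f_co.Hv.TFIN

/-!
Assembly of the steps.
-/

namespace Pool.Agent.P.MP_a66f6f_co.Hv

theorem q_AVD : S_AVD := p_AVD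

theorem q_AVM : S_AVM := p_AVM q_AVD

theorem q_PIN : S_PIN := p_PIN

theorem q_SUB : S_SUB := p_SUB

theorem q_CPL : S_CPL := p_CPL

theorem q_TR : S_TR := p_TR

theorem q_KP1 : S_KP1 := p_KP1

theorem q_S1F : S_S1F := p_S1F

theorem q_S0F : S_S0F := p_S0F

theorem q_S1V : S_S1V := p_S1V q_TR q_S1F

theorem q_S0V : S_S0V := p_S0V q_TR q_S0F

theorem q_DN : S_DN := p_DN q_AVD

theorem q_KK0 : S_KK0 := p_KK0

theorem q_KK1 : S_KK1 := p_KK1 q_KK0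

theorem q_KKD : S_KKD := p_KKD q_KK1

theorem q_CH : S_CH := p_CH

theorem q_GD : S_GD := p_GD q_KKD q_CH q_AVM

theorem q_GU : S_GU := p_GU q_GD q_CPL

theorem q_PO : S_PO := p_PO q_KKD q_CPL q_AVM

theorem q_PO2 : S_PO2 := p_PO2 q_PO q_AVM

theorem q_UI1 : S_UI1 := p_UI1 q_GU q_AVM

theorem q_UI2 : S_UI2 := p_UI2 q_GD q_AVM

theorem q_UI3 : S_UI3 := p_UI3 q_PO2 q_AVM

theorem q_UI : S_UI := p_UI q_UI1 q_UI2 q_UI3 q_AVM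

theorem q_EXM : S_EXM := p_EXM

theorem q_EXCS : S_EXCS := p_EXCS

theorem q_PARS : S_PARS := p_PARS

theorem q_DER : S_DER := p_DER

theorem q_INN : S_INN := p_INN

theorem q_HYP : S_HYP := p_HYP q_EXCS q_PARS

theorem q_SML : S_SML := p_SML q_EXCS q_INN q_HYP

theorem q_POLY : S_POLY := p_POLY

theorem q_KKL : S_KKL := p_KKL q_EXM q_PARS q_DER q_SML q_POLY

theorem q_RUS : S_RUS := p_RUS

theorem q_MUM : S_MUM := p_MUM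

theorem q_RISE : S_RISE := p_RISE

theorem q_TST : S_TST := p_TST q_KKL q_RUS q_MUM q_RISE

theorem q_ITER : S_ITER := p_ITER q_TST q_MUM

theorem q_VAR : S_VAR := p_VAR

theorem q_MIX : S_MIX := p_MIX

theorem q_BIN : S_BIN := p_BIN q_VAR q_MIX q_AVM

theorem q_STT : S_STT := p_STT q_ITER q_BIN

theorem q_STS : S_STS := p_STS q_STT q_CPL q_AVM

theorem q_BEST : S_BEST := p_BEST

theorem q_PT : S_PT := p_PT q_BEST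

theorem q_PT2 : S_PT2 := p_PT2 q_PT

theorem q_PT3 : S_PT3 := p_PT3 q_PT

theorem q_AG0 : S_AG0 := p_AG0

theorem q_AGA : S_AGA := p_AGA q_KP1 q_S1V q_AG0

theorem q_AGB : S_AGB := p_AGB q_S1V q_AG0

theorem q_AG2 : S_AG2 := p_AG2 q_DN q_AG0

theorem q_AG3 : S_AG3 := p_AG3 q_S0V q_AG0

theorem q_L0 : S_L0 := p_L0 q_AGA

theorem q_LIP : S_LIP := p_LIP q_AGA q_L0

theorem q_INI : S_INI := p_INI q_AGA

theorem q_APR : S_APR := p_APR q_INI q_LIP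

theorem q_CHAIN : S_CHAIN := p_CHAIN q_PIN

theorem q_WZ : S_WZ := p_WZ

theorem q_TZ : S_TZ := p_TZ q_KP1 q_AGB q_AG2 q_L0 q_UI q_AVM

theorem q_WIN : S_WIN := p_WIN q_TZ q_PT2 q_STT q_WZ

theorem q_DEC : S_DEC := p_DEC q_AGB q_AVM

theorem q_STEP : S_STEP := p_STEP q_WIN q_DEC q_CHAIN q_LIP q_APR

theorem q_IND : S_IND := p_IND q_STEP q_SUB q_INI q_LIP q_APR

theorem q_LOW : S_LOW := p_LOW q_CPL q_LIP

theorem q_C1N : S_C1N := p_C1N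

theorem q_CASE1 : S_CASE1 := p_CASE1 q_AG3 q_C1N q_AVM q_WZ

theorem q_CASE2 : S_CASE2 := p_CASE2 q_TZ q_PT3 q_WZ q_DEC

theorem q_TOP : S_TOP := p_TOP q_IND q_LOW q_CASE1 q_CASE2 q_STS q_APR

theorem q_HOM : S_HOM := p_HOM

theorem q_SYS : S_SYS := p_SYS

theorem q_NEAR : S_NEAR := NR.q_MAIN

theorem q_MAIN : S_MAIN := p_MAIN q_TOP q_HOM q_SYS q_NEAR

theorem q_FIN : S_FIN := p_FIN q_MAIN

/-- the formula on two thirds of the residues -/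
theorem stahl_two_thirds : ∃ ρ : ℕ → ℝ, (∀ n, 1 / 16 ≤ ρ n) ∧
    Filter.Tendsto ρ Filter.atTop (nhds (2 / 3)) ∧
    ∀ n m a b : ℕ, 1 ≤ n → 2 * n ≤ m → b ≤ n → (n - b : ℝ) ≤ ρ n * n →
    IsLeast {N : ℕ | Nonempty (kneser m n →g kneser N (a * n + b))}
      ((a + 1) * m - 2 * (n - b)) := by
  have h := q_FIN 2 (by norm_num) le_rfl kp2
  rwa [show (2 : ℝ) / (1 + 2) = 2 / 3 by norm_num] at h

end Pool.Agent.P.MP_a66f6f_co.Hv
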