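import Pool.Agent.P.MP_a66f6f_co.Pos.Main

/-!
Definitions for the proof of Stahl's formula on more than half of the residues: averages over
the levels of a finite ground set, conditional systems, and the biased cube.
-/

namespace Pool.Agent.P.MP_a66f6f_co.Hv

open Finset Ped Pos

/-- the mean of `f` over the `i`-subsets of `V` -/
noncomputable def av (V : Finset ℕ) (i : ℕ) (f : Finset ℕ → ℝ) : ℝ :=
  (∑ X ∈ V.powersetCard i, f X) / (V.card.choose i : ℝ)

open Classical in
/-- the indicator of a family -/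
noncomputable def ind (P : Finset ℕ → Prop) (X : Finset ℕ) : ℝ := if P X then 1 else 0

/-- the density of a family among the `i`-subsets of `V` -/
noncomputable def pr (V : Finset ℕ) (i : ℕ) (P : Finset ℕ → Prop) : ℝ := av V i (ind P)

/-- families closed under subsets -/
def Down (P : Finset ℕ → Prop) : Prop := ∀ X Y, X ⊆ Y → P Y → P X

/-- members all of whose points are dispensable -/
def Rob (g : Finset ℕ → Prop) (X : Finset ℕ) : Prop := g X ∧ ∀ x ∈ X, g (X.erase x)

/-- non-members that no single point of `V` turns into members -/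
def Dead (V : Finset ℕ) (g : Finset ℕ → Prop) (X : Finset ℕ) : Prop :=
  ¬ g X ∧ ∀ y ∈ V, ¬ g (insert y X)

open Classical in
/-- the cube inequality with weight `κ` on boundary vertices -/
def KP (κ : ℝ) : Prop := ∀ (V : Finset ℕ) (A : Finset ℕ → Prop) (y : ℝ),
  y ≤ ∑ T ∈ V.powerset, ind A T → y ≤ 2 ^ V.card - ∑ T ∈ V.powerset, ind A T →
  (1 + κ) * y ≤ ∑ T ∈ V.powerset,
    if A T then (hh V A T : ℝ) + κ * (if hh V A T = 0 then 0 else 1) else 0

/-- a colouring system on the ground set `Ω` -/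
structure Sy (C : Finset ℕ → Finset ℕ) (Ω : Finset ℕ) (n q r b : ℕ) : Prop where
  mono : ∀ X Y, X ⊆ Y → C X ⊆ C Y
  disj : ∀ X Y, Disjoint X Y → Disjoint (C X) (C Y)
  big : ∀ X, X ⊆ Ω → X.card = n → q * n ≤ (C X).card + r
  hb : b + r = n

/-- a minimal counterexample -/
structure Ctx (C : Finset ℕ → Finset ℕ) (Ω : Finset ℕ) (n q r b : ℕ) : Prop
    extends Sy C Ω n q r b where
  small : ∀ X, X ⊆ Ω → X ≠ Ω → 2 * n ≤ X.card → q * X.card ≤ (C X).card + 2 * r
  bad : (C Ω).card + 2 * r < q * Ω.card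

/-- the deficiency of a set -/
noncomputable def el (q : ℕ) (C : Finset ℕ → Finset ℕ) (X : Finset ℕ) : ℝ :=
  q * X.card - (C X).card

/-- the mean deficiency of `S ∪ X` over the `i`-subsets `X` of `V` -/
noncomputable def LL (q : ℕ) (C : Finset ℕ → Finset ℕ) (S V : Finset ℕ) (i : ℕ) : ℝ :=
  av V i fun X => el q C (S ∪ X)

/-- the colours of `S ∪ X` without a decisive point in `X`, minus `q |S|` -/
def ZZ (q : ℕ) (C : Finset ℕ → Finset ℕ) (S X : Finset ℕ) : ℤ :=
  (((C (S ∪ X)).filter fun c => ∀ x ∈ X, c ∈ C (S ∪ X.erase x)).card : ℤ) - q * S.card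

/-- the mean of `ZZ` -/
noncomputable def EZ (q : ℕ) (C : Finset ℕ → Finset ℕ) (S V : Finset ℕ) (i : ℕ) : ℝ :=
  av V i fun X => (ZZ q C S X : ℝ)

/-- the influence of the point `x` -/
noncomputable def inf (p : ℝ) (V : Finset ℕ) (P : Finset ℕ → Prop) (x : ℕ) : ℝ :=
  mu p (V.erase x) (fun Y => P (insert x Y)) - mu p (V.erase x) P

/-- averaging out the point `x` -/
def ee (p : ℝ) (x : ℕ) (f : Finset ℕ → ℝ) (X : Finset ℕ) : ℝ :=
  p * f (insert x X) + (1 - p) * f X

/-- the difference in direction `x` -/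
def dd (x : ℕ) (f : Finset ℕ → ℝ) (X : Finset ℕ) : ℝ := f (insert x X) - f X

/-- the biased expectation over the subsets of a list -/
def ex (p : ℝ) : List ℕ → (Finset ℕ → ℝ) → ℝ
  | [], f => f ∅
  | x :: l, f => ex p l (ee p x f)

/-- the generating polynomial of the Fourier weights -/
noncomputable def PP (p : ℝ) : List ℕ → (Finset ℕ → ℝ) → Polynomial ℝ
  | [], f => Polynomial.C (f ∅ ^ 2)
  | x :: l, f => PP p l (ee p x f) + Polynomial.C (p * (1 - p)) * Polynomial.X * PP p l (dd x f)

/-- the noise operator with parameter one fifth -/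
noncomputable def TT (p : ℝ) : List ℕ → (Finset ℕ → ℝ) → Finset ℕ → ℝ
  | [], f, _ => f ∅
  | x :: l, f, X => TT p l (ee p x f) X +
      1 / 5 * ((if x ∈ X then 1 else 0) - p) * TT p l (dd x f) X

section basic

variable {V : Finset ℕ} {i : ℕ} {f g : Finset ℕ → ℝ} {P Q : Finset ℕ → Prop}

theorem av_le (h : ∀ X, X ⊆ V → X.card = i → f X ≤ g X) : av V i f ≤ av V i g :=
  div_le_div_of_nonneg_right (sum_le_sum fun X hX =>
    h X (mem_powersetCard.1 hX).1 (mem_powersetCard.1 hX).2) (Nat.cast_nonneg _)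

theorem av_congr (h : ∀ X, X ⊆ V → X.card = i → f X = g X) : av V i f = av V i g :=
  le_antisymm (av_le fun X a b => (h X a b).le) (av_le fun X a b => (h X a b).ge)

theorem av_add : av V i (fun X => f X + g X) = av V i f + av V i g := by
  simp only [av, sum_add_distrib, add_div]

theorem av_sub : av V i (fun X => f X - g X) = av V i f - av V i g := by
  simp only [av, sum_sub_distrib, sub_div]

theorem av_mul (a : ℝ) : av V i (fun X => a * f X) = a * av V i f := by
  simp only [av, ← mul_sum, mul_div_assoc]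

theorem av_const (h : i ≤ V.card) (a : ℝ) : av V i (fun _ => a) = a := by
  have : (V.card.choose i : ℝ) ≠ 0 := Nat.cast_ne_zero.2 (Nat.choose_pos h).ne'
  rw [av, sum_const, card_powersetCard, nsmul_eq_mul]
  field_simp

theorem av_sum {ι : Type*} (K : Finset ι) (F : ι → Finset ℕ → ℝ) :
    av V i (fun X => ∑ c ∈ K, F c X) = ∑ c ∈ K, av V i (F c) := by
  simp only [av]
  rw [sum_comm, sum_div]

theorem av_nonneg (h : ∀ X, X ⊆ V → X.card = i → 0 ≤ f X) : 0 ≤ av V i f :=
  div_nonneg (sum_nonneg fun X hX =>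
    h X (mem_powersetCard.1 hX).1 (mem_powersetCard.1 hX).2) (Nat.cast_nonneg _)

theorem ind_pos {X : Finset ℕ} (h : P X) : ind P X = 1 := if_pos h

theorem ind_neg {X : Finset ℕ} (h : ¬ P X) : ind P X = 0 := if_neg h

theorem ind_nonneg (P : Finset ℕ → Prop) (X : Finset ℕ) : 0 ≤ ind P X := by
  unfold ind
  split_ifs <;> norm_num

theorem ind_le_one (P : Finset ℕ → Prop) (X : Finset ℕ) : ind P X ≤ 1 := by
  unfold ind
  split_ifs <;> norm_num

theorem ind_le {X Y : Finset ℕ} (h : P X → Q Y) : ind P X ≤ ind Q Y := by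
  by_cases c : P X
  · rw [ind_pos c, ind_pos (h c)]
  · rw [ind_neg c]
    exact ind_nonneg _ _

theorem ind_mono (h : Up P) : Monotone (ind P) := fun _ _ e => ind_le (h _ _ e)

theorem pr_nonneg (V : Finset ℕ) (i : ℕ) (P : Finset ℕ → Prop) : 0 ≤ pr V i P :=
  av_nonneg fun X _ _ => ind_nonneg P X

theorem pr_le (h : ∀ X, X ⊆ V → X.card = i → P X → Q X) : pr V i P ≤ pr V i Q :=
  av_le fun X a b => ind_le (h X a b)

theorem pr_not (h : i ≤ V.card) (P : Finset ℕ → Prop) :
    pr V i (fun X => ¬ P X) = 1 - pr V i P := by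
  rw [← av_const h (1 : ℝ), pr, pr, ← av_sub]
  refine av_congr fun X _ _ => ?_
  by_cases c : P X
  · rw [ind_pos c, ind_neg (P := fun X => ¬ P X) (not_not.2 c), sub_self]
  · rw [ind_neg c, ind_pos (P := fun X => ¬ P X) c, sub_zero]

theorem pr_le_one (h : i ≤ V.card) (P : Finset ℕ → Prop) : pr V i P ≤ 1 := by
  have := pr_nonneg V i fun X => ¬ P X
  rw [pr_not h] at this
  linarith

theorem mu_erase (p : ℝ) {x : ℕ} (hx : x ∈ V) (P : Finset ℕ → Prop) :
    mu p V P = mu p (V.erase x) P + p * inf p V P x := by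
  conv_lhs => rw [← insert_erase hx]
  rw [mu_insert p (notMem_erase x V), inf]
  ring

theorem ex_add (p : ℝ) (l : List ℕ) (f g : Finset ℕ → ℝ) :
    ex p l (fun X => f X + g X) = ex p l f + ex p l g := by
  induction l generalizing f g with
  | nil => rfl
  | cons x l ih =>
    simp only [ex]
    rw [← ih]
    congr 1
    ext X
    simp only [ee]
    ring

theorem ex_mul (p : ℝ) (l : List ℕ) (a : ℝ) (f : Finset ℕ → ℝ) :
    ex p l (fun X => a * f X) = a * ex p l f := by
  induction l generalizing f with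
  | nil => rfl
  | cons x l ih =>
    simp only [ex]
    rw [← ih]
    congr 1
    ext X
    simp only [ee]
    ring

theorem ex_le {p : ℝ} (h0 : 0 ≤ p) (h1 : p ≤ 1) (l : List ℕ) {f g : Finset ℕ → ℝ}
    (h : ∀ X, X ⊆ l.toFinset → f X ≤ g X) : ex p l f ≤ ex p l g := by
  induction l generalizing f g with
  | nil => exact h _ (empty_subset _)
  | cons x l ih =>
    refine ih fun X hX => ?_
    rw [List.toFinset_cons] at h
    exact add_le_add (mul_le_mul_of_nonneg_left (h _ (insert_subset_insert _ hX)) h0)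
      (mul_le_mul_of_nonneg_left (h _ (hX.trans (subset_insert _ _))) (by linarith))

theorem ex_congr (p : ℝ) (l : List ℕ) {f g : Finset ℕ → ℝ}
    (h : ∀ X, X ⊆ l.toFinset → f X = g X) : ex p l f = ex p l g := by
  induction l generalizing f g with
  | nil => exact h _ (empty_subset _)
  | cons x l ih =>
    refine ih fun X hX => ?_
    rw [List.toFinset_cons] at h
    rw [ee, ee, h _ (insert_subset_insert _ hX), h _ (hX.trans (subset_insert _ _))]

theorem ex_const (p : ℝ) (l : List ℕ) (a : ℝ) : ex p l (fun _ => a) = a := by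
  induction l with
  | nil => rfl
  | cons x l ih =>
    rw [ex, ← ih]
    congr 1
    ext X
    rw [ee, ih]
    ring

theorem ZZ_mono {C : Finset ℕ → Finset ℕ} (h : ∀ X Y, X ⊆ Y → C X ⊆ C Y) (q : ℕ)
    (S : Finset ℕ) : Monotone (ZZ q C S) := fun X Y e => by
  refine sub_le_sub_right (Nat.cast_le.2 (card_le_card fun c hc => ?_)) _
  rw [mem_filter] at hc ⊢
  refine ⟨h _ _ (union_subset_union_right e) hc.1, fun y _ => ?_⟩
  by_cases d : y ∈ X
  · exact h _ _ (union_subset_union_right (erase_subset_erase y e)) (hc.2 y d)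
  · exact h _ _ (union_subset_union_right (subset_erase.2 ⟨e, d⟩)) hc.1

theorem pig (L : ℕ → ℝ) (a d : ℕ) (D : ℝ) (hd : 1 ≤ d) (h : -D ≤ L (a + d) - L a) :
    ∃ i, a ≤ i ∧ i < a + d ∧ -D ≤ d * (L (i + 1) - L i) := by
  by_contra c
  push Not at c
  have a1 : ∑ i ∈ range d, (d : ℝ) * (L (a + i + 1) - L (a + i)) < ∑ _i ∈ range d, -D :=
    sum_lt_sum_of_nonempty (nonempty_range_iff.2 (by omega)) fun i hi =>
      c (a + i) (by omega) (by have := mem_range.1 hi; omega)
  have a2 := sum_range_sub (fun i => L (a + i)) d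
  simp only [← add_assoc, add_zero] at a2
  rw [← mul_sum, a2, sum_const, card_range, nsmul_eq_mul] at a1
  have : (0 : ℝ) < d := by exact_mod_cast hd
  nlinarith

theorem desc (L : ℕ → ℝ) (a d : ℕ) (g J : ℝ) (ha : 1 ≤ a) (hg : 0 ≤ g) (hJ : (a + d : ℝ) ≤ J)
    (h : ∀ i, a ≤ i → i < a + d → i * (L (i + 1) - L i) ≤ -g) : L (a + d) + d * g / J ≤ L a := by
  induction d with
  | zero => simp
  | succ d ih =>
    push_cast at hJ
    have a1 := ih (by linarith) fun i c1 c2 => h i c1 (by omega)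
    have a2 := h (a + d) (by omega) (by omega)
    have a3 : (1 : ℝ) ≤ a := by exact_mod_cast ha
    have a4 : (0 : ℝ) ≤ d := Nat.cast_nonneg _
    have a5 : (0 : ℝ) < J := by linarith
    push_cast at a2 ⊢
    have a6 : L (a + d + 1) - L (a + d) ≤ 0 := by nlinarith
    have a7 : L (a + d + 1) - L (a + d) ≤ -(g / J) := by
      rw [← neg_div, le_div_iff₀ a5]
      nlinarith
    rw [add_mul, add_div, one_mul, show a + (d + 1) = a + d + 1 from rfl]
    linarith

theorem Sy.base {C : Finset ℕ → Finset ℕ} {Ω S : Finset ℕ} {n q r b : ℕ} (h : Sy C Ω n q r b)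
    (hS : S ⊆ Ω) (hV : V ⊆ Ω) (hd : Disjoint S V) (e : S.card + i = n) (hi : i ≤ V.card) :
    LL q C S V i ≤ r := by
  rw [← av_const hi (r : ℝ)]
  refine av_le fun X c1 c2 => ?_
  have a1 : (S ∪ X).card = n := by
    rw [card_union_of_disjoint (hd.mono_right c1), c2, e]
  have a2 : (q * n : ℝ) ≤ (C (S ∪ X)).card + r := by
    exact_mod_cast h.big _ (union_subset hS (c1.trans hV)) a1
  rw [el, a1]
  linarith

end basic

end Pool.Agent.P.MP_a66f6f_co.Hv
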