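import Pool.Agent.P.MP_a66f6f_co.Hv.Defs

/-!
The steps of the proof.
-/

namespace Pool.Agent.P.MP_a66f6f_co.Hv

open Finset Ped Pos

-- deps:
def S_AVD : Prop := ∀ (V : Finset ℕ) (i : ℕ) (f : Finset ℕ → ℝ), i + 1 ≤ V.card →
  av V (i + 1) (fun X => ∑ x ∈ X, f (X.erase x)) = (i + 1) * av V i f

-- deps: AVD
def S_AVM : Prop := ∀ (V : Finset ℕ) (i j : ℕ) (f : Finset ℕ → ℝ), Monotone f → i ≤ j →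
  j ≤ V.card → av V i f ≤ av V j f

-- deps:
def S_PIN : Prop := ∀ (V : Finset ℕ) (x i : ℕ) (f : Finset ℕ → ℝ), x ∈ V → i + 1 ≤ V.card →
  V.card * av V (i + 1) f = (i + 1) * av (V.erase x) i (fun Y => f (insert x Y)) +
    (V.card - (i + 1)) * av (V.erase x) (i + 1) f

-- deps:
def S_SUB : Prop := ∀ (V : Finset ℕ) (i w : ℕ) (f : Finset ℕ → ℝ), i ≤ w → w ≤ V.card →
  ∃ W, W ⊆ V ∧ W.card = w ∧ av V i f ≤ av W i f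

-- deps:
def S_CPL : Prop := ∀ (V : Finset ℕ) (i : ℕ) (f : Finset ℕ → ℝ), i ≤ V.card →
  av V i f = av V (V.card - i) fun X => f (V \ X)

-- deps:
def S_TR : Prop := ∀ V : Finset ℕ, ∃ e : Fin V.card ↪ ℕ, (∀ x, e x ∈ V) ∧
  (∀ y ∈ V, ∃ x, e x = y) ∧ ∀ (P : Finset ℕ → Prop) (i : ℕ), i ≤ V.card →
    pr V i P = den (fun Y : Finset (Fin V.card) => P (Y.map e)) i

-- deps:
def S_KP1 : Prop := KP 1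

-- deps:
def S_S1F : Prop := ∀ κ : ℝ, 0 ≤ κ → KP κ → ∀ (m : ℕ) (g g' : Finset (Fin m) → Prop) (i j : ℕ),
  Up g → Up g' → (∀ X, g' X → g X) → (∀ X Y, g' X → g Y → ¬ Disjoint X Y) → i ≤ j → i + j ≤ m →
  den g i + den g' j - den g j ≤ i * (den g (i + 1) - den g i) ∧
  (1 + κ) * (den g i + den g' j - den g j) ≤
    i * (den g (i + 1) - den g i) + κ * (den g i - den (Ins1 g) i)

-- deps: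
def S_S0F : Prop := ∀ κ : ℝ, 0 ≤ κ → KP κ → ∀ (m : ℕ) (g : Finset (Fin m) → Prop) (j : ℕ),
  Up g → (∀ X Y, g X → g Y → ¬ Disjoint X Y) → 2 * j ≤ m → 2 ≤ j →
  κ * (j * (j - 1)) * (den (Ins0 g) j - 1 + den g j + (m - j) * (den g (j + 1) - den g j)) ≤
    (1 + κ) * ((m - j) * (m - j - 1)) * (j * den g (j + 1) - (j + 1) * den g j)

-- deps: TR S1F
def S_S1V : Prop := ∀ κ : ℝ, 0 ≤ κ → KP κ → ∀ (V : Finset ℕ) (g g' : Finset ℕ → Prop) (i j : ℕ),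
  Up g → Up g' → (∀ X, g' X → g X) → (∀ X Y, X ⊆ V → Y ⊆ V → g' X → g Y → ¬ Disjoint X Y) →
  1 ≤ i → i ≤ j → i + j ≤ V.card →
  pr V i g + pr V j g' - pr V j g ≤ i * (pr V (i + 1) g - pr V i g) ∧
  (1 + κ) * (pr V i g + pr V j g' - pr V j g) ≤
    i * (pr V (i + 1) g - pr V i g) + κ * (pr V i g - pr V i (Rob g))

-- deps: TR S0F
def S_S0V : Prop := ∀ κ : ℝ, 0 ≤ κ → KP κ → ∀ (V : Finset ℕ) (g : Finset ℕ → Prop) (j : ℕ),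
  Up g → (∀ X Y, g X → g Y → ¬ Disjoint X Y) → 2 * j ≤ V.card → 2 ≤ j →
  κ * (j * (j - 1)) * (pr V j (Dead V g) - 1 + pr V j g +
    (V.card - j) * (pr V (j + 1) g - pr V j g)) ≤
    (1 + κ) * ((V.card - j) * (V.card - j - 1)) * (j * pr V (j + 1) g - (j + 1) * pr V j g)

-- deps: AVD
def S_DN : Prop := ∀ (V : Finset ℕ) (g : Finset ℕ → Prop) (i : ℕ), Up g → i + 1 ≤ V.card →
  pr V (i + 1) g - pr V (i + 1) (Rob g) ≤ (i + 1) * (pr V (i + 1) g - pr V i g)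

-- deps:
def S_KK0 : Prop := ∀ (N r k : ℕ) (A : Finset (Finset (Fin N))), (∀ X ∈ A, X.card = r) →
  r ≤ k → k ≤ N → A.card ≤ k.choose r → A.card * r ≤ (shadow A).card * (k - r + 1)

-- deps: KK0
def S_KK1 : Prop := ∀ (r k : ℕ) (A : Finset (Finset ℕ)), (∀ X ∈ A, X.card = r) →
  r ≤ k → A.card ≤ k.choose r → A.card * r ≤ (shadow A).card * (k - r + 1)

-- deps: KK1
def S_KKD : Prop := ∀ (V : Finset ℕ) (D : Finset ℕ → Prop) (i t : ℕ), Down D →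
  i + 1 + t ≤ V.card →
  pr V (i + 1) D * (V.card.choose (i + 1) : ℝ) ≤ ((V.card - t).choose (i + 1) : ℝ) →
  pr V (i + 1) D * (V.card - i) ≤ pr V i D * (V.card - i - t)

-- deps:
def S_CH : Prop := ∀ v j t : ℕ, 3 * j ≤ 2 * v → 12 * t ≤ v →
  v.choose j ≤ 4 ^ t * (v - t).choose j

-- deps: KKD CH AVM
def S_GD : Prop := ∀ (V : Finset ℕ) (D : Finset ℕ → Prop) (a c t : ℕ), Down D →
  12 * t ≤ V.card → a ≤ c → 3 * c ≤ 2 * V.card → pr V a D * 4 ^ t ≤ 1 →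
  pr V c D * (V.card + t * (c - a)) ≤ pr V a D * V.card

-- deps: GD CPL
def S_GU : Prop := ∀ (V : Finset ℕ) (P : Finset ℕ → Prop) (a c t : ℕ), Up P →
  12 * t ≤ V.card → a ≤ c → c ≤ V.card → V.card ≤ 3 * a → pr V c P * 4 ^ t ≤ 1 →
  pr V a P * (V.card + t * (c - a)) ≤ pr V c P * V.card

-- deps: KKD CPL AVM
def S_PO : Prop := ∀ (V : Finset ℕ) (P : Finset ℕ → Prop) (i : ℕ) (θ : ℝ), Up P →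
  i + 2 ≤ V.card → 0 ≤ θ → θ ≤ pr V i P → θ ≤ 1 - pr V (i + 2) P →
  θ ≤ V.card * (pr V (i + 2) P - pr V i P)

-- deps: PO AVM
def S_PO2 : Prop := ∀ (V : Finset ℕ) (P : Finset ℕ → Prop) (a c e : ℕ) (θ : ℝ), Up P →
  a + 2 * e ≤ c → c ≤ V.card → 0 ≤ θ → θ ≤ pr V c P → θ ≤ 1 - pr V a P →
  θ * e ≤ 2 * V.card * (pr V c P - pr V a P)

-- deps: GU AVM
def S_UI1 : Prop := ∀ (V : Finset ℕ) (Z : Finset ℕ → ℤ) (a c t : ℕ) (M : ℤ), Monotone Z →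
  12 * t ≤ V.card → a ≤ c → c ≤ V.card → V.card ≤ 3 * a →
  pr V c (fun X => M < Z X) * 4 ^ t ≤ 1 →
  t * (c - a) * av V a (fun X => max ((Z X : ℝ) - M) 0) ≤
    V.card * (av V c (fun X => (Z X : ℝ)) - av V a fun X => (Z X : ℝ))

-- deps: GD AVM
def S_UI2 : Prop := ∀ (V : Finset ℕ) (Z : Finset ℕ → ℤ) (a c t : ℕ) (M : ℤ), Monotone Z →
  12 * t ≤ V.card → a ≤ c → 3 * c ≤ 2 * V.card →
  pr V a (fun X => Z X < M) * 4 ^ t ≤ 1 →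
  t * (c - a) * av V c (fun X => max ((M : ℝ) - Z X) 0) ≤
    V.card * (av V c (fun X => (Z X : ℝ)) - av V a fun X => (Z X : ℝ))

-- deps: PO2 AVM
def S_UI3 : Prop := ∀ (V : Finset ℕ) (Z : Finset ℕ → ℤ) (a c e : ℕ) (lo hi : ℤ) (θ : ℝ),
  Monotone Z → a + 2 * e ≤ c → c ≤ V.card → lo ≤ hi → 0 ≤ θ →
  θ ≤ pr V c (fun X => hi ≤ Z X) → θ ≤ pr V a (fun X => Z X ≤ lo) →
  (hi - lo) * θ * e ≤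
    2 * V.card * (av V c (fun X => (Z X : ℝ)) - av V a fun X => (Z X : ℝ))

-- deps: UI1 UI2 UI3 AVM
def S_UI : Prop := ∀ δ β : ℝ, 0 < δ → 0 < β → ∃ M : ℝ, 0 ≤ M ∧ ∃ v₀ : ℕ,
  ∀ (V : Finset ℕ) (Z : Finset ℕ → ℤ) (a c : ℕ) (B : ℝ), Monotone Z → v₀ ≤ V.card →
  V.card ≤ 3 * a → 3 * c ≤ 2 * V.card → a + δ * V.card ≤ c →
  -B ≤ av V a (fun X => (Z X : ℝ)) → av V c (fun X => (Z X : ℝ)) ≤ B →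
  av V a (fun X => max ((Z X : ℝ) - M * B) 0) ≤ β * B ∧
  av V c (fun X => max (-(Z X : ℝ) - M * B) 0) ≤ β * B

-- deps:
def S_EXM : Prop := ∀ (p : ℝ) (l : List ℕ) (P : Finset ℕ → Prop), l.Nodup →
  ex p l (ind P) = mu p l.toFinset P

-- deps:
def S_EXCS : Prop := ∀ (p : ℝ) (l : List ℕ) (f g : Finset ℕ → ℝ), 0 ≤ p → p ≤ 1 →
  ex p l (fun X => f X * g X) ^ 2 ≤ ex p l (fun X => f X ^ 2) * ex p l fun X => g X ^ 2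

-- deps:
def S_PARS : Prop := ∀ (p : ℝ) (l : List ℕ) (f : Finset ℕ → ℝ), 0 ≤ p → p ≤ 1 →
  (PP p l f).eval 1 = ex p l (fun X => f X ^ 2) ∧ (PP p l f).eval 0 = ex p l f ^ 2 ∧
  ∀ k, 0 ≤ (PP p l f).coeff k

-- deps:
def S_DER : Prop := ∀ (p t : ℝ) (l : List ℕ) (f : Finset ℕ → ℝ), l.Nodup →
  (Polynomial.derivative (PP p l f)).eval t =
    p * (1 - p) * ∑ x ∈ l.toFinset, (PP p (l.erase x) (dd x f)).eval t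

-- deps:
def S_INN : Prop := ∀ (p : ℝ) (l : List ℕ) (f : Finset ℕ → ℝ), l.Nodup →
  ex p l (fun X => f X * TT p l f X) = (PP p l f).eval (1 / 5)

-- deps: EXCS PARS
def S_HYP : Prop := ∀ (p : ℝ) (l : List ℕ) (f : Finset ℕ → ℝ), l.Nodup → 1 / 3 ≤ p → p ≤ 2 / 3 →
  ex p l (fun X => TT p l f X ^ 4) ≤ (PP p l f).eval (1 / 5) ^ 2

-- deps: EXCS INN HYP
def S_SML : Prop := ∀ (p : ℝ) (l : List ℕ) (g : Finset ℕ → ℝ), l.Nodup → 1 / 3 ≤ p → p ≤ 2 / 3 →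
  (∀ X, g X = 0 ∨ g X = 1) → (PP p l g).eval (1 / 5) ^ 2 ≤ ex p l g ^ 3

-- deps:
def S_POLY : Prop := ∀ (P : Polynomial ℝ) (D : ℕ), 1 ≤ D → (∀ k, 0 ≤ P.coeff k) →
  P.eval 1 - P.eval 0 ≤
    5 ^ D * (Polynomial.derivative P).eval (1 / 5) + (Polynomial.derivative P).eval 1 / D

-- deps: EXM PARS DER SML POLY
def S_KKL : Prop := ∀ ε B : ℝ, 0 < ε → 0 < B → ∃ c : ℝ, 0 < c ∧
  ∀ (V : Finset ℕ) (P : Finset ℕ → Prop) (p : ℝ), Up P → 1 / 3 ≤ p → p ≤ 2 / 3 →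
  ε ≤ mu p V P → mu p V P ≤ 1 - ε → ∑ x ∈ V, inf p V P x ≤ B → ∃ x ∈ V, c ≤ inf p V P x

-- deps:
def S_RUS : Prop := ∀ (V : Finset ℕ) (P : Finset ℕ → Prop) (p : ℝ),
  HasDerivAt (fun p => mu p V P) (∑ x ∈ V, inf p V P x) p

-- deps:
def S_MUM : Prop := ∀ (V : Finset ℕ) (P : Finset ℕ → Prop) (p p' : ℝ), Up P → 0 ≤ p → p ≤ p' →
  p' ≤ 1 → mu p V P ≤ mu p' V P ∧ ∀ T, mu p (V \ T) P ≤ mu p V P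

-- deps:
def S_RISE : Prop := ∀ (f f' : ℝ → ℝ) (p₁ p₂ B : ℝ), p₁ < p₂ → (∀ p, HasDerivAt f (f' p) p) →
  (∀ p, p₁ ≤ p → p ≤ p₂ → 0 ≤ f p ∧ f p ≤ 1) → 2 < B * (p₂ - p₁) →
  ∃ p, p₁ ≤ p ∧ 2 * p ≤ p₁ + p₂ ∧ f' p ≤ B ∧ ∀ g, p ≤ g → g ≤ p₂ → f g - f p ≤ B * (g - p)

-- deps: KKL RUS MUM RISE
def S_TST : Prop := ∀ ε δ : ℝ, 0 < ε → 0 < δ → ∃ h c : ℝ, 0 < h ∧ 0 < c ∧
  ∀ (V : Finset ℕ) (P : Finset ℕ → Prop) (p₁ p₂ : ℝ), Up P → 1 / 3 ≤ p₁ → p₁ + δ ≤ p₂ →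
  p₂ ≤ 2 / 3 → ε ≤ mu p₁ V P → mu p₂ V P ≤ 1 - ε →
  ∃ x ∈ V, ∃ p, p₁ ≤ p ∧ p + h ≤ p₂ ∧
    ∀ g, p ≤ g → g ≤ p + h → mu g (V.erase x) P + c ≤ mu g V P

-- deps: TST MUM
def S_ITER : Prop := ∀ ε δ : ℝ, 0 < ε → 0 < δ → ∃ K : ℕ,
  ∀ (V : Finset ℕ) (P : Finset ℕ → Prop) (p₁ p₂ : ℝ), Up P → 1 / 3 ≤ p₁ → p₁ + δ ≤ p₂ →
  p₂ ≤ 2 / 3 → mu p₂ V P ≤ 1 - ε → ∃ T, T ⊆ V ∧ T.card ≤ K ∧ mu p₁ (V \ T) P ≤ ε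

-- deps:
def S_VAR : Prop := ∀ (v : ℕ) (p : ℝ),
  ∑ i ∈ range (v + 1), (v.choose i : ℝ) * (p ^ i * (1 - p) ^ (v - i)) * (i - p * v) ^ 2 =
    v * (p * (1 - p))

-- deps:
def S_MIX : Prop := ∀ (V : Finset ℕ) (P : Finset ℕ → Prop) (p : ℝ), mu p V P =
  ∑ i ∈ range (V.card + 1), (V.card.choose i : ℝ) * (p ^ i * (1 - p) ^ (V.card - i)) * pr V i P

-- deps: VAR MIX AVM
def S_BIN : Prop := ∀ (V : Finset ℕ) (P : Finset ℕ → Prop) (p t : ℝ) (a : ℕ), Up P → 0 ≤ p →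
  p ≤ 1 → 0 < t → a ≤ V.card →
  (a + t ≤ p * V.card → pr V a P ≤ mu p V P + V.card / t ^ 2) ∧
  (p * V.card + t ≤ a → mu p V P ≤ pr V a P + V.card / t ^ 2)

-- deps: ITER BIN
def S_STT : Prop := ∀ η δ : ℝ, 0 < η → 0 < δ → ∃ K v₀ : ℕ,
  ∀ (V : Finset ℕ) (P : Finset ℕ → Prop) (a c : ℕ), Up P → v₀ ≤ V.card → V.card ≤ 3 * a →
  3 * c ≤ 2 * V.card → a + δ * V.card ≤ c → pr V c P ≤ 1 - η →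
  ∃ T, T ⊆ V ∧ T.card ≤ K ∧ pr (V \ T) a P ≤ η

-- deps: STT CPL AVM
def S_STS : Prop := ∀ η δ : ℝ, 0 < η → 0 < δ → ∃ K v₀ : ℕ,
  ∀ (V : Finset ℕ) (P : Finset ℕ → Prop) (a c : ℕ), Up P → v₀ ≤ V.card → V.card ≤ 3 * a →
  3 * c ≤ 2 * V.card → a + δ * V.card ≤ c → η ≤ pr V a P →
  ∃ U, U ⊆ V ∧ U.card ≤ K ∧ 1 - η ≤ pr (V \ U) c fun X => P (U ∪ X)

-- deps:
def S_BEST : Prop := ∀ (T : Finset ℕ) (u : ℕ → ℝ) (k : ℕ), k ≤ T.card →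
  ∃ B, B ⊆ T ∧ B.card = k ∧ k * ∑ x ∈ T, u x ≤ T.card * ∑ x ∈ B, u x

-- deps: BEST
def S_PT : Prop := ∀ (C : Finset ℕ → Finset ℕ) (Ω : Finset ℕ) (n q r b : ℕ) (S X : Finset ℕ),
  Sy C Ω n q r b → S ⊆ Ω → X ⊆ Ω → Disjoint S X → S.card ≤ n → n ≤ S.card + X.card →
  el q C (S ∪ X) ≤ r ∨ ((b - S.card : ℝ) ≤ ZZ q C S X ∧
    (n - S.card) * (el q C (S ∪ X) + ZZ q C S X) ≤ X.card * (r + ZZ q C S X))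

-- deps: PT
def S_PT2 : Prop := ∀ (C : Finset ℕ → Finset ℕ) (Ω : Finset ℕ) (n q r b : ℕ) (S X : Finset ℕ),
  Ctx C Ω n q r b → S ⊆ Ω → X ⊆ Ω → Disjoint S X → 3 * S.card ≤ n → 1 ≤ n → n ≤ X.card →
  S ∪ X ≠ Ω → el q C (S ∪ X) ≤ r ∨ ((b - S.card : ℝ) ≤ ZZ q C S X ∧
    el q C (S ∪ X) ≤ 3 * r + 2 * max (ZZ q C S X : ℝ) 0)

-- deps: PT
def S_PT3 : Prop := ∀ (C : Finset ℕ → Finset ℕ) (Ω : Finset ℕ) (n q r b : ℕ) (U X : Finset ℕ),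
  Ctx C Ω n q r b → U ⊆ Ω → X ⊆ Ω → Disjoint U X → U.card ≤ n → n ≤ X.card →
  n ≤ (Ω \ (U ∪ X)).card → ZZ q C ∅ (Ω \ (U ∪ X)) < b → (b - U.card : ℝ) ≤ ZZ q C U X

-- deps:
def S_AG0 : Prop := ∀ (C : Finset ℕ → Finset ℕ) (Ω : Finset ℕ) (n q r b : ℕ) (S V : Finset ℕ)
  (i : ℕ), Sy C Ω n q r b → S ⊆ Ω → V ⊆ Ω → Disjoint S V → i ≤ V.card →
  LL q C S V i = q * (S.card + i) - ∑ c ∈ C Ω, pr V i (fun X => c ∈ C (S ∪ X)) ∧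
  EZ q C S V i = ∑ c ∈ C Ω, pr V i (Rob fun X => c ∈ C (S ∪ X)) - q * S.card

-- deps: KP1 S1V AG0
def S_AGA : Prop := ∀ (C : Finset ℕ → Finset ℕ) (Ω : Finset ℕ) (n q r b : ℕ) (S V : Finset ℕ)
  (i j : ℕ), Sy C Ω n q r b → S ⊆ Ω → V ⊆ Ω → Disjoint S V → 1 ≤ i → i ≤ j → i + j ≤ V.card →
  i * (LL q C S V (i + 1) - LL q C S V i) ≤ LL q C S V i + LL q C ∅ V j - LL q C S V j

-- deps: S1V AG0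
def S_AGB : Prop := ∀ κ : ℝ, 0 ≤ κ → KP κ →
  ∀ (C : Finset ℕ → Finset ℕ) (Ω : Finset ℕ) (n q r b : ℕ) (S V : Finset ℕ)
  (i : ℕ), Sy C Ω n q r b → S ⊆ Ω → V ⊆ Ω → Disjoint S V → 1 ≤ i → 2 * i ≤ V.card →
  κ * EZ q C S V i ≤ (1 + κ) * LL q C ∅ V i - κ * LL q C S V i -
    i * (LL q C S V (i + 1) - LL q C S V i)

-- deps: DN AG0
def S_AG2 : Prop := ∀ (C : Finset ℕ → Finset ℕ) (Ω : Finset ℕ) (n q r b : ℕ) (S V : Finset ℕ)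
  (i : ℕ), Sy C Ω n q r b → S ⊆ Ω → V ⊆ Ω → Disjoint S V → i + 1 ≤ V.card →
  (i + 1) * (LL q C S V (i + 1) - LL q C S V i) - LL q C S V (i + 1) ≤ EZ q C S V (i + 1)

-- deps: S0V AG0
def S_AG3 : Prop := ∀ κ : ℝ, 0 ≤ κ → KP κ →
  ∀ (C : Finset ℕ → Finset ℕ) (Ω : Finset ℕ) (n q r b : ℕ) (i : ℕ), Sy C Ω n q r b →
  2 * i ≤ Ω.card → 2 ≤ i →
  κ * (i * (i - 1)) * (av Ω i (fun X => (ZZ q C ∅ (Ω \ X) : ℝ)) + el q C Ω - LL q C ∅ Ω i -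
    (Ω.card - i) * (LL q C ∅ Ω (i + 1) - LL q C ∅ Ω i)) ≤
    (1 + κ) * ((Ω.card - i) * (Ω.card - i - 1)) *
      (LL q C ∅ Ω i - i * (LL q C ∅ Ω (i + 1) - LL q C ∅ Ω i))

-- deps: AGA
def S_L0 : Prop := ∀ (C : Finset ℕ → Finset ℕ) (Ω : Finset ℕ) (n q r b : ℕ) (V : Finset ℕ)
  (i : ℕ), Ctx C Ω n q r b → V ⊆ Ω → 1 ≤ n → n ≤ i → 2 * i ≤ V.card → LL q C ∅ V i ≤ 2 * r

-- deps: AGA L0
def S_LIP : Prop := ∀ (C : Finset ℕ → Finset ℕ) (Ω : Finset ℕ) (n q r b : ℕ) (S V : Finset ℕ)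
  (i j : ℕ), Ctx C Ω n q r b → S ⊆ Ω → V ⊆ Ω → Disjoint S V → 1 ≤ n → n ≤ i → i ≤ j →
  2 * j ≤ V.card + 2 → i * (LL q C S V j - LL q C S V i) ≤ 2 * r * (j - i) ∧
    LL q C S V j - LL q C S V i ≤ 2 * (j - i)

-- deps: AGA
def S_INI : Prop := ∀ (C : Finset ℕ → Finset ℕ) (Ω : Finset ℕ) (n q r b : ℕ) (S V : Finset ℕ),
  Sy C Ω n q r b → S ⊆ Ω → V ⊆ Ω → Disjoint S V → 2 * S.card ≤ n → 2 * n ≤ V.card →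
  LL q C S V n ≤ r + 2 * S.card

-- deps: INI LIP
def S_APR : Prop := ∀ (C : Finset ℕ → Finset ℕ) (Ω : Finset ℕ) (n q r b : ℕ) (S V : Finset ℕ)
  (i : ℕ), Ctx C Ω n q r b → S ⊆ Ω → V ⊆ Ω → Disjoint S V → 1 ≤ n → 2 * S.card ≤ n → n ≤ i →
  2 * i ≤ V.card → LL q C S V i ≤ 4 * n

-- deps: PIN
def S_CHAIN : Prop := ∀ (f : Finset ℕ → ℝ) (S V : Finset ℕ) (i K : ℕ) (U lam η : ℝ),
  2 * (i + 1) + K ≤ V.card → 0 ≤ lam → 0 ≤ η →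
  (∀ T, T ⊆ V → T.card < K → ∀ x ∈ V \ T,
    av ((V \ T).erase x) i (fun X => f (insert x S ∪ X)) ≤ U + lam) →
  U - η ≤ av V (i + 1) (fun X => f (S ∪ X)) →
  ∀ T, T ⊆ V → T.card ≤ K →
    U + lam - 2 ^ T.card * (η + lam) ≤ av (V \ T) (i + 1) fun X => f (S ∪ X)

-- deps:
def S_WZ : Prop := ∀ (V : Finset ℕ) (i : ℕ) (Z : Finset ℕ → ℝ) (P : Finset ℕ → Prop)
  (t A N E η : ℝ), i ≤ V.card → 0 ≤ A → 0 ≤ N → t ≤ N → 0 ≤ η →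
  (∀ X, X ⊆ V → X.card = i → P X → t ≤ Z X) → 1 - η ≤ pr V i P →
  av V i (fun X => max (-Z X - A) 0) ≤ E → t - η * (N + A) - E ≤ av V i Z

-- deps: KP1 AGB AG2 L0 UI AVM
def S_TZ : Prop := ∀ δ β : ℝ, 0 < δ → 0 < β → ∃ M : ℝ, 0 ≤ M ∧ ∃ v₀ : ℕ,
  ∀ (C : Finset ℕ → Finset ℕ) (Ω : Finset ℕ) (n q r b : ℕ) (S V : Finset ℕ) (w d : ℕ),
  Ctx C Ω n q r b → S ⊆ Ω → V ⊆ Ω → Disjoint S V → 1 ≤ n → v₀ ≤ V.card → n ≤ w →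
  V.card ≤ 3 * w → δ * V.card ≤ d → 2 * (w + 3 * d) ≤ V.card →
  (∀ i, w ≤ i → i ≤ w + 3 * d → -(4 * n) ≤ LL q C S V i ∧ LL q C S V i ≤ 4 * n) →
  av V (w + d) (fun X => max ((ZZ q C S X : ℝ) - M * n) 0) ≤ β * n ∧
  av V (w + 2 * d) (fun X => max (-(ZZ q C S X : ℝ) - M * n) 0) ≤ β * n

-- deps: TZ PT2 STT WZ
def S_WIN : Prop := ∀ ε δ : ℝ, 0 < ε → 0 < δ → ∃ K n₀ : ℕ,
  ∀ (C : Finset ℕ → Finset ℕ) (Ω : Finset ℕ) (n q r b : ℕ) (S V : Finset ℕ) (w d : ℕ),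
  Ctx C Ω n q r b → S ⊆ Ω → V ⊆ Ω → Disjoint S V → n₀ ≤ n → 3 * S.card ≤ n → n ≤ w →
  V.card ≤ 3 * w → δ * V.card ≤ d → 2 * (w + 3 * d) + K ≤ V.card →
  (∀ T, T ⊆ V → T.card ≤ K → ∀ i, w ≤ i → i ≤ w + 3 * d →
    r + ε * n ≤ LL q C S (V \ T) i ∧ LL q C S (V \ T) i ≤ 4 * n) →
  b - S.card - ε * n ≤ EZ q C S V (w + 2 * d)

-- deps: AGB AVM
def S_DEC : Prop := ∀ κ : ℝ, 1 ≤ κ → κ ≤ 2 → KP κ →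
  ∀ (C : Finset ℕ → Finset ℕ) (Ω : Finset ℕ) (n q r b : ℕ) (S V : Finset ℕ) (a d : ℕ)
  (γ ε : ℝ), Sy C Ω n q r b → S ⊆ Ω → V ⊆ Ω → Disjoint S V → 1 ≤ a → 2 * (a + d) ≤ V.card →
  0 ≤ ε → 14 * ε ≤ γ → r + γ * n ≤ κ * b → b - ε * n ≤ EZ q C S V a →
  (∀ i, a ≤ i → i < a + d → LL q C ∅ V i ≤ r + ε * n ∧ r - ε * n ≤ LL q C S V i) →
  LL q C S V (a + d) + d * (γ * n) / V.card ≤ LL q C S V a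

-- deps: WIN DEC CHAIN LIP APR
def S_STEP : Prop := ∀ κ : ℝ, 1 ≤ κ → κ ≤ 2 → KP κ → ∀ γ ε lam : ℝ, 0 < ε → 14 * ε ≤ γ →
  0 ≤ lam → ∃ n₀ : ℕ,
  ∀ (C : Finset ℕ → Finset ℕ) (Ω : Finset ℕ) (n q r b : ℕ) (S V : Finset ℕ) (J : ℕ),
  Ctx C Ω n q r b → S ⊆ Ω → V ⊆ Ω → Disjoint S V → n₀ ≤ n → r + γ * n ≤ κ * b →
  8 * (S.card + 1) ≤ ε * n → V.card = 2 * J → (1 + ε / 4) * n ≤ J →
  (∀ (i : ℕ) (S' V' : Finset ℕ), i < J → S' ⊆ Ω → V' ⊆ Ω → Disjoint S' V' →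
    8 * S'.card ≤ ε * n → n ≤ i → 2 * i ≤ V'.card →
    LL q C S' V' i ≤ r + ε * n + lam * S'.card) →
  LL q C S V J ≤ r + ε * n + lam * S.card

-- deps: STEP SUB INI LIP APR
def S_IND : Prop := ∀ κ : ℝ, 1 ≤ κ → κ ≤ 2 → KP κ → ∀ γ ε : ℝ, 0 < ε → 14 * ε ≤ γ →
  ∃ lam : ℝ, 0 ≤ lam ∧ ∃ n₀ : ℕ,
  ∀ (C : Finset ℕ → Finset ℕ) (Ω : Finset ℕ) (n q r b : ℕ), Ctx C Ω n q r b → n₀ ≤ n →
  r + γ * n ≤ κ * b → ∀ (i : ℕ) (S V : Finset ℕ), S ⊆ Ω → V ⊆ Ω → Disjoint S V →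
  8 * S.card ≤ ε * n → n ≤ i → 2 * i ≤ V.card → LL q C S V i ≤ r + ε * n + lam * S.card

-- deps: CPL LIP
def S_LOW : Prop := ∀ (C : Finset ℕ → Finset ℕ) (Ω : Finset ℕ) (n q r b : ℕ) (U : Finset ℕ)
  (i : ℕ) (e : ℝ), Ctx C Ω n q r b → U ⊆ Ω → 1 ≤ n → n ≤ i → 2 * i ≤ (Ω \ U).card →
  LL q C ∅ (Ω \ U) ((Ω \ U).card / 2) ≤ r + e →
  i * (r - e - 1 - LL q C U (Ω \ U) i) ≤ r * ((Ω \ U).card - 2 * i)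

-- deps:
def S_C1N : Prop := ∀ κ γ ε η m i n r b E τ L s : ℝ, 1 ≤ κ → κ ≤ 2 → 0 ≤ ε → 0 ≤ η → 2 ≤ i →
  2 * i ≤ m → 0 ≤ r → 0 ≤ b → b + r = n → r + γ * n ≤ κ * b → 0 < n → η + 4 * ε ≤ γ / 4 →
  (m - i) * (m - i - 1) ≤ (1 + γ / 20) * (i * (i - 1)) → b - η * n ≤ E → 2 * r ≤ τ →
  L ≤ r + ε * n →
  κ * (i * (i - 1)) * (E + τ - L - (m - i) * s) ≤
    (1 + κ) * ((m - i) * (m - i - 1)) * (L - i * s) → i * s ≤ -(γ * n / 32)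

-- deps: AG3 C1N AVM WZ
def S_CASE1 : Prop := ∀ κ : ℝ, 1 ≤ κ → κ ≤ 2 → KP κ →
  ∀ (C : Finset ℕ → Finset ℕ) (Ω : Finset ℕ) (n q r b : ℕ) (a D : ℕ) (γ ε η : ℝ),
  Ctx C Ω n q r b → 1 ≤ n → 2 ≤ a → 2 * (a + D) ≤ Ω.card → 0 ≤ ε → 0 ≤ η →
  η + 4 * ε ≤ γ / 4 → r + γ * n ≤ κ * b →
  ((Ω.card : ℝ) - a) ^ 2 ≤ (1 + γ / 20) * (a - 1) ^ 2 →
  pr Ω (a + D) (fun X => ZZ q C ∅ (Ω \ X) < b) ≤ η →
  (∀ i, a ≤ i → i < a + D → LL q C ∅ Ω i ≤ r + ε * n) →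
  LL q C ∅ Ω (a + D) + D * (γ * n) / (16 * Ω.card) ≤ LL q C ∅ Ω a

-- deps: TZ PT3 WZ DEC
def S_CASE2 : Prop := ∀ κ : ℝ, 1 ≤ κ → κ ≤ 2 → KP κ → ∀ γ y : ℝ, 0 < γ → 0 < y →
  ∃ η : ℝ, 0 < η ∧ ∃ v₀ : ℕ,
  ∀ (C : Finset ℕ → Finset ℕ) (Ω : Finset ℕ) (n q r b : ℕ) (U : Finset ℕ) (w d : ℕ),
  Ctx C Ω n q r b → U ⊆ Ω → 1 ≤ n → v₀ ≤ (Ω \ U).card → n ≤ w → (Ω \ U).card ≤ 3 * w →
  y * (Ω \ U).card ≤ d → 2 * (w + 3 * d) ≤ (Ω \ U).card → 56 * U.card ≤ γ * n →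
  r + γ * n ≤ κ * b →
  (∀ i, w ≤ i → i ≤ w + 3 * d → LL q C ∅ (Ω \ U) i ≤ r + γ / 14 * n ∧
    r - γ / 14 * n ≤ LL q C U (Ω \ U) i ∧ LL q C U (Ω \ U) i ≤ 4 * n) →
  1 - η ≤ pr (Ω \ U) (w + 2 * d) (fun X => ZZ q C ∅ (Ω \ (U ∪ X)) < b) →
  LL q C U (Ω \ U) (w + 3 * d) + y * γ * n ≤ LL q C U (Ω \ U) (w + 2 * d)

-- deps: IND LOW CASE1 CASE2 STS APR
def S_TOP : Prop := ∀ κ : ℝ, 1 ≤ κ → κ ≤ 2 → KP κ → ∀ γ δ : ℝ, 0 < γ → 0 < δ → ∃ n₀ : ℕ,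
  ∀ (C : Finset ℕ → Finset ℕ) (Ω : Finset ℕ) (n q r b : ℕ), Ctx C Ω n q r b → n₀ ≤ n →
  r + γ * n ≤ κ * b → (2 + δ) * n ≤ Ω.card → False

-- deps:
def S_HOM : Prop := ∀ (C : Finset ℕ → Finset ℕ) (Ω : Finset ℕ) (n a r b : ℕ),
  Sy C Ω n (a + 1) r b → 1 ≤ b → Nonempty (kneser Ω.card n →g kneser (C Ω).card (a * n + b))

-- deps:
def S_SYS : Prop := ∀ m n N a r b : ℕ, 1 ≤ n → b + r = n →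
  Nonempty (kneser m n →g kneser N (a * n + b)) →
  ∃ C : Finset ℕ → Finset ℕ, Sy C (range m) n (a + 1) r b ∧ (C (range m)).card ≤ N

-- deps:
def S_NEAR : Prop := ∀ n m a b : ℕ, 2 * n ≤ m → b ≤ n → 10 ^ 9 * n ^ 3 * (m - 2 * n) < b ^ 4 →
  IsLeast {N : ℕ | Nonempty (kneser m n →g kneser N (a * n + b))} ((a + 1) * m - 2 * (n - b))

-- deps: TOP HOM SYS NEAR
def S_MAIN : Prop := ∀ κ : ℝ, 1 ≤ κ → κ ≤ 2 → KP κ → ∀ γ : ℝ, 0 < γ → ∃ n₀ : ℕ,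
  ∀ n m a b : ℕ, n₀ ≤ n → 2 * n ≤ m → b ≤ n → (n - b : ℝ) + γ * n ≤ κ * b →
  IsLeast {N : ℕ | Nonempty (kneser m n →g kneser N (a * n + b))} ((a + 1) * m - 2 * (n - b))

-- deps: MAIN
def S_FIN : Prop := ∀ κ : ℝ, 1 ≤ κ → κ ≤ 2 → KP κ → ∃ ρ : ℕ → ℝ, (∀ n, 1 / 16 ≤ ρ n) ∧
  Filter.Tendsto ρ Filter.atTop (nhds (κ / (1 + κ))) ∧
  ∀ n m a b : ℕ, 1 ≤ n → 2 * n ≤ m → b ≤ n → (n - b : ℝ) ≤ ρ n * n →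
  IsLeast {N : ℕ | Nonempty (kneser m n →g kneser N (a * n + b))} ((a + 1) * m - 2 * (n - b))

end Pool.Agent.P.MP_a66f6f_co.Hv
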