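import Pool.Agent.P.MP_a66f6f_co.Hv.Iface

/-! Step L0. -/

namespace Pool.Agent.P.MP_a66f6f_co.Hv

open Finset Ped Pos

namespace L0c

end L0c

theorem p_L0 (hAGA : S_AGA) :
    S_L0 := by
  intro C Ω n q r b V i h hV hn hi h2
  by_cases c : 2 * n ≤ i
  · rw [← av_const (V := V) (i := i) (by omega) (2 * r : ℝ)]
    refine av_le fun X c1 c2 => ?_
    have a0 : V.card ≤ Ω.card := card_le_card hV
    have a1 : X ≠ Ω := fun e => by
      rw [e] at c2
      omega
    have a2 : (q * X.card : ℝ) ≤ (C X).card + 2 * r := by
      exact_mod_cast h.small X (c1.trans hV) a1 (by omega)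
    rw [empty_union, el]
    linarith
  · have key : ∀ k, n ≤ k → k ≤ i → (n : ℝ) * LL q C ∅ V k ≤ r * k := by
      intro k hk
      induction k, hk using Nat.le_induction with
      | base =>
        intro _
        have := h.toSy.base (S := ∅) (V := V) (i := n) (empty_subset _) hV
          (disjoint_empty_left _) (by simp) (by omega)
        have a : (0 : ℝ) ≤ n := Nat.cast_nonneg _
        nlinarith
      | succ k hk ih =>
        intro hk1
        have a1 := ih (by omega)
        have a2 := hAGA C Ω n q r b ∅ V k k h.toSy (empty_subset _) hV (disjoint_empty_left _)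
          (by omega) le_rfl (by omega)
        have a3 : (0 : ℝ) < k := by exact_mod_cast (show 0 < k by omega)
        have a4 : (0 : ℝ) ≤ n := Nat.cast_nonneg _
        push_cast
        refine le_of_mul_le_mul_left ?_ a3
        have a5 : (n : ℝ) * (k * LL q C ∅ V (k + 1)) ≤ n * ((k + 1) * LL q C ∅ V k) :=
          mul_le_mul_of_nonneg_left (by linarith) a4
        have a6 : ((k : ℝ) + 1) * (n * LL q C ∅ V k) ≤ (k + 1) * (r * k) :=
          mul_le_mul_of_nonneg_left a1 (by linarith)
        nlinarith
    have a1 := key i hi le_rfl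
    have a2 : (0 : ℝ) < n := by exact_mod_cast hn
    have a3 : (i : ℝ) ≤ 2 * n := by exact_mod_cast (show i ≤ 2 * n by omega)
    have a4 : (0 : ℝ) ≤ r := Nat.cast_nonneg _
    refine le_of_mul_le_mul_left ?_ a2
    nlinarith

end Pool.Agent.P.MP_a66f6f_co.Hv
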