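import Pool.Agent.P.MP_a66f6f_co.Hv.Iface

/-! Step LOW. -/

namespace Pool.Agent.P.MP_a66f6f_co.Hv

open Finset Ped Pos

namespace LOWc

theorem el_le {C : Finset ℕ → Finset ℕ} {Ω A B : Finset ℕ} {n q r b : ℕ} (h : Sy C Ω n q r b)
    (hd : Disjoint A B) (e : A ∪ B = Ω) : el q C Ω ≤ el q C A + el q C B := by
  have a1 : (Ω.card : ℝ) = A.card + B.card := by
    rw [← e, card_union_of_disjoint hd, Nat.cast_add]
  have a2 : ((C A).card : ℝ) + (C B).card ≤ (C Ω).card := by
    rw [← Nat.cast_add, Nat.cast_le, ← card_union_of_disjoint (h.disj _ _ hd)]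
    exact card_le_card (union_subset (h.mono _ _ (e ▸ subset_union_left))
      (h.mono _ _ (e ▸ subset_union_right)))
  simp only [el, a1]
  linarith

end LOWc

theorem p_LOW (hCPL : S_CPL) (hLIP : S_LIP) :
    S_LOW := by
  intro C Ω n q r b U i e h hU hn hi hv he
  have hV : Ω \ U ⊆ Ω := sdiff_subset
  have hd : Disjoint U (Ω \ U) := disjoint_sdiff
  have hu : U ∪ Ω \ U = Ω := union_sdiff_of_subset hU
  generalize Ω \ U = V at *
  obtain ⟨k, hk⟩ : ∃ k, k = V.card / 2 := ⟨_, rfl⟩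
  rw [← hk] at he
  have a1 : el q C Ω ≤ LL q C U V k + LL q C ∅ V (V.card - k) := by
    rw [LL, LL, hCPL V k _ (by omega), ← av_add, ← av_const (Nat.sub_le V.card k) (el q C Ω)]
    refine av_le fun X c _ => LOWc.el_le h.toSy ?_ ?_
    · rw [empty_union]
      exact disjoint_union_left.2 ⟨hd.mono_right c, sdiff_disjoint⟩
    · rw [empty_union, union_assoc, sdiff_union_of_subset c, hu]
  have a2 : (2 * r + 1 : ℝ) ≤ el q C Ω := by
    have : (((C Ω).card + 2 * r + 1 : ℕ) : ℝ) ≤ (q * Ω.card : ℕ) := Nat.cast_le.2 h.bad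
    push_cast at this
    rw [el]
    linarith
  have a3 := (hLIP C Ω n q r b ∅ V k (V.card - k) h (empty_subset _) hV (disjoint_empty_left _) hn
    (by omega) (by omega) (by omega)).2
  have a4 := (hLIP C Ω n q r b U V i k h hU hV hd hn hi (by omega) (by omega)).1
  have a5 : ((V.card - k : ℕ) : ℝ) ≤ k + 1 := by exact_mod_cast (by omega : V.card - k ≤ k + 1)
  have a6 : (2 * k : ℝ) ≤ V.card := by exact_mod_cast (by omega : 2 * k ≤ V.card)
  have a7 : (i : ℝ) * (r - e - 1) ≤ i * LL q C U V k :=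
    mul_le_mul_of_nonneg_left (by linarith) (Nat.cast_nonneg _)
  have a8 := mul_le_mul_of_nonneg_left a6 (Nat.cast_nonneg (α := ℝ) r)
  linarith

end Pool.Agent.P.MP_a66f6f_co.Hv
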