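import Pool.Agent.P.MP_a66f6f_co.Hv.Iface

/-! Step PO2. -/

namespace Pool.Agent.P.MP_a66f6f_co.Hv

open Finset Ped Pos

theorem p_PO2 (hPO : S_PO) (hAVM : S_AVM) :
    S_PO2 := by
  intro V P a c e θ hP h1 h2 h0 hc ha
  have mono : ∀ i j, i ≤ j → j ≤ V.card → pr V i P ≤ pr V j P := fun i j hij hj =>
    hAVM V i j _ (ind_mono hP) hij hj
  have hev : (e : ℝ) ≤ V.card := by exact_mod_cast (by omega : e ≤ V.card)
  have he0 : (0 : ℝ) ≤ e := Nat.cast_nonneg _
  have hv0 : (0 : ℝ) ≤ V.card := Nat.cast_nonneg _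
  by_cases c1 : θ / 2 ≤ pr V c P - pr V a P
  · have a1 := mul_le_mul_of_nonneg_left c1 hv0
    have a2 := mul_le_mul_of_nonneg_left hev h0
    linarith
  · have key : ∀ k, k ≤ e → θ / 2 * k ≤ V.card * (pr V (a + 2 * k) P - pr V a P) := by
      intro k
      induction k with
      | zero => simp
      | succ k ih =>
        intro hk
        have a1 := ih (by omega)
        have a2 := mono a (a + 2 * k) (by omega) (by omega)
        have a3 := mono (a + 2 * k + 2) c (by omega) h2
        have a4 := hPO V P (a + 2 * k) (θ / 2) hP (by omega) (by linarith) (by linarith)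
          (by linarith)
        rw [show a + 2 * (k + 1) = a + 2 * k + 2 by ring]
        push_cast
        linarith
    have a1 := key e le_rfl
    have a2 := mul_le_mul_of_nonneg_left (mono (a + 2 * e) c h1 h2) hv0
    linarith

end Pool.Agent.P.MP_a66f6f_co.Hv
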