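import Pool.Agent.P.MP_a66f6f_co.Hv.Iface

/-! Step S0F. -/

namespace Pool.Agent.P.MP_a66f6f_co.Hv

open Finset Ped Pos
open scoped symmDiff

open Classical in
theorem p_S0F : S_S0F := by
  intro κ hk kp m g j h hi e h2
  have hp : (0 : ℝ) < 2 ^ j := by positivity
  have a1 : ∀ σ : Equiv.Perm (Fin m),
      (1 + κ) * ∑ T ∈ (range j).powerset, (if g (pull σ (qq j T)) then (1 : ℝ) else 0) ≤
      ∑ T ∈ (range j).powerset, (∑ t ∈ range j, (if ¬ g (pull σ (qq j T)) ∧
        g (pull σ (insert (ot j T t) (qq j T))) then (1 : ℝ) else 0) +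
        κ * if ((pull 1 (qq j (range j \ T))).filter
          fun x => pv g (pull σ (qq j T)) (σ.symm x)).card = 0 then (0 : ℝ) else 1) := fun σ => by
    have b2 := half hi j σ
    have b4 : ∑ T ∈ (range j).powerset, ind (fun T => ¬ g (pull σ (qq j T))) T =
        2 ^ j - ∑ T ∈ (range j).powerset, (if g (pull σ (qq j T)) then (1 : ℝ) else 0) := by
      rw [eq_sub_iff_add_eq, ← sum_add_distrib, sum_congr rfl (g := fun _ => (1 : ℝ)) fun T _ => by
        by_cases c : g (pull σ (qq j T)) <;> simp [c, ind]]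
      simp
    have b1 := kp (range j) (fun T => ¬ g (pull σ (qq j T)))
      (∑ T ∈ (range j).powerset, (if g (pull σ (qq j T)) then (1 : ℝ) else 0))
      (by rw [b4]; linarith) (by rw [b4, card_range]; linarith)
    refine le_trans b1 (sum_le_sum fun T _ => ?_)
    by_cases c : g (pull σ (qq j T))
    · rw [if_neg (not_not.2 c)]
      refine add_nonneg (sum_nonneg fun _ _ => ite_nn) (mul_nonneg hk ?_)
      split_ifs <;> norm_num
    · rw [if_pos c]
      refine add_le_add ?_ (mul_le_mul_of_nonneg_left ?_ hk)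
      · exact hh_le _ fun t _ d => ⟨c, h _ _ (pull_mono σ (flip_sub T)) (not_not.1 d)⟩
      · split_ifs with d1 d2 d2
        · norm_num
        · norm_num
        · obtain ⟨t, ht⟩ := hh_ne d1
          rw [mem_range] at ht
          refine absurd d2 (card_ne_zero.2 ⟨⟨_, ot_lt e T ht.1⟩, mem_filter.2
            ⟨mem_filter.2 ⟨mem_univ _, ot_mem T ht.1⟩, c, ?_⟩⟩)
          rw [← pull_insert]
          exact h _ _ (pull_mono σ (flip_sub T)) (not_not.1 ht.2)
        · norm_num
  have a2 := sum_le_sum fun σ (_ : σ ∈ univ) => a1 σ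
  simp only [sum_add_distrib, ← mul_sum] at a2
  rw [sum_cnt e, sum_comm,
    sum_congr rfl (g := fun _ => j * (fac m * (den g (j + 1) - den g j))) fun T _ => by
      rw [sum_comm, sum_congr rfl fun t ht => cnt_piv h (qq_sub e _) (ot_lt e _ (mem_range.1 ht))
        (ot_not _ (mem_range.1 ht))]
      simp [card_qq], sum_const, card_powerset, card_range, nsmul_eq_mul, Nat.cast_pow,
    Nat.cast_ofNat, sum_comm] at a2
  have a3 := sum_le_sum fun T (_ : T ∈ (range j).powerset) => show
      (j : ℝ) * (j - 1) * ((m - j) * (fac m * (den g (j + 1) - den g j)) -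
        fac m * (1 - den g j - den (Ins0 g) j)) ≤
      (m - j) * (m - j - 1) * (j * (fac m * (den g (j + 1) - den g j)) -
        ∑ σ : Equiv.Perm (Fin m), if ((pull 1 (qq j (range j \ T))).filter
          fun x => pv g (pull σ (qq j T)) (σ.symm x)).card = 0 then (0 : ℝ) else 1) by
    have b1 := window h (qq_sub e T) (V := pull 1 (qq j (range j \ T)))
      (fun x hx c => disjoint_left.1 (qq_disj j T) c (mem_filter.1 hx).2)
      (by rwa [card_pull _ (qq_sub e _), card_qq])
    rw [card_pull _ (qq_sub e _), card_qq, card_qq] at b1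
    have b2 : ∑ σ : Equiv.Perm (Fin m), (if np g (pull σ (qq j T)) = 0 then (0 : ℝ) else 1) =
        fac m * (1 - den g j - den (Ins0 g) j) := by
      have c1 := cnt_eq g (qq_sub e T)
      have c2 := cnt_eq (Ins0 g) (qq_sub e T)
      rw [card_qq] at c1 c2
      rw [mul_sub, mul_sub, ← c1, ← c2, cnt, cnt, mul_one, fac, ← card_univ, card_eq_sum_ones,
        Nat.cast_sum, ← sum_sub_distrib, ← sum_sub_distrib]
      refine sum_congr rfl fun σ _ => ?_
      generalize pull σ (qq j T) = Y
      have c3 : np g Y = 0 ↔ g Y ∨ Ins0 g Y := by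
        rw [np, card_eq_zero, filter_eq_empty_iff]
        simp only [pv, Ins0, mem_univ, true_imp_iff, not_and]
        by_cases d : g Y <;> simp [d]
      have c4 : g Y → ¬ Ins0 g Y := fun d1 d2 => d2.1 d1
      by_cases d1 : g Y <;> by_cases d2 : Ins0 g Y <;> simp_all
    rwa [b2] at b1
  rw [sum_const, ← mul_sum, sum_sub_distrib, sum_const, card_powerset, card_range, nsmul_eq_mul,
    nsmul_eq_mul, Nat.cast_pow, Nat.cast_ofNat] at a3
  have b1 : (2 : ℝ) * j ≤ m := by exact_mod_cast e
  have b2 : (2 : ℝ) ≤ j := by exact_mod_cast h2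
  have b3 : (0 : ℝ) ≤ (m - j) * (m - j - 1) := mul_nonneg (by linarith) (by linarith)
  refine le_of_mul_le_mul_left ?_ (mul_pos hp (fac_pos m))
  nlinarith [mul_le_mul_of_nonneg_left a2 b3, mul_le_mul_of_nonneg_left a3 hk]

end Pool.Agent.P.MP_a66f6f_co.Hv
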