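import Pool.Agent.P.MP_a66f6f_co.Hv.Iface

/-! Step SML. -/

namespace Pool.Agent.P.MP_a66f6f_co.Hv

open Finset Ped Pos

namespace SMLc

end SMLc

theorem p_SML (hEXCS : S_EXCS) (hINN : S_INN) (hHYP : S_HYP) :
    S_SML := by
  intro p l g hl p0 p1 hg
  have q0 : 0 ≤ p := by linarith
  have q1 : p ≤ 1 := by linarith
  have g2 : ∀ X, g X ^ 2 = g X := fun X => by rcases hg X with h | h <;> simp [h]
  have m0 : 0 ≤ ex p l g := by
    rw [← ex_const p l 0]
    exact ex_le q0 q1 l fun X _ => by rcases hg X with h | h <;> simp [h]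
  have e0 : (fun X => g X ^ 2) = g := funext g2
  have h1 := hEXCS p l g (fun X => g X * TT p l g X) q0 q1
  have h2 := hEXCS p l g (fun X => TT p l g X ^ 2) q0 q1
  have h3 := hHYP p l g hl p0 p1
  have e1 : (fun X => g X * (g X * TT p l g X)) = fun X => g X * TT p l g X :=
    funext fun X => by rw [← mul_assoc, ← sq, g2]
  have e2 : (fun X => (g X * TT p l g X) ^ 2) = fun X => g X * TT p l g X ^ 2 :=
    funext fun X => by rw [mul_pow, g2]
  have e3 : (fun X => (TT p l g X ^ 2) ^ 2) = fun X => TT p l g X ^ 4 :=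
    funext fun X => by ring
  rw [e0, e1, e2, hINN p l g hl] at h1
  rw [e0, e3] at h2
  generalize (PP p l g).eval (1 / 5) = s at *
  generalize ex p l (fun X => g X * TT p l g X ^ 2) = a at *
  generalize ex p l (fun X => TT p l g X ^ 4) = b at *
  generalize ex p l g = m at *
  have h4 : a ^ 2 ≤ m * s ^ 2 := h2.trans (mul_le_mul_of_nonneg_left h3 m0)
  have h5 : (s ^ 2) ^ 2 ≤ (m * a) ^ 2 := pow_le_pow_left₀ (sq_nonneg s) h1 2
  have h6 : s ^ 2 * s ^ 2 ≤ m ^ 3 * s ^ 2 := by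
    have := mul_le_mul_of_nonneg_left h4 (sq_nonneg m)
    calc s ^ 2 * s ^ 2 = (s ^ 2) ^ 2 := by ring
      _ ≤ (m * a) ^ 2 := h5
      _ = m ^ 2 * a ^ 2 := by ring
      _ ≤ m ^ 2 * (m * s ^ 2) := this
      _ = m ^ 3 * s ^ 2 := by ring
  rcases (sq_nonneg s).eq_or_lt with z | z
  · rw [← z]
    positivity
  · exact le_of_mul_le_mul_right h6 z

end Pool.Agent.P.MP_a66f6f_co.Hv
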