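import Pool.Agent.P.MP_a66f6f_co.Hv.Iface

/-! Step STT. -/

namespace Pool.Agent.P.MP_a66f6f_co.Hv

open Finset Ped Pos

namespace STTc

theorem small {w v t d e s : ℝ} (hv : 0 < v) (hd : 0 < d) (he : 0 < e) (hs : 0 < s)
    (hw : w ≤ v) (ht : t = d * v / s) (h : 2 * s ^ 2 / (d ^ 2 * e) ≤ v) : w / t ^ 2 ≤ e / 2 := by
  have h1 : 0 < t := by rw [ht]; positivity
  rw [div_le_iff₀ (by positivity)] at h
  rw [div_le_iff₀ (by positivity), ht, div_pow, ← mul_div_assoc, le_div_iff₀ (by positivity)]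
  have h2 : w * s ^ 2 ≤ v * s ^ 2 := mul_le_mul_of_nonneg_right hw (by positivity)
  have h3 := mul_le_mul_of_nonneg_left h hv.le
  nlinarith

end STTc

theorem p_STT (hITER : S_ITER) (hBIN : S_BIN) :
    S_STT := by
  intro η δ hη hδ
  obtain ⟨K, hK⟩ := hITER (η / 2) (δ / 3) (by positivity) (by positivity)
  refine ⟨K, ⌈12 * K / δ⌉₊ + 3 * K + ⌈2 * 4 ^ 2 / (δ ^ 2 * η)⌉₊ + 1, ?_⟩
  intro V P a c hP hv h1 h2 h3 h4
  have c1 : 12 * K / δ ≤ V.card := (Nat.le_ceil _).trans (Nat.cast_le.2 (by omega))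
  have c2 : 2 * 4 ^ 2 / (δ ^ 2 * η) ≤ V.card := (Nat.le_ceil _).trans (Nat.cast_le.2 (by omega))
  have c3 : 2 * 3 ^ 2 / (δ ^ 2 * η) ≤ V.card :=
    (div_le_div_of_nonneg_right (by norm_num) (by positivity)).trans c2
  have c4 : (0 : ℝ) < V.card := Nat.cast_pos.2 (by omega)
  have c5 : (V.card : ℝ) ≤ 3 * a := by exact_mod_cast h1
  have c6 : (3 * c : ℝ) ≤ 2 * V.card := by exact_mod_cast h2
  rw [div_le_iff₀ hδ] at c1
  obtain ⟨u, hu⟩ : ∃ u : ℝ, u * V.card = a := ⟨a / V.card, div_mul_cancel₀ _ c4.ne'⟩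
  have u1 : 1 / 3 ≤ u := le_of_mul_le_mul_right (by linarith) c4
  have u2 : u + δ ≤ 2 / 3 := le_of_mul_le_mul_right (by rw [add_mul]; linarith) c4
  have b2 := (hBIN V P (u + 2 * δ / 3) (δ * V.card / 3) c hP (by linarith) (by linarith)
    (by positivity) (by omega)).2 (by rw [add_mul]; linarith)
  have s2 := STTc.small c4 hδ hη (by norm_num : (0 : ℝ) < 3) le_rfl rfl c3
  obtain ⟨T, hT, hTK, hm⟩ := hK V P (u + δ / 3) (u + 2 * δ / 3) hP (by linarith) (by linarith)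
    (by linarith) (by linarith)
  refine ⟨T, hT, hTK, ?_⟩
  have d1 : (V \ T).card + T.card = V.card := card_sdiff_add_card_eq_card hT
  have d2 : (a : ℝ) ≤ c := by nlinarith [mul_pos hδ c4]
  have d3 : a ≤ c := by exact_mod_cast d2
  have d4 : ((V \ T).card : ℝ) + T.card = V.card := by exact_mod_cast d1
  have d5 : (T.card : ℝ) ≤ K := by exact_mod_cast hTK
  have d6 : (0 : ℝ) ≤ T.card := Nat.cast_nonneg _
  have d7 : (u + δ / 3) * T.card ≤ T.card := mul_le_of_le_one_left d6 (by linarith)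
  have b1 := (hBIN (V \ T) P (u + δ / 3) (δ * V.card / 4) a hP (by linarith) (by linarith)
    (by positivity) (by omega)).1 (by
      rw [eq_sub_of_add_eq d4, mul_sub, add_mul u]
      linarith)
  have s1 := STTc.small (w := (V \ T).card) c4 hδ hη (by norm_num : (0 : ℝ) < 4)
    (by linarith) rfl c2
  linarith

end Pool.Agent.P.MP_a66f6f_co.Hv
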